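import Pool.Agent.Run7.h470.Iso.Form
import Pool.Agent.R537.HD.PolyT

/-!
# The reduction is computable in polynomial time (piece P of the project of helper470)
-/

set_option autoImplicit false

namespace Pool.Agent.NPC.H470Iso

open Pool.Agent.NPC Pool.Agent.NPC.ER Pool.Agent.NPC.H612 Pool.Agent.NPC.R537HD
open Run7.h470.Iso (kA kB kC)

section

variable {α : Type} [TEnc α]

theorem poly_powT {t : α → Tm} {k B : α → ℕ} (ht : Poly t) (hk : Poly k) (hB : UPoly B) :
    Poly (fun a => powT (t a) (k a) (B a)) := by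
  have h : UPoly (fun a => min (k a) (B a)) :=
    UPoly.of_le (Poly.min hk hB.toPoly) hB fun a => min_le_right _ _
  exact poly_prodT (Poly.map (F := fun a _ => t a) h.range (ht.comp (Poly.fst Poly.id)))

theorem poly_twoT : Poly (fun _ : α => twoT) := Poly.const _

variable {p : α → List ℕ × Fm} (hp : Poly p)

include hp

theorem poly_qS : Poly (fun a => qS (p a)) := poly_sysOf (poly_fnot (Poly.snd hp))

theorem poly_qv : Poly (fun a => qv (p a)) :=
  Poly.flatMap (F := fun _ c => Con.vars c) (poly_qS hp) (poly_con_vars' (Poly.snd Poly.id))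

theorem upoly_qn : UPoly (fun a => qn (p a)) := UPoly.length (Poly.fst hp)
theorem upoly_qm : UPoly (fun a => qm (p a)) :=
  UPoly.add (UPoly.length (poly_qv hp)) (UPoly.const 1)
theorem upoly_qs : UPoly (fun a => qs (p a)) := UPoly.length (poly_qS hp)
theorem upoly_qκ : UPoly (fun a => qκ (p a)) :=
  upoly_Gx (upoly_qm hp) (UPoly.add (upoly_qs hp) (UPoly.const 4))
theorem upoly_qB : UPoly (fun a => qB (p a)) :=
  upoly_Gx (upoly_qn hp) (upoly_Gx (UPoly.add (upoly_qm hp) (UPoly.const 1))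
    (UPoly.add (UPoly.add (upoly_qκ hp) (upoly_qs hp)) (UPoly.const 6)))
theorem upoly_qC : UPoly (fun a => qC (p a)) :=
  upoly_Gx (upoly_qn hp) (upoly_Gx (UPoly.add (upoly_qm hp) (UPoly.const 1))
    (UPoly.add (UPoly.add (UPoly.add (upoly_qκ hp) (upoly_qB hp)) (upoly_qs hp)) (UPoly.const 6)))
theorem upoly_qM : UPoly (fun a => qM (p a)) := UPoly.add (upoly_qm hp) (UPoly.const 1)
theorem upoly_qK : UPoly (fun a => qK (p a)) := UPoly.add (upoly_qn hp) (UPoly.const 1)
theorem upoly_qR : UPoly (fun a => qR (p a)) :=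
  UPoly.add (UPoly.mul (upoly_qM hp) (UPoly.mul (upoly_qK hp) (upoly_qK hp))) (UPoly.const 1)
theorem upoly_2K : UPoly (fun a => 2 * qK (p a)) := UPoly.mul (UPoly.const 2) (upoly_qK hp)
theorem upoly_M1 : UPoly (fun a => qM (p a) + 1) := UPoly.add (upoly_qM hp) (UPoly.const 1)
theorem upoly_qG : UPoly (fun a => qG (p a)) :=
  UPoly.mul (upoly_qR hp) (UPoly.mul (upoly_2K hp) (upoly_M1 hp))
theorem upoly_qD : UPoly (fun a => qD (p a)) :=
  UPoly.add (UPoly.add (upoly_qκ hp) (upoly_2K hp)) (UPoly.const 6)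
theorem upoly_qL : UPoly (fun a => qL (p a)) := by
  have hK := upoly_qK hp
  have hG := upoly_qG hp
  have hM := upoly_qM hp
  have hM1 := upoly_M1 hp
  have hn := upoly_qn hp
  have c1 : UPoly (fun _ : α => 1) := UPoly.const 1
  have c2 : UPoly (fun _ : α => 2) := UPoly.const 2
  exact UPoly.add (UPoly.add (UPoly.add (UPoly.add (UPoly.add (UPoly.add hK c1)
    (UPoly.mul hG (UPoly.mul hK hM1))) (UPoly.mul c2 (UPoly.add hn (UPoly.mul hM hK))))
    (UPoly.add hn (UPoly.add c1 (UPoly.add hK (UPoly.mul hK hM)))))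
    (UPoly.mul (UPoly.add hG hn) (UPoly.add (UPoly.add (UPoly.add (UPoly.add (UPoly.add hG hn) c1)
      (UPoly.add (UPoly.mul hK hM1) c2)) (upoly_qD hp)) c2))) c2
theorem upoly_qE : UPoly (fun a => qE (p a)) := by
  have hK := upoly_qK hp
  have hG := upoly_qG hp
  have hM := upoly_qM hp
  have hn := upoly_qn hp
  have hR := upoly_qR hp
  exact UPoly.add (UPoly.add (upoly_qC hp) (upoly_qL hp)) (UPoly.add (UPoly.add (UPoly.add hG
    (UPoly.mul (upoly_2K hp) (UPoly.add hM (UPoly.mul hR hM)))) hn) (UPoly.const 4))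
theorem upoly_qΛ : UPoly (fun a => qΛ (p a)) :=
  UPoly.add (UPoly.add (upoly_qB hp) (upoly_qC hp)) (upoly_qE hp)

theorem upoly_o1 : UPoly (fun a => o1 (p a)) := upoly_qn hp
theorem upoly_o2 : UPoly (fun a => o2 (p a)) := UPoly.add (upoly_o1 hp) (UPoly.const 1)
theorem upoly_o3 : UPoly (fun a => o3 (p a)) := UPoly.add (upoly_o2 hp) (upoly_qK hp)
theorem upoly_o4 : UPoly (fun a => o4 (p a)) :=
  UPoly.add (upoly_o3 hp) (UPoly.mul (upoly_qK hp) (upoly_qM hp))
theorem upoly_o5 : UPoly (fun a => o5 (p a)) :=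
  UPoly.add (upoly_o4 hp) (UPoly.mul (upoly_qK hp) (UPoly.add (upoly_qκ hp) (UPoly.const 1)))
theorem upoly_o6 : UPoly (fun a => o6 (p a)) :=
  UPoly.add (upoly_o5 hp) (UPoly.mul (UPoly.add (upoly_qG hp) (upoly_qn hp)) (upoly_qL hp))
theorem upoly_o7 : UPoly (fun a => o7 (p a)) :=
  UPoly.add (upoly_o6 hp) (UPoly.add (upoly_qΛ hp) (UPoly.const 1))
theorem upoly_o8 : UPoly (fun a => o8 (p a)) := UPoly.add (upoly_o7 hp) (UPoly.const 1)
theorem upoly_o9 : UPoly (fun a => o9 (p a)) := UPoly.add (upoly_o8 hp) (UPoly.const 1)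
theorem upoly_o10 : UPoly (fun a => o10 (p a)) := UPoly.add (upoly_o9 hp) (upoly_qM hp)
theorem upoly_tot : UPoly (fun a => tot (p a)) :=
  UPoly.add (upoly_o10 hp) (UPoly.add (upoly_qκ hp) (UPoly.const 1))

theorem poly_yV {j i : α → ℕ} (hj : Poly j) (hi : Poly i) :
    Poly (fun a => yV (p a) (j a) (i a)) :=
  poly_tvar (Poly.add (upoly_o3 hp).toPoly (Poly.add (Poly.mul hj (upoly_qM hp).toPoly) hi))

theorem poly_uV {j i : α → ℕ} (hj : Poly j) (hi : Poly i) :
    Poly (fun a => uV (p a) (j a) (i a)) :=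
  poly_tvar (Poly.add (upoly_o4 hp).toPoly
    (Poly.add (Poly.mul hj (Poly.add (upoly_qκ hp).toPoly (Poly.const 1))) hi))

theorem poly_NV : Poly (fun a => NV (p a)) := poly_tvar (upoly_o7 hp).toPoly
theorem poly_sV : Poly (fun a => sV (p a)) := poly_tvar (upoly_o8 hp).toPoly

theorem poly_coT {q : α → ℕ} (hq : Poly q) : Poly (fun a => coT (p a) (q a)) := by
  have hp' : Poly (fun x : α × ℕ => p x.1) := hp.comp (Poly.fst Poly.id)
  have hq' : Poly (fun x : α × ℕ => q x.1) := hq.comp (Poly.fst Poly.id)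
  have hb : Poly (fun x : α × ℕ => x.2) := Poly.snd Poly.id
  refine poly_tmul (poly_tvar (UPoly.add (upoly_o6 hp) (upoly_qE hp)).toPoly) (poly_sumT
    (Poly.map (F := fun a b => Tm.mul (powT twoT b (qL (p a)))
      (Tm.var (o5 (p a) + (q a * qL (p a) + b)))) (upoly_qL hp).range ?_))
  exact poly_tmul (poly_powT poly_twoT hb (upoly_qL hp')) (poly_tvar
    (Poly.add (upoly_o5 hp').toPoly (Poly.add (Poly.mul hq' (upoly_qL hp').toPoly) hb)))

theorem poly_rr {q : α → ℕ} (hq : Poly q) : Poly (fun a => rr (p a) (q a)) :=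
  Poly.div hq (Poly.mul (upoly_2K hp).toPoly (upoly_M1 hp).toPoly)

theorem poly_ee {q : α → ℕ} (hq : Poly q) : Poly (fun a => ee (p a) (q a)) :=
  Poly.mod (Poly.div hq (upoly_M1 hp).toPoly) (upoly_2K hp).toPoly

theorem poly_liT {q j : α → ℕ} (hq : Poly q) (hj : Poly j) :
    Poly (fun a => liT (p a) (q a) (j a)) := by
  have hp' : Poly (fun x : α × ℕ => p x.1) := hp.comp (Poly.fst Poly.id)
  have hq' : Poly (fun x : α × ℕ => q x.1) := hq.comp (Poly.fst Poly.id)
  have hj' : Poly (fun x : α × ℕ => j x.1) := hj.comp (Poly.fst Poly.id)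
  have hb : Poly (fun x : α × ℕ => x.2) := Poly.snd Poly.id
  refine poly_sumT (Poly.map (F := fun a i => Tm.mul (powT (numT (rr (p a) (q a))) i (qM (p a)))
    (yV (p a) (j a) i)) (upoly_qM hp).range ?_)
  exact poly_tmul (poly_powT (poly_numT (poly_rr hp' hq')) hb (upoly_qM hp')) (poly_yV hp' hj' hb)

theorem poly_haT {q j : α → ℕ} (hq : Poly q) (hj : Poly j) :
    Poly (fun a => haT (p a) (q a) (j a)) := by
  have hm : Poly (fun a => q a % (qM (p a) + 1)) := Poly.mod hq (upoly_M1 hp).toPoly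
  exact Poly.ite (Poly.decide_eq hm (Poly.const 0)) (Poly.const _)
    (poly_yV hp hj (Poly.sub hm (Poly.const 1)))

theorem poly_dhT {q i : α → ℕ} (hq : Poly q) (hi : Poly i) :
    Poly (fun a => dhT (p a) (q a) (i a)) := by
  have hm : Poly (fun a => q a % (qM (p a) + 1)) := Poly.mod hq (upoly_M1 hp).toPoly
  exact Poly.ite (Poly.decide_eq hm (Poly.add hi (Poly.const 1))) (Poly.const _) (Poly.const _)

theorem poly_peT {j : α → ℕ} (hj : Poly j) : Poly (fun a => peT (p a) (j a)) := by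
  have hp' : Poly (fun x : α × ℕ => p x.1) := hp.comp (Poly.fst Poly.id)
  have hj' : Poly (fun x : α × ℕ => j x.1) := hj.comp (Poly.fst Poly.id)
  have hb : Poly (fun x : α × ℕ => x.2) := Poly.snd Poly.id
  refine poly_sumT (Poly.map (F := fun a q => Tm.mul (coT (p a) q) (Tm.mul (haT (p a) q (j a))
    (powT (liT (p a) q (j a)) (ee (p a) q) (2 * qK (p a))))) (upoly_qG hp).range ?_)
  exact poly_tmul (poly_coT hp' hb) (poly_tmul (poly_haT hp' hb hj')
    (poly_powT (poly_liT hp' hb hj') (poly_ee hp' hb) (upoly_2K hp')))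

theorem poly_dpT {i j : α → ℕ} (hi : Poly i) (hj : Poly j) :
    Poly (fun a => dpT (p a) (i a) (j a)) := by
  have hp' : Poly (fun x : α × ℕ => p x.1) := hp.comp (Poly.fst Poly.id)
  have hj' : Poly (fun x : α × ℕ => j x.1) := hj.comp (Poly.fst Poly.id)
  have hi' : Poly (fun x : α × ℕ => i x.1) := hi.comp (Poly.fst Poly.id)
  have hb : Poly (fun x : α × ℕ => x.2) := Poly.snd Poly.id
  refine poly_sumT (Poly.map (F := fun a q => Tm.mul (coT (p a) q)
    (Tm.add (Tm.mul (dhT (p a) q (i a)) (powT (liT (p a) q (j a)) (ee (p a) q) (2 * qK (p a))))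
    (Tm.mul (haT (p a) q (j a)) (Tm.mul (Tm.mul (numT (ee (p a) q))
      (powT (liT (p a) q (j a)) (ee (p a) q - 1) (2 * qK (p a))))
      (powT (numT (rr (p a) q)) (i a) (qM (p a))))))) (upoly_qG hp).range ?_)
  exact poly_tmul (poly_coT hp' hb) (poly_tadd (poly_tmul (poly_dhT hp' hb hi')
    (poly_powT (poly_liT hp' hb hj') (poly_ee hp' hb) (upoly_2K hp')))
    (poly_tmul (poly_haT hp' hb hj') (poly_tmul (poly_tmul (poly_numT (poly_ee hp' hb))
      (poly_powT (poly_liT hp' hb hj') (Poly.sub (poly_ee hp' hb) (Poly.const 1))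
        (upoly_2K hp'))) (poly_powT (poly_numT (poly_rr hp' hb)) hi' (upoly_qM hp')))))

theorem poly_lpT : Poly (fun a => lpT (p a)) := by
  have hp' : Poly (fun x : α × ℕ => p x.1) := hp.comp (Poly.fst Poly.id)
  have hb : Poly (fun x : α × ℕ => x.2) := Poly.snd Poly.id
  refine poly_sumT (Poly.map (F := fun a i => Tm.mul (coT (p a) (qG (p a) + i)) (Tm.var i))
    (upoly_qn hp).range ?_)
  exact poly_tmul (poly_coT hp' (Poly.add (upoly_qG hp').toPoly hb)) (poly_tvar hb)

theorem poly_cnd {i : α → ℕ} (hi : Poly i) :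
    Poly (fun a => decide (i a % 2 = 0 ∧ i a / 2 ∈ (p a).1)) :=
  Poly.decide_and (Poly.decide_eq (Poly.mod hi (Poly.const 2)) (Poly.const 0))
    (Poly.decide_mem (Poly.div hi (Poly.const 2)) (Poly.fst hp))

theorem poly_pk {A B : α → Tm} {base i : α → ℕ} (hA : Poly A) (hB : Poly B) (hb : Poly base)
    (hi : Poly i) : Poly (fun a => pk (p a) (A a) (B a) (base a) (i a)) :=
  Poly.ite (poly_cnd hp hi)
    (poly_tmul hA (poly_tvar (poly_idxOf (Poly.fst hp) (Poly.div hi (Poly.const 2)))))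
    (poly_tmul hB (poly_tvar (Poly.add hb (poly_idxOf (poly_qv hp) hi))))

theorem poly_pkX {A : α → Tm} {i0 i : α → ℕ} (hA : Poly A) (hi0 : Poly i0) (hi : Poly i) :
    Poly (fun a => pkX (p a) (A a) (i0 a) (i a)) :=
  Poly.ite (poly_cnd hp hi)
    (Poly.ite (Poly.decide_eq (poly_idxOf (Poly.fst hp) (Poly.div hi (Poly.const 2))) hi0) hA
      (Poly.const _)) (Poly.const _)

theorem poly_pkZ {k0 i : α → ℕ} (hk : Poly k0) (hi : Poly i) :
    Poly (fun a => pkZ (p a) (k0 a) (i a)) :=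
  Poly.ite (poly_cnd hp hi) (Poly.const _)
    (Poly.ite (Poly.decide_eq (poly_idxOf (poly_qv hp) hi) hk) (Poly.const _) (Poly.const _))

omit hp in
theorem poly_ap {V : α → ℕ → Tm} (hV : Poly (fun x : α × ℕ => V x.1 x.2)) {i : α → ℕ}
    (hi : Poly i) : Poly (fun a => V a (i a)) :=
  hV.comp (Poly.pair Poly.id hi)

omit hp in
theorem poly_ceT {V : α → ℕ → Tm} {w : α → Tm} {c : α → ER.Con}
    (hV : Poly (fun x : α × ℕ => V x.1 x.2)) (hw : Poly w) (hc : Poly c) :
    Poly (fun a => ceT (V a) (w a) (c a)) := by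
  have h0 : Poly (fun a => (c a).code) := poly_con_code hc
  have d0 : Poly (fun a => decide ((c a).code.1 = 0)) :=
    Poly.decide_eq (Poly.fst h0) (Poly.const 0)
  have d1 : Poly (fun a => decide ((c a).code.1 = 1)) :=
    Poly.decide_eq (Poly.fst h0) (Poly.const 1)
  have e1 := poly_ap hV (Poly.fst (Poly.snd h0))
  have e2 := poly_ap hV (Poly.fst (Poly.snd (Poly.snd h0)))
  have e3 := poly_ap hV (Poly.snd (Poly.snd (Poly.snd h0)))
  exact Poly.ite d0 (poly_tmul hw (poly_subT e1 hw)) (Poly.ite d1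
    (poly_tmul hw (poly_subT (poly_tadd e1 e2) e3)) (poly_subT (poly_tmul e1 e2)
      (poly_tmul hw e3)))

omit hp in
theorem poly_dcT {V V' : α → ℕ → Tm} {w w' : α → Tm} {c : α → ER.Con}
    (hV : Poly (fun x : α × ℕ => V x.1 x.2)) (hV' : Poly (fun x : α × ℕ => V' x.1 x.2))
    (hw : Poly w) (hw' : Poly w') (hc : Poly c) :
    Poly (fun a => dcT (V a) (V' a) (w a) (w' a) (c a)) := by
  have h0 : Poly (fun a => (c a).code) := poly_con_code hc
  have d0 : Poly (fun a => decide ((c a).code.1 = 0)) :=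
    Poly.decide_eq (Poly.fst h0) (Poly.const 0)
  have d1 : Poly (fun a => decide ((c a).code.1 = 1)) :=
    Poly.decide_eq (Poly.fst h0) (Poly.const 1)
  have e1 := poly_ap hV (Poly.fst (Poly.snd h0))
  have e2 := poly_ap hV (Poly.fst (Poly.snd (Poly.snd h0)))
  have e3 := poly_ap hV (Poly.snd (Poly.snd (Poly.snd h0)))
  have f1 := poly_ap hV' (Poly.fst (Poly.snd h0))
  have f2 := poly_ap hV' (Poly.fst (Poly.snd (Poly.snd h0)))
  have f3 := poly_ap hV' (Poly.snd (Poly.snd (Poly.snd h0)))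
  exact Poly.ite d0
    (poly_tadd (poly_tmul hw' (poly_subT e1 hw)) (poly_tmul hw (poly_subT f1 hw')))
    (Poly.ite d1
      (poly_tadd (poly_tmul hw' (poly_subT (poly_tadd e1 e2) e3))
        (poly_tmul hw (poly_subT (poly_tadd f1 f2) f3)))
      (poly_subT (poly_tadd (poly_tmul f1 e2) (poly_tmul e1 f2))
        (poly_tadd (poly_tmul hw' e3) (poly_tmul hw f3))))

omit hp in
/-- lifting a family of functions to a larger context -/
theorem poly_lift {β : Type} [TEnc β] {V : α → ℕ → Tm} (hV : Poly (fun x : α × ℕ => V x.1 x.2)) :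
    Poly (fun x : (α × β) × ℕ => V x.1.1 x.2) :=
  hV.comp (Poly.pair (Poly.fst (Poly.fst Poly.id)) (Poly.snd Poly.id))

theorem poly_qT {V : α → ℕ → Tm} {w : α → Tm} (hV : Poly (fun x : α × ℕ => V x.1 x.2))
    (hw : Poly w) : Poly (fun a => qT (p a) (V a) (w a)) := by
  refine poly_sumT (Poly.map (F := fun a c => sqT (ceT (V a) (w a) c)) (poly_qS hp) ?_)
  exact poly_sqT (poly_ceT (V := fun x : α × ER.Con => V x.1) (poly_lift hV)
    (hw.comp (Poly.fst Poly.id)) (Poly.snd Poly.id))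

theorem poly_dqT {V V' : α → ℕ → Tm} {w w' : α → Tm} (hV : Poly (fun x : α × ℕ => V x.1 x.2))
    (hV' : Poly (fun x : α × ℕ => V' x.1 x.2)) (hw : Poly w) (hw' : Poly w') :
    Poly (fun a => dqT (p a) (V a) (V' a) (w a) (w' a)) := by
  refine poly_sumT (Poly.map (F := fun a c => Tm.mul (Tm.mul twoT (ceT (V a) (w a) c))
    (dcT (V a) (V' a) (w a) (w' a) c)) (poly_qS hp) ?_)
  have hw1 : Poly (fun x : α × ER.Con => w x.1) := hw.comp (Poly.fst Poly.id)
  have hw2 : Poly (fun x : α × ER.Con => w' x.1) := hw'.comp (Poly.fst Poly.id)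
  exact poly_tmul (poly_tmul poly_twoT (poly_ceT (V := fun x : α × ER.Con => V x.1)
    (poly_lift hV) hw1 (Poly.snd Poly.id)))
    (poly_dcT (V := fun x : α × ER.Con => V x.1) (V' := fun x : α × ER.Con => V' x.1)
      (poly_lift hV) (poly_lift hV') hw1 hw2 (Poly.snd Poly.id))

theorem poly_pV {j i : α → ℕ} (hj : Poly j) (hi : Poly i) :
    Poly (fun a => pV (p a) (j a) (i a)) :=
  poly_pk hp (poly_tmul (poly_NV hp) (poly_sqT (poly_yV hp hj (Poly.const 0)))) (Poly.const _)
    (Poly.add (upoly_o3 hp).toPoly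
      (Poly.add (Poly.mul hj (upoly_qM hp).toPoly) (Poly.const 1))) hi

theorem poly_pVf {j : α → ℕ} (hj : Poly j) :
    Poly (fun x : α × ℕ => pV (p x.1) (j x.1) x.2) :=
  poly_pV (hp.comp (Poly.fst Poly.id)) (hj.comp (Poly.fst Poly.id)) (Poly.snd Poly.id)

theorem poly_y0 {j : α → ℕ} (hj : Poly j) : Poly (fun a => yV (p a) (j a) 0) :=
  poly_yV hp hj (Poly.const 0)

theorem poly_vaT {j : α → ℕ} (hj : Poly j) : Poly (fun a => vaT (p a) (j a)) := by
  have hy := poly_sqT (poly_y0 hp hj)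
  exact poly_tadd (poly_tadd (poly_tadd (poly_subT (poly_tmul (poly_NV hp)
    (poly_qT hp (V := fun a => pV (p a) (j a)) (poly_pVf hp hj) hy))
    (poly_tmul hy (poly_uV hp hj (upoly_qκ hp).toPoly)))
    (poly_tvar (UPoly.add (upoly_o6 hp) (upoly_qC hp)).toPoly)) (poly_peT hp hj)) (poly_lpT hp)

theorem poly_pV' {i j k : α → ℕ} (hi : Poly i) (hj : Poly j) (hk : Poly k) :
    Poly (fun a => pV' (p a) (i a) (j a) (k a)) :=
  Poly.ite (Poly.decide_eq hi (Poly.const 0))
    (poly_pk hp (poly_tmul (poly_tmul poly_twoT (poly_NV hp)) (poly_y0 hp hj)) (Poly.const _)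
      (Poly.add (upoly_o3 hp).toPoly
        (Poly.add (Poly.mul hj (upoly_qM hp).toPoly) (Poly.const 1))) hk)
    (poly_pkZ hp (Poly.sub hi (Poly.const 1)) hk)

theorem poly_dyT {i j : α → ℕ} (hi : Poly i) (hj : Poly j) :
    Poly (fun a => dyT (p a) (i a) (j a)) := by
  have hy0 := poly_y0 hp hj
  have hy := poly_sqT hy0
  have h2y := poly_tmul poly_twoT hy0
  have hV' : Poly (fun x : α × ℕ => pV' (p x.1) (i x.1) (j x.1) x.2) :=
    poly_pV' (hp.comp (Poly.fst Poly.id)) (hi.comp (Poly.fst Poly.id))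
      (hj.comp (Poly.fst Poly.id)) (Poly.snd Poly.id)
  have hd : Poly (fun a => decide (i a = 0)) := Poly.decide_eq hi (Poly.const 0)
  exact poly_tadd (poly_subT (poly_tmul (poly_NV hp)
    (poly_dqT hp (V := fun a => pV (p a) (j a)) (V' := fun a => pV' (p a) (i a) (j a))
      (poly_pVf hp hj) hV' hy (Poly.ite hd h2y (Poly.const _))))
    (Poly.ite hd (poly_tmul (poly_tmul (poly_powT poly_twoT (upoly_qκ hp).toPoly (upoly_qκ hp))
      (poly_uV hp hj (upoly_qκ hp).toPoly)) h2y) (Poly.const _)))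
    (poly_dpT hp hi hj)

theorem poly_dxT {i j : α → ℕ} (hi : Poly i) (hj : Poly j) :
    Poly (fun a => dxT (p a) (i a) (j a)) := by
  have hy := poly_sqT (poly_y0 hp hj)
  have hp' : Poly (fun x : α × ℕ => p x.1) := hp.comp (Poly.fst Poly.id)
  have hj' : Poly (fun x : α × ℕ => j x.1) := hj.comp (Poly.fst Poly.id)
  have hi' : Poly (fun x : α × ℕ => i x.1) := hi.comp (Poly.fst Poly.id)
  have hX : Poly (fun x : α × ℕ =>
      pkX (p x.1) (Tm.mul (NV (p x.1)) (sqT (yV (p x.1) (j x.1) 0))) (i x.1) x.2) :=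
    poly_pkX hp' (poly_tmul (poly_NV hp') (poly_sqT (poly_y0 hp' hj'))) hi' (Poly.snd Poly.id)
  exact poly_tadd (poly_tmul (poly_NV hp) (poly_dqT hp (V := fun a => pV (p a) (j a))
    (V' := fun a => pkX (p a) (Tm.mul (NV (p a)) (sqT (yV (p a) (j a) 0))) (i a))
    (poly_pVf hp hj) hX hy (Poly.const _))) (poly_coT hp (Poly.add (upoly_qG hp).toPoly hi))

theorem poly_tvo {o j : α → ℕ} (ho : Poly o) (hj : Poly j) :
    Poly (fun a => Tm.var (o a + j a)) := poly_tvar (Poly.add ho hj)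

theorem poly_actF {j : α → ℕ} (hj : Poly j) : Poly (fun a => actF (p a) (j a)) := by
  have hp' : Poly (fun x : α × ℕ => p x.1) := hp.comp (Poly.fst Poly.id)
  have hj' : Poly (fun x : α × ℕ => j x.1) := hj.comp (Poly.fst Poly.id)
  have hb : Poly (fun x : α × ℕ => x.2) := Poly.snd Poly.id
  have hc := poly_tvar (Poly.add (upoly_o2 hp).toPoly hj)
  have l1 : Poly (fun a => (List.range (qM (p a))).map
      fun i => Fm.eq (yV (p a) (j a) i) Tm.zero) :=
    Poly.map (F := fun a i => Fm.eq (yV (p a) (j a) i) Tm.zero) (upoly_qM hp).range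
      (poly_feq (poly_yV hp' hj' hb) (Poly.const _))
  have l2 : Poly (fun a => (List.range (qκ (p a) + 1)).map
      fun s => Fm.eq (uV (p a) (j a) s) Tm.zero) :=
    Poly.map (F := fun a s => Fm.eq (uV (p a) (j a) s) Tm.zero)
      (UPoly.add (upoly_qκ hp) (UPoly.const 1)).range
      (poly_feq (poly_uV hp' hj' hb) (Poly.const _))
  have l3 : Poly (fun a => (List.range (qκ (p a))).map fun s =>
      Fm.eq (uV (p a) (j a) (s + 1)) (Tm.mul (sqT (uV (p a) (j a) s))
        (sqT (yV (p a) (j a) 0)))) :=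
    Poly.map (F := fun a s => Fm.eq (uV (p a) (j a) (s + 1)) (Tm.mul (sqT (uV (p a) (j a) s))
        (sqT (yV (p a) (j a) 0)))) (upoly_qκ hp).range
      (poly_feq (poly_uV hp' hj' (Poly.add hb (Poly.const 1)))
        (poly_tmul (poly_sqT (poly_uV hp' hj' hb)) (poly_sqT (poly_y0 hp' hj'))))
  have l4 : Poly (fun a => (List.range (qM (p a))).map fun i =>
      Fm.or (Fm.eq (sqT (yV (p a) (j a) i)) Tm.one) (Fm.eq (dyT (p a) i (j a)) Tm.zero)) :=
    Poly.map (F := fun a i => Fm.or (Fm.eq (sqT (yV (p a) (j a) i)) Tm.one)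
      (Fm.eq (dyT (p a) i (j a)) Tm.zero)) (upoly_qM hp).range
      (poly_for (poly_feq (poly_sqT (poly_yV hp' hj' hb)) (Poly.const _))
        (poly_feq (poly_dyT hp' hb hj') (Poly.const _)))
  exact poly_for
    (poly_conj (Poly.cons (poly_feq hc (Poly.const _)) (Poly.cons (poly_conj l1)
      (Poly.cons (poly_conj l2) (Poly.const _)))))
    (poly_conj (Poly.cons (poly_flt (Poly.const _) hc) (Poly.cons
      (poly_feq (poly_uV hp hj (Poly.const 0)) (Poly.const _)) (Poly.cons (poly_conj l3)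
        (Poly.cons (poly_feq (poly_vaT hp hj) (poly_tvar (upoly_o1 hp).toPoly))
          (Poly.cons (poly_conj l4) (Poly.const _)))))))

theorem poly_dsT {j j' : α → ℕ} (hj : Poly j) (hj' : Poly j') :
    Poly (fun a => dsT (p a) (j a) (j' a)) := by
  have hp1 : Poly (fun x : α × ℕ => p x.1) := hp.comp (Poly.fst Poly.id)
  have hj1 : Poly (fun x : α × ℕ => j x.1) := hj.comp (Poly.fst Poly.id)
  have hj2 : Poly (fun x : α × ℕ => j' x.1) := hj'.comp (Poly.fst Poly.id)
  have hb : Poly (fun x : α × ℕ => x.2) := Poly.snd Poly.id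
  refine poly_sumT (Poly.map (F := fun a i => sqT (subT (yV (p a) (j a) i) (yV (p a) (j' a) i)))
    (upoly_qM hp).range ?_)
  exact poly_sqT (poly_subT (poly_yV hp1 hj1 hb) (poly_yV hp1 hj2 hb))

theorem poly_baF : Poly (fun a => baF (p a)) := by
  have hp' : Poly (fun x : α × ℕ => p x.1) := hp.comp (Poly.fst Poly.id)
  have hb : Poly (fun x : α × ℕ => x.2) := Poly.snd Poly.id
  have o6h := poly_tvar (upoly_o6 hp).toPoly
  have l1 : Poly (fun a => (List.range ((qG (p a) + qn (p a)) * qL (p a))).map fun b =>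
      Fm.eq (sqT (Tm.var (o5 (p a) + b))) (Tm.var (o5 (p a) + b))) :=
    Poly.map (F := fun a b => Fm.eq (sqT (Tm.var (o5 (p a) + b))) (Tm.var (o5 (p a) + b)))
      (UPoly.mul (UPoly.add (upoly_qG hp) (upoly_qn hp)) (upoly_qL hp)).range
      (poly_feq (poly_sqT (poly_tvar (Poly.add (upoly_o5 hp').toPoly hb)))
        (poly_tvar (Poly.add (upoly_o5 hp').toPoly hb)))
  have l2 : Poly (fun a => (List.range (qn (p a))).map fun i => Fm.le (sqT (Tm.var i)) Tm.one) :=
    Poly.map (F := fun _ i => Fm.le (sqT (Tm.var i)) Tm.one) (upoly_qn hp).range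
      (poly_fle (poly_sqT (poly_tvar hb)) (Poly.const _))
  have l3 : Poly (fun a => (List.range (qK (p a))).map fun j => actF (p a) j) :=
    Poly.map (F := fun a j => actF (p a) j) (upoly_qK hp).range (poly_actF hp' hb)
  have l4 : Poly (fun a => (List.range (qn (p a))).map fun j =>
      Fm.or (Fm.not (Fm.eq (Tm.var (o2 (p a) + j)) Tm.zero))
        (Fm.eq (Tm.var (o2 (p a) + (j + 1))) Tm.zero)) :=
    Poly.map (F := fun a j => Fm.or (Fm.not (Fm.eq (Tm.var (o2 (p a) + j)) Tm.zero))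
        (Fm.eq (Tm.var (o2 (p a) + (j + 1))) Tm.zero)) (upoly_qn hp).range
      (poly_for (poly_fnot (poly_feq (poly_tvar (Poly.add (upoly_o2 hp').toPoly hb))
        (Poly.const _))) (poly_feq (poly_tvar (Poly.add (upoly_o2 hp').toPoly
          (Poly.add hb (Poly.const 1)))) (Poly.const _)))
  have l5 : Poly (fun a => (List.range (qK (p a))).map fun j => Tm.var (o2 (p a) + j)) :=
    Poly.map (F := fun a j => Tm.var (o2 (p a) + j)) (upoly_qK hp).range
      (poly_tvar (Poly.add (upoly_o2 hp').toPoly hb))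
  have l6 : Poly (fun a => (List.range (qn (p a))).map fun i =>
      Fm.or (Fm.eq (sqT (Tm.var i)) Tm.one)
        (Fm.eq (sumT ((List.range (qK (p a))).map fun j =>
          Tm.mul (Tm.var (o2 (p a) + j)) (dxT (p a) i j))) Tm.zero)) := by
    refine Poly.map (F := fun a i => Fm.or (Fm.eq (sqT (Tm.var i)) Tm.one)
        (Fm.eq (sumT ((List.range (qK (p a))).map fun j =>
          Tm.mul (Tm.var (o2 (p a) + j)) (dxT (p a) i j))) Tm.zero)) (upoly_qn hp).range ?_
    refine poly_for (poly_feq (poly_sqT (poly_tvar hb)) (Poly.const _))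
      (poly_feq (poly_sumT ?_) (Poly.const _))
    have hp'' : Poly (fun x : (α × ℕ) × ℕ => p x.1.1) := hp'.comp (Poly.fst Poly.id)
    have hi : Poly (fun x : (α × ℕ) × ℕ => x.1.2) := hb.comp (Poly.fst Poly.id)
    have hj : Poly (fun x : (α × ℕ) × ℕ => x.2) := Poly.snd Poly.id
    exact Poly.map (F := fun (x : α × ℕ) j => Tm.mul (Tm.var (o2 (p x.1) + j)) (dxT (p x.1) x.2 j))
      (upoly_qK hp').range (poly_tmul (poly_tvar (Poly.add (upoly_o2 hp'').toPoly hj))
        (poly_dxT hp'' hi hj))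
  have l7 : Poly (fun a => (List.range (qK (p a))).map fun j =>
      conj ((List.range (qK (p a))).map fun j' =>
        if j = j' then tt else Fm.or (Fm.eq (Tm.var (o2 (p a) + j)) Tm.zero)
          (Fm.or (Fm.eq (Tm.var (o2 (p a) + j')) Tm.zero)
            (Fm.not (Fm.eq (dsT (p a) j j') Tm.zero))))) := by
    refine Poly.map (F := fun a j => conj ((List.range (qK (p a))).map fun j' =>
        if j = j' then tt else Fm.or (Fm.eq (Tm.var (o2 (p a) + j)) Tm.zero)
          (Fm.or (Fm.eq (Tm.var (o2 (p a) + j')) Tm.zero)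
            (Fm.not (Fm.eq (dsT (p a) j j') Tm.zero))))) (upoly_qK hp).range ?_
    have hp'' : Poly (fun x : (α × ℕ) × ℕ => p x.1.1) := hp'.comp (Poly.fst Poly.id)
    have hi : Poly (fun x : (α × ℕ) × ℕ => x.1.2) := hb.comp (Poly.fst Poly.id)
    have hj : Poly (fun x : (α × ℕ) × ℕ => x.2) := Poly.snd Poly.id
    refine poly_conj (Poly.map (F := fun (x : α × ℕ) j' =>
        if x.2 = j' then tt else Fm.or (Fm.eq (Tm.var (o2 (p x.1) + x.2)) Tm.zero)
          (Fm.or (Fm.eq (Tm.var (o2 (p x.1) + j')) Tm.zero)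
            (Fm.not (Fm.eq (dsT (p x.1) x.2 j') Tm.zero)))) (upoly_qK hp').range ?_)
    exact Poly.ite (Poly.decide_eq hi hj) (Poly.const _)
      (poly_for (poly_feq (poly_tvar (Poly.add (upoly_o2 hp'').toPoly hi)) (Poly.const _))
        (poly_for (poly_feq (poly_tvar (Poly.add (upoly_o2 hp'').toPoly hj)) (Poly.const _))
          (poly_fnot (poly_feq (poly_dsT hp'' hi hj) (Poly.const _)))))
  exact poly_conj (Poly.cons (poly_feq (poly_tadd o6h o6h) (Poly.const _))
    (Poly.cons (poly_conj (poly_chain (upoly_o6 hp).toPoly (upoly_qΛ hp)))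
    (Poly.cons (poly_feq (poly_tmul (poly_NV hp)
      (poly_tvar (UPoly.add (upoly_o6 hp) (upoly_qB hp)).toPoly)) (Poly.const _))
    (Poly.cons (poly_conj l1) (Poly.cons (poly_conj l2) (Poly.cons (poly_conj l3)
    (Poly.cons (poly_conj l4) (Poly.cons (poly_feq (poly_sumT l5) (Poly.const _))
    (Poly.cons (poly_conj l6) (Poly.cons (poly_conj l7) (Poly.const _)))))))))))

theorem poly_cvT : Poly (fun a => cvT (p a)) := by
  have hs := poly_sV hp
  have h9 := poly_tvar (upoly_o9 hp).toPoly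
  have h9s := poly_sqT h9
  have hp' : Poly (fun x : α × ℕ => p x.1) := hp.comp (Poly.fst Poly.id)
  have hV : Poly (fun x : α × ℕ => pk (p x.1) (Tm.mul (NV (p x.1)) (sqT (Tm.var (o9 (p x.1)))))
      (sV (p x.1)) (o9 (p x.1) + 1) x.2) :=
    poly_pk hp' (poly_tmul (poly_NV hp') (poly_sqT (poly_tvar (upoly_o9 hp').toPoly)))
      (poly_sV hp') (Poly.add (upoly_o9 hp').toPoly (Poly.const 1)) (Poly.snd Poly.id)
  exact poly_tadd (poly_subT (poly_tmul (poly_NV hp) (poly_qT hp
      (V := fun a => pk (p a) (Tm.mul (NV (p a)) (sqT (Tm.var (o9 (p a))))) (sV (p a))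
        (o9 (p a) + 1)) hV h9s))
    (poly_tmul (poly_tmul (poly_tmul (poly_sqT (poly_sqT hs)) hs) h9s)
      (poly_tvar (UPoly.add (upoly_o10 hp) (upoly_qκ hp)).toPoly)))
    (poly_tmul (poly_tvar (UPoly.add (upoly_o6 hp) (upoly_qC hp)).toPoly)
      (poly_sqT (poly_sqT (poly_sqT hs))))

theorem poly_coF : Poly (fun a => coF (p a)) := by
  have hs := poly_sV hp
  have hp' : Poly (fun x : α × ℕ => p x.1) := hp.comp (Poly.fst Poly.id)
  have hs' := poly_sV hp'
  have hb : Poly (fun x : α × ℕ => x.2) := Poly.snd Poly.id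
  have l1 : Poly (fun a => (List.range (1 + (qM (p a) + (qκ (p a) + 1)))).map fun i =>
      Fm.eq (Tm.var (o8 (p a) + i)) Tm.zero) :=
    Poly.map (F := fun a i => Fm.eq (Tm.var (o8 (p a) + i)) Tm.zero)
      (UPoly.add (UPoly.const 1) (UPoly.add (upoly_qM hp) (UPoly.add (upoly_qκ hp)
        (UPoly.const 1)))).range
      (poly_feq (poly_tvar (Poly.add (upoly_o8 hp').toPoly hb)) (Poly.const _))
  have l2 : Poly (fun a => (List.range (qM (p a))).map fun i =>
      Fm.le (sqT (Tm.var (o9 (p a) + i))) (sqT (sV (p a)))) :=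
    Poly.map (F := fun a i => Fm.le (sqT (Tm.var (o9 (p a) + i))) (sqT (sV (p a))))
      (upoly_qM hp).range
      (poly_fle (poly_sqT (poly_tvar (Poly.add (upoly_o9 hp').toPoly hb))) (poly_sqT hs'))
  have l3 : Poly (fun a => (List.range (qκ (p a))).map fun s =>
      Fm.eq (Tm.mul (Tm.var (o10 (p a) + (s + 1))) (Tm.mul (sqT (sV (p a))) (sV (p a))))
        (Tm.mul (sqT (Tm.var (o10 (p a) + s))) (sqT (Tm.var (o9 (p a)))))) :=
    Poly.map (F := fun a s =>
      Fm.eq (Tm.mul (Tm.var (o10 (p a) + (s + 1))) (Tm.mul (sqT (sV (p a))) (sV (p a))))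
        (Tm.mul (sqT (Tm.var (o10 (p a) + s))) (sqT (Tm.var (o9 (p a)))))) (upoly_qκ hp).range
      (poly_feq (poly_tmul (poly_tvar (Poly.add (upoly_o10 hp').toPoly
        (Poly.add hb (Poly.const 1)))) (poly_tmul (poly_sqT hs') hs'))
        (poly_tmul (poly_sqT (poly_tvar (Poly.add (upoly_o10 hp').toPoly hb)))
          (poly_sqT (poly_tvar (upoly_o9 hp').toPoly))))
  exact poly_for (poly_conj l1) (poly_conj (Poly.cons (poly_flt (Poly.const _) hs)
    (Poly.cons (poly_conj l2) (Poly.cons (poly_feq (poly_tvar (upoly_o10 hp).toPoly) hs)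
      (Poly.cons (poly_conj l3) (Poly.cons (poly_fle (poly_cvT hp) (Poly.const _))
        (Poly.const _)))))))

/-- **The reduction is computable in polynomial time.** -/
theorem poly_hinst : Poly (fun a => hinst (p a)) :=
  Poly.pair (upoly_tot hp) (poly_fand (poly_baF hp) (poly_coF hp))

end

end Pool.Agent.NPC.H470Iso


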