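import Pool.Agent.Run7.h470.Iso.Sem2

/-!
# The numerical bounds
-/

set_option autoImplicit false

namespace Pool.Agent.NPC.H470Iso

open Pool.Agent.NPC Pool.Agent.NPC.ER Pool.Agent.NPC.H612 Pool.Agent.NPC.R537HD
open Pool.Agent.R537.RN (cube)
open Run7.h470.Iso (lin PolyLE FB FBK DD dg)

theorem lt_two_pow' (n : ℕ) : n < 2 ^ n := Nat.lt_two_pow_self

theorem FB_le {n M k K G d D : ℕ} (hk : k ≤ K) (hG : 1 ≤ G) (hd : d ≤ 2 ^ D) (hd2 : 2 ≤ d) :
    FB n M k G d ≤ 2 ^ (G * (K * (M + 1)) + 2 * (n + M * K) + (n + (1 + (K + K * M))) +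
      (G + n) * (G + n + 1 + (K * (M + 1) + 2) + D + 2)) := by
  unfold FB
  rw [pow_add 2 _ ((G + n) * _), pow_add 2 _ (n + _), pow_add 2 _ (2 * _)]
  have e0 : G ^ (k * (M + 1)) ≤ 2 ^ (G * (K * (M + 1))) := by
    calc G ^ (k * (M + 1)) ≤ (2 ^ G) ^ (k * (M + 1)) :=
          Nat.pow_le_pow_left (lt_two_pow' G).le _
      _ ≤ (2 ^ G) ^ (K * (M + 1)) :=
          Nat.pow_le_pow_right Nat.one_le_two_pow (Nat.mul_le_mul_right _ hk)
      _ = 2 ^ (G * (K * (M + 1))) := (pow_mul _ _ _).symm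
  have e1 : 3 ^ n * (3 ^ M) ^ k ≤ 2 ^ (2 * (n + M * K)) := by
    calc 3 ^ n * (3 ^ M) ^ k ≤ 4 ^ n * (4 ^ M) ^ K := by
          refine Nat.mul_le_mul (Nat.pow_le_pow_left (by norm_num) _) ?_
          exact (Nat.pow_le_pow_left (Nat.pow_le_pow_left (by norm_num) _) _).trans
            (Nat.pow_le_pow_right (Nat.pos_of_ne_zero (by positivity)) hk)
      _ = 2 ^ (2 * (n + M * K)) := by
          rw [show (4 : ℕ) = 2 ^ 2 by norm_num, ← pow_mul, ← pow_mul, ← pow_mul, ← pow_add]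
          congr 1
          ring
  have e2 : n + (1 + (k + k * M)) ≤ 2 ^ (n + (1 + (K + K * M))) := by
    have h1 : k * M ≤ K * M := Nat.mul_le_mul_right _ hk
    have h2 := lt_two_pow' (n + (1 + (K + K * M)))
    omega
  have e3 : DD (G + n) (k * (M + 1) * d + (d + 2)) ≤
      2 ^ ((G + n) * (G + n + 1 + (K * (M + 1) + 2) + D + 2)) := by
    unfold DD
    obtain ⟨A, hA⟩ : ∃ A, A = G + n := ⟨_, rfl⟩
    obtain ⟨B, hB⟩ : ∃ B, B = K * (M + 1) := ⟨_, rfl⟩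
    rw [← hA, ← hB]
    have h1 : k * (M + 1) * d + (d + 2) ≤ 2 ^ (B + 2) * 2 ^ D := by
      have h2 : k * (M + 1) ≤ B := by rw [hB]; exact Nat.mul_le_mul_right _ hk
      have h3 : B + 2 ≤ 2 ^ (B + 2) := (lt_two_pow' _).le
      calc k * (M + 1) * d + (d + 2) ≤ B * d + (d + d) :=
            Nat.add_le_add (Nat.mul_le_mul_right _ h2) (by omega)
        _ = (B + 2) * d := by ring
        _ ≤ 2 ^ (B + 2) * 2 ^ D := Nat.mul_le_mul h3 hd
    have h4 : (A + 1) * (k * (M + 1) * d + (d + 2)) + 1 ≤ 2 ^ (A + 1 + (B + 2) + D + 2) := by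
      have h5 : A + 2 ≤ 2 ^ (A + 2) := (lt_two_pow' _).le
      have h6 : 1 ≤ 2 ^ (B + 2) * 2 ^ D := Nat.one_le_iff_ne_zero.2 (by positivity)
      calc (A + 1) * (k * (M + 1) * d + (d + 2)) + 1
          ≤ (A + 1) * (2 ^ (B + 2) * 2 ^ D) + 2 ^ (B + 2) * 2 ^ D :=
            Nat.add_le_add (Nat.mul_le_mul_left _ h1) h6
        _ = (A + 2) * (2 ^ (B + 2) * 2 ^ D) := by ring
        _ ≤ 2 ^ (A + 2) * (2 ^ (B + 2) * 2 ^ D) := Nat.mul_le_mul_right _ h5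
        _ = 2 ^ (A + 2 + (B + 2) + D) := by
            rw [pow_add 2 (A + 2 + (B + 2)) D, pow_add 2 (A + 2) (B + 2), mul_assoc]
        _ ≤ 2 ^ (A + 1 + (B + 2) + D + 2) := Nat.pow_le_pow_right (by norm_num) (by omega)
    calc ((A + 1) * (k * (M + 1) * d + (d + 2)) + 1) ^ A
        ≤ (2 ^ (A + 1 + (B + 2) + D + 2)) ^ A := Nat.pow_le_pow_left h4 _
      _ = 2 ^ (A * (A + 1 + (B + 2) + D + 2)) := by rw [← pow_mul, mul_comm]
  exact Nat.mul_le_mul (Nat.mul_le_mul (Nat.mul_le_mul e0 e1) e2) e3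

variable (p : List ℕ × Fm)

/-- The degree. -/
def dd : ℕ := dg (qκ p) + 2 * qK p + 1

theorem dd_le : dd p ≤ 2 ^ qD p := by
  unfold dd dg qD
  have h1 := lt_two_pow' (2 * qK p)
  have e : 2 ^ (qκ p + 2 * qK p + 6) = 64 * (2 ^ qκ p * 2 ^ (2 * qK p)) := by
    rw [pow_add, pow_add]; ring
  have h2 : 1 ≤ 2 ^ qκ p := Nat.one_le_two_pow
  have h3 : 1 ≤ 2 ^ (2 * qK p) := Nat.one_le_two_pow
  rw [e, pow_succ]
  nlinarith

theorem qG_pos : 1 ≤ qG p := by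
  unfold qG qR
  have : 0 < 2 * qK p := by unfold qK; omega
  exact Nat.one_le_iff_ne_zero.2 (by positivity)

theorem bnd1 : FBK (qn p) (qm p + 1) (qK p) (qG p) (dd p) < 2 ^ qL p := by
  unfold FBK
  obtain ⟨E, hE⟩ : ∃ E, E = qG p * (qK p * (qM p + 1)) + 2 * (qn p + qM p * qK p) +
      (qn p + (1 + (qK p + qK p * qM p))) +
      (qG p + qn p) * (qG p + qn p + 1 + (qK p * (qM p + 1) + 2) + qD p + 2) := ⟨_, rfl⟩
  have h1 : ∀ k ∈ Finset.range (qK p + 1), FB (qn p) (qm p + 1) k (qG p) (dd p) ≤ 2 ^ E := by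
    intro k hk
    rw [Finset.mem_range] at hk
    rw [hE]
    have h12 : 12 ≤ dg (qκ p) := Nat.le_add_left _ _
    exact FB_le (by omega) (qG_pos p) (dd_le p) (by unfold dd; omega)
  have h2 := Finset.sum_le_card_nsmul _ _ _ h1
  rw [Finset.card_range, smul_eq_mul] at h2
  refine lt_of_le_of_lt h2 ?_
  have h3 : qL p = (qK p + 1) + E + 2 := by rw [hE]; unfold qL; ring
  rw [h3]
  have h4 := lt_two_pow' (qK p + 1)
  calc (qK p + 1) * 2 ^ E < 2 ^ (qK p + 1) * 2 ^ E :=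
        Nat.mul_lt_mul_of_pos_right h4 (by positivity)
    _ = 2 ^ (qK p + 1 + E) := (pow_add _ _ _).symm
    _ ≤ 2 ^ ((qK p + 1) + E + 2) := Nat.pow_le_pow_right (by norm_num) (by omega)

/-! ### The size of the perturbation -/

theorem ee_lt' (q : ℕ) : ee p q < 2 * qK p := Nat.mod_lt _ (by unfold qK; omega)

theorem rr_lt (q : Fin (qG p)) : rr p q < qR p := by
  unfold rr
  exact Nat.div_lt_of_lt_mul (lt_of_lt_of_eq q.2 (by unfold qG; ring))

theorem abs_lin_le {M R r : ℕ} (hr : r ≤ R) (hR : 1 ≤ R) {y : Fin M → ℝ} (hy : y ∈ cube M) :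
    |lin r y| ≤ M * (R : ℝ) ^ M := by
  unfold lin
  refine (Finset.abs_sum_le_sum_abs _ _).trans ?_
  have h1 : ∀ i ∈ (Finset.univ : Finset (Fin M)), |(r : ℝ) ^ (i : ℕ) * y i| ≤ (R : ℝ) ^ M := by
    intro i _
    rw [abs_mul, abs_of_nonneg (by positivity)]
    have hR' : (1 : ℝ) ≤ R := by exact_mod_cast hR
    have hr' : (r : ℝ) ≤ R := by exact_mod_cast hr
    calc (r : ℝ) ^ (i : ℕ) * |y i| ≤ (R : ℝ) ^ (i : ℕ) * 1 :=
          mul_le_mul (pow_le_pow_left₀ (by positivity) hr' _) (hy i) (abs_nonneg _)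
            (by positivity)
      _ ≤ (R : ℝ) ^ M := by
          rw [mul_one]
          exact pow_le_pow_right₀ hR' i.2.le
  refine (Finset.sum_le_card_nsmul _ _ _ h1).trans ?_
  simp

theorem abs_pq_le (q : Fin (qG p)) {y : Fin (qm p + 1) → ℝ} (hy : y ∈ cube (qm p + 1)) :
    |pq p q y| ≤ (2 : ℝ) ^ (2 * qK p * (qM p + qR p * qM p)) := by
  have hR : 1 ≤ qR p := Nat.succ_pos _
  have h1 : |hatn p ((q : ℕ) % (qM p + 1)) y| ≤ 1 := by
    unfold hatn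
    split_ifs
    · exact hy _
    · simp
  have h2 : |lin (rr p q) y| ≤ (2 : ℝ) ^ (qM p + qR p * qM p) := by
    refine (abs_lin_le (rr_lt p q).le hR hy).trans ?_
    have h3 : ((qm p + 1 : ℕ) : ℝ) ≤ 2 ^ qM p := by
      have := (lt_two_pow' (qM p)).le
      exact_mod_cast this
    have h4 : ((qR p : ℕ) : ℝ) ^ (qm p + 1) ≤ 2 ^ (qR p * qM p) := by
      rw [pow_mul]
      refine pow_le_pow_left₀ (by positivity) ?_ _
      exact_mod_cast (lt_two_pow' (qR p)).le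
    rw [pow_add 2 (qM p) (qR p * qM p)]
    exact mul_le_mul h3 h4 (by positivity) (by positivity)
  unfold pq
  rw [abs_mul, abs_pow]
  have hB : (1 : ℝ) ≤ 2 ^ (qM p + qR p * qM p) := one_le_pow₀ (by norm_num)
  calc |hatn p ((q : ℕ) % (qM p + 1)) y| * |lin (rr p q) y| ^ ee p q
      ≤ 1 * ((2 : ℝ) ^ (qM p + qR p * qM p)) ^ ee p q :=
        mul_le_mul h1 (pow_le_pow_left₀ (abs_nonneg _) h2 _) (by positivity) (by norm_num)
    _ ≤ ((2 : ℝ) ^ (qM p + qR p * qM p)) ^ (2 * qK p) := by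
        rw [one_mul]
        exact pow_le_pow_right₀ hB (ee_lt' p q).le
    _ = (2 : ℝ) ^ (2 * qK p * (qM p + qR p * qM p)) := by
        rw [← pow_mul, mul_comm]

theorem bnd2 (c : Fin (qG p) ⊕ Fin (qn p) → ℕ) (hc : ∀ i, c i < 2 ^ qL p)
    (x : Fin (qn p) → ℝ) (hx : x ∈ cube (qn p)) (y : Fin (qm p + 1) → ℝ)
    (hy : y ∈ cube (qm p + 1)) :
    |∑ q, ηη p * (c (.inl q) : ℝ) * pq p q y + ∑ i, ηη p * (c (.inr i) : ℝ) * x i| ≤
      δδ p / 4 := by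
  obtain ⟨W, hW⟩ : ∃ W, W = 2 * qK p * (qM p + qR p * qM p) := ⟨_, rfl⟩
  have hη : 0 < ηη p := by unfold ηη; positivity
  have hc' : ∀ i, (c i : ℝ) ≤ 2 ^ qL p := fun i => by exact_mod_cast (hc i).le
  have h1 : |∑ q, ηη p * (c (.inl q) : ℝ) * pq p q y| ≤
      qG p * (ηη p * 2 ^ qL p * 2 ^ W) := by
    refine (Finset.abs_sum_le_sum_abs _ _).trans ?_
    have h2 : ∀ q ∈ (Finset.univ : Finset (Fin (qG p))),
        |ηη p * (c (.inl q) : ℝ) * pq p q y| ≤ ηη p * 2 ^ qL p * 2 ^ W := by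
      intro q _
      rw [abs_mul, abs_mul, abs_of_pos hη, abs_of_nonneg (Nat.cast_nonneg _)]
      refine mul_le_mul (mul_le_mul_of_nonneg_left (hc' _) hη.le) ?_ (abs_nonneg _)
        (by positivity)
      rw [hW]
      exact abs_pq_le p q hy
    refine (Finset.sum_le_card_nsmul _ _ _ h2).trans ?_
    simp
  have h3 : |∑ i, ηη p * (c (.inr i) : ℝ) * x i| ≤ qn p * (ηη p * 2 ^ qL p * 2 ^ W) := by
    refine (Finset.abs_sum_le_sum_abs _ _).trans ?_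
    have h2 : ∀ i ∈ (Finset.univ : Finset (Fin (qn p))),
        |ηη p * (c (.inr i) : ℝ) * x i| ≤ ηη p * 2 ^ qL p * 2 ^ W := by
      intro i _
      rw [abs_mul, abs_mul, abs_of_pos hη, abs_of_nonneg (Nat.cast_nonneg _)]
      have h4 : |x i| ≤ (2 : ℝ) ^ W := (hx i).trans (one_le_pow₀ (by norm_num))
      exact mul_le_mul (mul_le_mul_of_nonneg_left (hc' _) hη.le) h4 (abs_nonneg _)
        (by positivity)
    refine (Finset.sum_le_card_nsmul _ _ _ h2).trans ?_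
    simp
  refine (abs_add_le _ _).trans ((add_le_add h1 h3).trans ?_)
  -- the final comparison
  have e1 : (qG p : ℝ) * (ηη p * 2 ^ qL p * 2 ^ W) + qn p * (ηη p * 2 ^ qL p * 2 ^ W) =
      ηη p * ((qG p + qn p : ℕ) : ℝ) * 2 ^ (qL p + W) := by
    push_cast
    rw [pow_add]; ring
  rw [e1]
  have e2 : ((qG p + qn p : ℕ) : ℝ) ≤ 2 ^ (qG p + qn p) := by
    exact_mod_cast (lt_two_pow' (qG p + qn p)).le
  have e3 : ηη p * ((qG p + qn p : ℕ) : ℝ) * 2 ^ (qL p + W) * 4 ≤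
      ηη p * 2 ^ (qG p + qn p + (qL p + W) + 2) := by
    rw [pow_add 2 _ 2, pow_add 2 _ (qL p + W)]
    have h5 : ηη p * ((qG p + qn p : ℕ) : ℝ) ≤ ηη p * 2 ^ (qG p + qn p) :=
      mul_le_mul_of_nonneg_left e2 hη.le
    have h6 : (0 : ℝ) ≤ 2 ^ (qL p + W) := by positivity
    nlinarith [mul_le_mul_of_nonneg_right h5 h6]
  have e4 : 2 ^ qC p + (qG p + qn p + (qL p + W) + 2) ≤ 2 ^ qE p := by
    have h7 : qE p = qC p + (qG p + qn p + (qL p + W) + 4) := by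
      rw [hW]; unfold qE; ring
    rw [h7, pow_add]
    have h8 := lt_two_pow' (qG p + qn p + (qL p + W) + 4)
    have h9 : 1 ≤ 2 ^ qC p := Nat.one_le_two_pow
    nlinarith
  have e5 : ηη p * 2 ^ (qG p + qn p + (qL p + W) + 2) ≤ δδ p := by
    unfold ηη δδ
    have h10 : (1 / 2 : ℝ) ^ 2 ^ qE p ≤
        (1 / 2) ^ (2 ^ qC p + (qG p + qn p + (qL p + W) + 2)) :=
      pow_le_pow_of_le_one (by norm_num) (by norm_num) e4
    calc (1 / 2 : ℝ) ^ 2 ^ qE p * 2 ^ (qG p + qn p + (qL p + W) + 2)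
        ≤ (1 / 2) ^ (2 ^ qC p + (qG p + qn p + (qL p + W) + 2)) *
          2 ^ (qG p + qn p + (qL p + W) + 2) :=
          mul_le_mul_of_nonneg_right h10 (by positivity)
      _ = (1 / 2) ^ 2 ^ qC p * ((1 / 2 * 2) ^ (qG p + qn p + (qL p + W) + 2)) := by
          rw [pow_add, mul_pow]; ring
      _ = (1 / 2) ^ 2 ^ qC p := by norm_num
  linarith

end Pool.Agent.NPC.H470Iso
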