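import Pool.Agent.R537.HD.Defs

/-!
# The problem: does a semialgebraic set have an isolated point?
-/

set_option autoImplicit false

namespace Pool.Agent.NPC.H470Iso

open Pool.Agent.NPC Pool.Agent.NPC.ER Pool.Agent.NPC.R537HD

/-- The set has an isolated point: a point `x` of the set such that some open ball `B(x, ε)` meets
the set only in `x`. -/
def HasIso {n : ℕ} (A : Set (EuclideanSpace ℝ (Fin n))) : Prop :=
  ∃ x ∈ A, ∃ ε : ℝ, 0 < ε ∧ ∀ y ∈ A, dist y x < ε → y = x

/-- The problem: the instance is the dimension `n` (written in unary, as a list of length `n`) and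
a quantifier-free formula; does the semialgebraic set in `ℝⁿ` given by the formula have an
isolated point? -/
def IsoPt (I : List Unit × Fm) : Prop := HasIso (semi I.1.length I.2)

end Pool.Agent.NPC.H470Iso
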