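import Pool.Agent.R537.HD.Mem
import Pool.Agent.Run7.h470.Iso.Prob

/-!
# Deciding whether a semialgebraic set has an isolated point belongs to `∃∀ℝ`

Piece MEM of the project of helper470 (MP_47d501_lc).
-/

set_option autoImplicit false

namespace Pool.Agent.NPC.H470Iso

open Pool.Agent.NPC Pool.Agent.NPC.ER Pool.Agent.NPC.H612 Pool.Agent.NPC.R537HD

/-- The square of the distance of `pnt 1` and `pnt 0`. -/
def isoD (n : ℕ) : Tm := sumT ((List.range n).map fun i =>
  sqT (subT (Tm.var (6 * i + 1)) (Tm.var (6 * i + 0))))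

theorem eval_isoD (n : ℕ) (v : ℕ → ℝ) :
    (isoD n).eval v = dist (pnt n 1 v) (pnt n 0 v) ^ 2 := by
  rw [dist_eq_norm, EuclideanSpace.norm_sq_eq, isoD, eval_sumT, List.map_map]
  have h : (Tm.eval v ∘ fun i => sqT (subT (Tm.var (6 * i + 1)) (Tm.var (6 * i + 0)))) =
      fun i => (v (6 * i + 1) - v (6 * i + 0)) ^ 2 := by
    funext i
    simp [Tm.eval]
  rw [h]
  have h2 : ∀ k : ℕ, ((List.range k).map
      fun i => (v (6 * i + 1) - v (6 * i + 0)) ^ 2).sum =
      ∑ i ∈ Finset.range k, (v (6 * i + 1) - v (6 * i + 0)) ^ 2 := by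
    intro k
    induction k with
    | zero => simp
    | succ k ih => rw [List.range_succ, Finset.sum_range_succ, ← ih]; simp
  rw [h2, ← Fin.sum_univ_eq_sum_range
    (fun i => (v (6 * i + 1) - v (6 * i + 0)) ^ 2)]
  refine Finset.sum_congr rfl fun j _ => ?_
  rw [Real.norm_eq_abs, sq_abs]
  rfl

/-- The formula of an instance. -/
def isoF (I : List Unit × Fm) : Fm :=
  Fm.and (Fm.lt Tm.zero (Tm.var 5)) (Fm.and (renF I.1.length 0 I.2)
    (impF (Fm.and (renF I.1.length 1 I.2) (Fm.lt (isoD I.1.length) (Tm.var 5)))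
      (Fm.le (isoD I.1.length) Tm.zero)))

theorem holds_isoF (I : List Unit × Fm) (v : ℕ → ℝ) : (isoF I).Holds v ↔
    0 < v 5 ∧ pnt I.1.length 0 v ∈ semi I.1.length I.2 ∧
      (pnt I.1.length 1 v ∈ semi I.1.length I.2 →
        dist (pnt I.1.length 1 v) (pnt I.1.length 0 v) ^ 2 < v 5 →
          pnt I.1.length 1 v = pnt I.1.length 0 v) := by
  unfold isoF
  simp only [Fm.Holds, holds_impF, holds_renF, Tm.eval, eval_isoD]
  have h : dist (pnt I.1.length 1 v) (pnt I.1.length 0 v) ^ 2 ≤ 0 ↔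
      pnt I.1.length 1 v = pnt I.1.length 0 v := by
    rw [← dist_eq_zero]
    constructor
    · intro h
      exact pow_eq_zero_iff (two_ne_zero) |>.1 (le_antisymm h (sq_nonneg _))
    · intro h
      rw [h]; norm_num
  rw [h]
  tauto

/-- The sentence of an instance. -/
def isoS (I : List Unit × Fm) : List ℕ × Fm :=
  (5 :: (List.range I.1.length).map (fun i => 6 * i), isoF I)

theorem iso_iff_ear (I : List Unit × Fm) : IsoPt I ↔ EAR (isoS I) := by
  classical
  obtain ⟨u, φ⟩ := I
  unfold IsoPt HasIso EAR isoS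
  simp only [holds_isoF]
  generalize u.length = n
  set E := 5 :: (List.range n).map (fun i => 6 * i) with hE
  have mem0 : ∀ j < n, 6 * j + 0 ∈ E := by
    intro j hj
    rw [hE]
    refine List.mem_cons_of_mem _ (List.mem_map.2 ⟨j, List.mem_range.2 hj, rfl⟩)
  have mem1 : ∀ j, 6 * j + 1 ∉ E := by
    intro j hj
    rw [hE, List.mem_cons] at hj
    rcases hj with h | h
    · omega
    · obtain ⟨i, -, h⟩ := List.mem_map.1 h
      omega
  have v0 : ∀ x y : ℕ → ℝ, pnt n 0 (mixv E x y) = pnt n 0 x := by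
    intro x y
    refine pnt_congr fun j hj => ?_
    unfold mixv
    rw [if_pos (mem0 j hj)]
  have v1 : ∀ x y : ℕ → ℝ, pnt n 1 (mixv E x y) = pnt n 1 y := by
    intro x y
    refine pnt_congr fun j hj => ?_
    unfold mixv
    rw [if_neg (mem1 j)]
  have v5 : ∀ x y : ℕ → ℝ, mixv E x y 5 = x 5 := by
    intro x y
    unfold mixv
    rw [if_pos (by rw [hE]; exact List.mem_cons_self)]
  simp only [v0, v1, v5]
  have hpnt : ∀ (a : EuclideanSpace ℝ (Fin n)) (c : ℕ) (r : ℝ), c < 5 →
      pnt n c (fun k => if k = 5 then r else asg a (k / 6)) = a := by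
    intro a c r hc
    ext j
    have e : (6 * (j : ℕ) + c) / 6 = j := by omega
    change (if 6 * (j : ℕ) + c = 5 then r else asg a ((6 * (j : ℕ) + c) / 6)) = a j
    rw [if_neg (by omega), e, asg, dif_pos j.2]
  constructor
  · rintro ⟨x, hx, ε, hε, h⟩
    refine ⟨fun k => if k = 5 then ε ^ 2 else asg x (k / 6), fun y => ?_⟩
    rw [hpnt x 0 _ (by norm_num)]
    beta_reduce
    rw [if_pos rfl]
    refine ⟨by positivity, hx, fun h1 h2 => h _ h1 ?_⟩
    exact lt_of_pow_lt_pow_left₀ 2 hε.le h2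
  · rintro ⟨x, hx⟩
    have h0 := hx 0
    refine ⟨pnt n 0 x, h0.2.1, Real.sqrt (x 5), Real.sqrt_pos.2 h0.1, fun q hq hd => ?_⟩
    obtain ⟨-, -, h1⟩ := hx (fun k => if k = 5 then 0 else asg q (k / 6))
    rw [hpnt q 1 _ (by norm_num)] at h1
    refine h1 hq ?_
    have h2 := pow_lt_pow_left₀ hd dist_nonneg two_ne_zero
    rwa [Real.sq_sqrt h0.1.le] at h2

section

variable {α : Type} [TEnc α]

theorem poly_isoD {n : α → ℕ} (hn : UPoly n) : Poly (fun a => isoD (n a)) := by
  refine poly_sumT (Poly.map (F := fun _ i => sqT (subT (Tm.var (6 * i + 1))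
    (Tm.var (6 * i + 0)))) hn.range ?_)
  have hi : Poly (fun q : α × ℕ => 6 * q.2) := Poly.mul (Poly.const 6) (Poly.snd Poly.id)
  exact poly_sqT (poly_subT (poly_tvar (Poly.add hi (Poly.const _)))
    (poly_tvar (Poly.add hi (Poly.const _))))

end

theorem poly_isoF : Poly isoF := by
  have hI : Poly (fun I : List Unit × Fm => I) := Poly.id
  have hn : UPoly (fun I : List Unit × Fm => I.1.length) := UPoly.length (Poly.fst hI)
  have hφ : Poly (fun I : List Unit × Fm => I.2) := Poly.snd hI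
  refine poly_fand (Poly.const _) (poly_fand (poly_renF 0 hn.toPoly hφ) (poly_impF
    (poly_fand (poly_renF 1 hn.toPoly hφ) (poly_flt (poly_isoD hn) (Poly.const _)))
    (poly_fle (poly_isoD hn) (Poly.const _))))

theorem poly_isoS : Poly isoS := by
  have hI : Poly (fun I : List Unit × Fm => I) := Poly.id
  have hn : UPoly (fun I : List Unit × Fm => I.1.length) := UPoly.length (Poly.fst hI)
  have hi : Poly (fun q : (List Unit × Fm) × ℕ => 6 * q.2) :=
    Poly.mul (Poly.const 6) (Poly.snd Poly.id)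
  exact Poly.pair (Poly.cons (Poly.const _) (Poly.map (F := fun _ i => 6 * i) hn.range hi))
    poly_isoF

/-- Deciding whether a semialgebraic set has an isolated point belongs to `∃∀ℝ`. -/
theorem iso_mem : InEAR (lang IsoPt) := InEAR.of_poly poly_isoS iso_iff_ear

end Pool.Agent.NPC.H470Iso
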