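import Pool.Agent.Run7.h470.Iso.Sem3
import Pool.Agent.Run7.h470.Iso.Mem

/-!
# An isolated point makes the sentence true
-/

set_option autoImplicit false

namespace Pool.Agent.NPC.H470Iso

open Pool.Agent.NPC Pool.Agent.NPC.ER Pool.Agent.NPC.H612 Pool.Agent.NPC.R537HD
open Pool.Agent.R537.RN (pick qsum cerr cube pick_scale qsum_scale)
open Run7.h470.Iso (kA kB kC lin gV gF gX gY gYU dqsum dcerr Wit pf pfx pfy GG Sent2 normal_bwd)

section

variable {p : List ℕ × Fm} {v : ℕ → ℝ}

theorem cpt_ge {σ : ℝ} {y : Fin (qm p + 1) → ℝ} {i : ℕ} (hi : tot p ≤ i) :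
    cpt p v σ y i = 0 := by
  unfold cpt
  have h1 : o8 p + (1 + (qM p + (qκ p + 1))) = tot p := by unfold tot o10 o9; ring
  have h2 : qM p = qm p + 1 := rfl
  rw [if_neg (by omega), if_neg (by unfold o9; omega), dif_neg (by unfold o9; omega),
    if_neg (by omega)]

theorem cpt_cont (y : Fin (qm p + 1) → ℝ) (i : ℕ) : Continuous fun σ => cpt p v σ y i := by
  unfold cpt
  split_ifs
  · exact continuous_const
  · exact continuous_id
  · exact continuous_id.mul continuous_const
  · exact continuous_id.mul continuous_const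
  · exact continuous_const

theorem tot_eq : tot p = o8 p + (1 + (qM p + (qκ p + 1))) := by unfold tot o10 o9; ring

/-- At the apex. -/
theorem eq_cpt_apex (h : ∀ i < 1 + (qM p + (qκ p + 1)), v (o8 p + i) = 0)
    (y : Fin (qm p + 1) → ℝ) {i : ℕ} (hi : i < tot p) : v i = cpt p v 0 y i := by
  by_cases h1 : i < o8 p
  · rw [cpt_lt h1]
  · have h2 := h (i - o8 p) (by rw [tot_eq] at hi; omega)
    rw [show o8 p + (i - o8 p) = i by omega] at h2
    rw [h2]
    unfold cpt
    rw [if_neg h1]
    split_ifs <;> simp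

/-- Off the apex. -/
theorem eq_cpt_cone (h : ConeP p v) {i : ℕ} (hi : i < tot p) :
    v i = cpt p v (v (o8 p)) (fun i => v (o9 p + i) / v (o8 p)) i := by
  have hσ := h.pos
  by_cases h1 : i < o8 p
  · rw [cpt_lt h1]
  by_cases h2 : i < o9 p
  · have : i = o8 p := by unfold o9 at h2; omega
    rw [this, cpt_σ]
  by_cases h3 : i - o9 p < qm p + 1
  · have h4 := cpt_y (p := p) (v := v) (σ := v (o8 p)) (y := fun i => v (o9 p + i) / v (o8 p))
      ⟨i - o9 p, h3⟩
    simp only at h4
    rw [show o9 p + (i - o9 p) = i by omega] at h4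
    rw [h4]
    field_simp
  · have h5 : i = o10 p + (i - o10 p) := by
      have : qM p = qm p + 1 := rfl
      unfold o10; omega
    have h6 : i - o10 p ≤ qκ p := by unfold tot at hi; omega
    have h7 := cpt_u (p := p) (v := v) (σ := v (o8 p)) (y := fun i => v (o9 p + i) / v (o8 p)) h6
    rw [← h5] at h7
    rw [h7]
    have h8 := h.u _ h6
    rw [← h5] at h8
    rw [h8]
    simp

/-- The point of the space. -/
noncomputable def qpt (p : List ℕ × Fm) (v : ℕ → ℝ) (σ : ℝ) (y : Fin (qm p + 1) → ℝ) :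
    EuclideanSpace ℝ (Fin (tot p)) := WithLp.toLp 2 fun i => cpt p v σ y i

theorem asg_qpt (σ : ℝ) (y : Fin (qm p + 1) → ℝ) : asg (qpt p v σ y) = cpt p v σ y := by
  funext i
  unfold asg
  split_ifs with h
  · rfl
  · exact (cpt_ge (not_lt.1 h)).symm

theorem continuous_qpt (y : Fin (qm p + 1) → ℝ) : Continuous fun σ => qpt p v σ y := by
  refine (PiLp.continuous_toLp 2 _).comp ?_
  exact continuous_pi fun i => cpt_cont y i

/-- There is no isolated point if the function is not positive. -/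
theorem not_iso {n : ℕ} (hn : n = tot p) (x : EuclideanSpace ℝ (Fin n)) {σ : ℝ} (hσ : 0 ≤ σ)
    (hb : BaseP p (asg x)) {y : Fin (qm p + 1) → ℝ} (hy : y ∈ cube (qm p + 1))
    (hg : gf (p := p) (xf p (asg x)) y ≤ 0) (hx : ∀ i < tot p, asg x i = cpt p (asg x) σ y i)
    {ε : ℝ} (hε : 0 < ε)
    (hiso : ∀ z : EuclideanSpace ℝ (Fin n), (Fm.and (baF p) (coF p)).Holds (asg z) →
      dist z x < ε → z = x) : False := by
  subst hn
  have hx' : qpt p (asg x) σ y = x := by
    ext i
    have h1 := hx i i.2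
    change cpt p (asg x) σ y i = x i
    rw [← h1]
    unfold asg
    rw [dif_pos i.2]
  have hc := (continuous_qpt (p := p) (v := asg x) y).continuousAt (x := σ)
  rw [Metric.continuousAt_iff] at hc
  obtain ⟨τ, hτ, hc⟩ := hc ε hε
  have h1 := hc (x := σ + τ / 2) (by
    rw [Real.dist_eq, add_sub_cancel_left, abs_of_pos (by positivity)]
    linarith)
  rw [hx'] at h1
  have h2 := hiso (qpt p (asg x) (σ + τ / 2) y) (by
    rw [asg_qpt]
    refine ⟨(holds_baF p _).2 (cpt_base hb _ _), (holds_coF p _).2 (Or.inr ?_)⟩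
    exact cpt_cone hb (by positivity) hy hg) h1
  have h3 : asg (qpt p (asg x) (σ + τ / 2) y) (o8 p) = asg (qpt p (asg x) σ y) (o8 p) := by
    rw [hx', h2]
  rw [asg_qpt, asg_qpt, cpt_σ, cpt_σ] at h3
  linarith

theorem sent_of_iso (h : IsoPt (hinst p)) : Sent2 (locq p) (qS p) := by
  obtain ⟨x, hx, ε, hε, hiso⟩ := h
  obtain ⟨hb, hc⟩ := hx
  rw [holds_baF] at hb
  rw [holds_coF] at hc
  have hpos : ∀ y ∈ cube (qm p + 1), 0 < gf (p := p) (xf p (asg x)) y := by
    rcases hc with hc | hc
    · intro y hy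
      by_contra hcon
      exact not_iso (p := p) (by simp [hinst]) x (le_refl (0 : ℝ)) hb hy (not_lt.1 hcon)
        (fun i hi => eq_cpt_apex hc y hi) hε hiso
    · exfalso
      obtain ⟨y, hy, hyg⟩ : ∃ y ∈ cube (qm p + 1), gf (p := p) (xf p (asg x)) y ≤ 0 ∧
          y = fun i : Fin (qm p + 1) => asg x (o9 p + i) / asg x (o8 p) := by
        refine ⟨fun i : Fin (qm p + 1) => asg x (o9 p + i) / asg x (o8 p), ?_, ?_, rfl⟩
        · intro i
          have h1 := hc.y i i.2
          rw [abs_div, abs_of_pos hc.pos, div_le_one hc.pos]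
          exact abs_le_of_sq_le_sq h1 hc.pos.le
        · have h1 := cone_val hb hc.pos (fun i => asg x (o9 p + i) / asg x (o8 p))
            (fun i => by have := hc.pos; field_simp) (by simpa using hc.u _ le_rfl)
          have h2 := hc.val
          rw [h1] at h2
          have h3 : 0 < asg x (o8 p) ^ 8 := pow_pos hc.pos 8
          exact nonpos_of_mul_nonpos_right h2 h3
      obtain ⟨hyg, rfl⟩ := hyg
      exact not_iso (p := p) (by simp [hinst]) x hc.pos.le hb hy hyg
        (fun i hi => eq_cpt_cone hc hi) hε hiso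
  refine normal_bwd (locq p) (qS p) (xf p (asg x)) ?_ ?_
  · intro i
    have h1 := hb.xb i i.2
    rw [← sq_abs] at h1
    have h2 : |xf p (asg x) i| ^ 2 ≤ 1 := h1
    nlinarith [abs_nonneg (xf p (asg x) i)]
  · intro y hy
    have h1 := hpos y hy
    unfold gf gF at h1
    have h2 : δδ p = (1 / 2) ^ 2 ^ kC (qn p) (qm p) (qS p).length := rfl
    have h3 : NN p = 2 ^ 2 ^ kB (qn p) (qm p) (qS p).length := rfl
    rw [h2, h3] at h1
    have h4 : qκ p = kA (qm p) (qS p).length := rfl
    rw [h4] at h1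
    linarith

end

/-- The truth of the sentence. -/
theorem ear_iff_sent (p : List ℕ × Fm) : EAR p ↔ Sent2 (locq p) (qS p) := by
  obtain ⟨E, φ⟩ := p
  set p : List ℕ × Fm := (E, φ) with hp
  have hloc : ∀ (x : Fin (qn p) → ℝ) (z : Fin (qm p) → ℝ) (i : ℕ),
      pick (locq p) x Fin.elim0 z i =
        if h : i % 2 = 0 ∧ i / 2 ∈ E then x ⟨E.idxOf (i / 2), List.idxOf_lt_length_iff.2 h.2⟩
        else z ⟨(qv p).idxOf i, Nat.lt_succ_of_le List.idxOf_le_length⟩ := by
    intro x z i
    unfold pick locq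
    by_cases h1 : i % 2 = 0 ∧ i / 2 ∈ p.1
    · rw [dif_pos h1, dif_pos h1]
      rfl
    · rw [dif_neg h1, dif_neg h1]
      rfl
  rw [ear_iff_sys]
  constructor
  · rintro ⟨x, hx⟩
    refine ⟨fun j => x (E.get j), fun z hz => ?_⟩
    refine hx (pick (locq p) (fun j => x (E.get j)) Fin.elim0 z) ?_ hz
    intro i hi
    have e : 2 * i / 2 = i := by omega
    rw [hloc, dif_pos ⟨by omega, by rw [e]; exact hi⟩]
    congr 1
    simp only [List.get_eq_getElem, e]
    exact List.getElem_idxOf _
  · rintro ⟨x', hx'⟩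
    refine ⟨fun i => if h : i ∈ E then x' ⟨E.idxOf i, List.idxOf_lt_length_iff.2 h⟩ else 0,
      fun v hv hs => ?_⟩
    refine hx' (fun j => v ((qv p).getD j 0)) fun c hc => ?_
    refine (Con.holds_congr fun i hi => ?_).2 (hs c hc)
    have him : i ∈ qv p := List.mem_flatMap.2 ⟨c, hc, hi⟩
    rw [hloc]
    split_ifs with h1
    · have h3 : i = 2 * (i / 2) := by omega
      conv_rhs => rw [h3, hv (i / 2) h1.2]
      beta_reduce
      split_ifs with h5
      · rfl
      · exact absurd h1.2 h5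
    · have h3 : (qv p).getD ((qv p).idxOf i) 0 = i := by
        rw [List.getD_eq_getElem _ _ (List.idxOf_lt_length_iff.2 him)]
        exact List.getElem_idxOf _
      simp only
      rw [h3]

/-- If the instance is positive, then the sentence is true. -/
theorem ear_of_iso {p : List ℕ × Fm} (h : IsoPt (hinst p)) : EAR p :=
  (ear_iff_sent p).2 (sent_of_iso h)

end Pool.Agent.NPC.H470Iso
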