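import Pool.Agent.Run7.h470.Iso.Poly

/-!
# The counting lemma
-/

set_option autoImplicit false

namespace Run7.h470.Iso

open Finset

/-- The degree in the counting lemma. -/
def DD (A d : ℕ) : ℕ := ((A + 1) * d + 1) ^ A

theorem count_lt (A d : ℕ) : ((A + 1) * (DD A d * d) + 1) ^ A < (DD A d + 1) ^ (A + 1) := by
  have h1 : (A + 1) * (DD A d * d) + 1 ≤ ((A + 1) * d + 1) * (DD A d + 1) := by nlinarith
  calc ((A + 1) * (DD A d * d) + 1) ^ A ≤ (((A + 1) * d + 1) * (DD A d + 1)) ^ A :=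
        Nat.pow_le_pow_left h1 A
    _ = DD A d * (DD A d + 1) ^ A := by rw [mul_pow, DD]
    _ < (DD A d + 1) * (DD A d + 1) ^ A :=
        Nat.mul_lt_mul_of_pos_right (Nat.lt_succ_self _) (by positivity)
    _ = (DD A d + 1) ^ (A + 1) := by ring

/-- **The counting lemma.** If `z` and the coordinates of `c` are rational functions with a common
denominator, then for all `c₀` outside a hypersurface of controlled degree `z` takes finitely many
values at the points with `c = c₀`. -/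
theorem counting {ι : Type} [Fintype ι] (d : ℕ) (den nz : (ι → ℝ) → ℝ)
    (nc : ι → (ι → ℝ) → ℝ) (hden : PolyLE d den) (hz : PolyLE d nz)
    (hc : ∀ i, PolyLE d (nc i)) :
    ∃ Q : MvPolynomial ι ℝ, Q ≠ 0 ∧ (∀ i, Q.degreeOf i ≤ DD (Fintype.card ι) d) ∧
      ∀ c0, MvPolynomial.eval c0 Q ≠ 0 →
        {w | ∃ u, den u ≠ 0 ∧ (∀ i, nc i u = den u * c0 i) ∧ nz u = den u * w}.Finite := by
  classical
  obtain ⟨A, hA⟩ : ∃ A, A = Fintype.card ι := ⟨_, rfl⟩
  obtain ⟨D, hD⟩ : ∃ D, D = DD A d := ⟨_, rfl⟩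
  obtain ⟨M, hM⟩ : ∃ M, M = (A + 1) * (D * d) := ⟨_, rfl⟩
  -- the functions
  obtain ⟨W, hW⟩ : ∃ W : Option ι → (ι → ℝ) → ℝ, W = fun o => o.elim nz nc := ⟨_, rfl⟩
  have hWp : ∀ o, PolyLE d (W o) := by
    rintro (_ | i)
    · rw [hW]; exact hz
    · rw [hW]; exact hc i
  obtain ⟨N, hN⟩ : ∃ N : (Option ι → Fin (D + 1)) → (ι → ℝ) → ℝ, N = fun e u =>
      ∏ o, (W o u ^ (e o : ℕ) * den u ^ (D - (e o : ℕ))) := ⟨_, rfl⟩
  have hNp : ∀ e, PolyLE M (N e) := by
    intro e
    rw [hN]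
    have h1 : PolyLE (∑ o : Option ι, D * d)
        (fun u => ∏ o, (W o u ^ (e o : ℕ) * den u ^ (D - (e o : ℕ)))) := by
      refine PolyLE.prod (s := (univ : Finset (Option ι))) (d := fun _ => D * d) fun o _ => ?_
      refine (((hWp o).pow _).mul (hden.pow _)).mono ?_
      rw [← Nat.add_mul, Nat.add_sub_cancel' (Nat.lt_succ_iff.1 (e o).2)]
    refine h1.mono ?_
    simp [hM, hA]
  have hNe : ∀ e u (V : Option ι → ℝ), (∀ o, W o u = den u * V o) →
      N e u = den u ^ ((A + 1) * D) * ∏ o, V o ^ (e o : ℕ) := by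
    intro e u V hV
    have h1 : ∏ o : Option ι, den u ^ D = den u ^ ((A + 1) * D) := by
      rw [Finset.prod_const, ← pow_mul, Finset.card_univ, Fintype.card_option, hA, mul_comm]
    rw [hN, ← h1, ← Finset.prod_mul_distrib]
    refine Finset.prod_congr rfl fun o _ => ?_
    rw [hV, mul_pow]
    have h2 : den u ^ D = den u ^ (e o : ℕ) * den u ^ (D - (e o : ℕ)) := by
      rw [← pow_add, Nat.add_sub_cancel' (Nat.lt_succ_iff.1 (e o).2)]
    rw [h2]; ring
  -- a linear relation on the grid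
  obtain ⟨T, hT⟩ : ∃ T : ((Option ι → Fin (D + 1)) → ℝ) →ₗ[ℝ] ((ι → Fin (M + 1)) → ℝ),
      ∀ R g, T R g = ∑ e, R e * N e (fun i => ((g i : ℕ) : ℝ)) := by
    refine ⟨{ toFun := fun R g => ∑ e, R e * N e (fun i => ((g i : ℕ) : ℝ))
              map_add' := ?_
              map_smul' := ?_ }, fun R g => rfl⟩
    · intro R R'
      funext g
      simp [add_mul, Finset.sum_add_distrib]
    · intro a R
      funext g
      simp [mul_assoc, Finset.mul_sum]
  have hker : LinearMap.ker T ≠ ⊥ := by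
    refine LinearMap.ker_ne_bot_of_finrank_lt ?_
    rw [Module.finrank_fintype_fun_eq_card, Module.finrank_fintype_fun_eq_card,
      Fintype.card_fun, Fintype.card_fun, Fintype.card_option, Fintype.card_fin,
      Fintype.card_fin, ← hA, hM, hD]
    exact count_lt A d
  obtain ⟨R, hR, hR0⟩ := Submodule.exists_mem_ne_zero_of_ne_bot hker
  have hrel : ∀ u, ∑ e, R e * N e u = 0 := by
    refine PolyLE.eq_zero (d := M) ?_ ?_
    · exact PolyLE.sum fun e _ => ((PolyLE.const (R e)).mul (hNp e)).mono (by simp)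
    · intro g
      rw [← hT]
      rw [LinearMap.mem_ker] at hR
      rw [hR]
      rfl
  obtain ⟨e1, he1⟩ : ∃ e, R e ≠ 0 := by
    by_contra hcon
    push Not at hcon
    exact hR0 (funext hcon)
  -- split the exponent
  obtain ⟨sp, hsp⟩ : ∃ sp : (Option ι → Fin (D + 1)) ≃ Fin (D + 1) × (ι → Fin (D + 1)),
      sp = Equiv.piOptionEquivProd := ⟨_, rfl⟩
  have hsp1 : ∀ a b, (sp.symm (a, b)) none = a := by intro a b; rw [hsp]; rfl
  have hsp2 : ∀ a b i, (sp.symm (a, b)) (some i) = b i := by intro a b i; rw [hsp]; rfl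
  obtain ⟨s, hs⟩ : ∃ s, s = (sp e1).1 := ⟨_, rfl⟩
  -- the coefficients
  obtain ⟨q, hq⟩ : ∃ q : Fin (D + 1) → MvPolynomial ι ℝ, q = fun a =>
      ∑ b : ι → Fin (D + 1), MvPolynomial.monomial
        (Finsupp.equivFunOnFinite.symm fun i => ((b i : Fin (D + 1)) : ℕ)) (R (sp.symm (a, b))) :=
    ⟨_, rfl⟩
  have hqe : ∀ a c0, MvPolynomial.eval c0 (q a) =
      ∑ b : ι → Fin (D + 1), R (sp.symm (a, b)) * ∏ i, c0 i ^ ((b i : Fin (D + 1)) : ℕ) := by
    intro a c0
    rw [hq, map_sum]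
    refine Finset.sum_congr rfl fun b _ => ?_
    rw [MvPolynomial.eval_monomial, Finsupp.prod_fintype _ _ (fun i => pow_zero _)]
    rfl
  have hinj : Function.Injective (fun b : ι → Fin (D + 1) =>
      (Finsupp.equivFunOnFinite.symm fun i => ((b i : Fin (D + 1)) : ℕ) : ι →₀ ℕ)) := by
    intro b b' h
    have h1 := Finsupp.equivFunOnFinite.symm.injective h
    funext i
    exact Fin.ext (congrFun h1 i)
  have hqc : ∀ a b, (q a).coeff (Finsupp.equivFunOnFinite.symm fun i =>
      ((b i : Fin (D + 1)) : ℕ)) = R (sp.symm (a, b)) := by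
    intro a b
    rw [hq, MvPolynomial.coeff_sum]
    rw [Finset.sum_eq_single b]
    · rw [MvPolynomial.coeff_monomial, if_pos rfl]
    · intro b' _ hb'
      rw [MvPolynomial.coeff_monomial, if_neg fun h => hb' (hinj h)]
    · intro h; exact absurd (mem_univ b) h
  refine ⟨q s, ?_, ?_, ?_⟩
  · intro h0
    have h1 := hqc s (sp e1).2
    rw [h0, MvPolynomial.coeff_zero, hs] at h1
    have h2 : sp.symm ((sp e1).1, (sp e1).2) = e1 := by
      rw [Prod.mk.eta, Equiv.symm_apply_apply]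
    rw [h2] at h1
    exact he1 h1.symm
  · intro i
    rw [← hA, ← hD, MvPolynomial.degreeOf_le_iff]
    intro m hm
    rw [hq] at hm
    have h1 := MvPolynomial.support_sum hm
    rw [Finset.mem_biUnion] at h1
    obtain ⟨b, _, hb⟩ := h1
    have h2 := MvPolynomial.support_monomial_subset hb
    rw [Finset.mem_singleton] at h2
    rw [h2]
    exact Nat.lt_succ_iff.1 (b i).2
  · intro c0 hc0
    -- the polynomial of `z`
    obtain ⟨P, hP⟩ : ∃ P : Polynomial ℝ, P = ∑ a : Fin (D + 1),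
        Polynomial.monomial (a : ℕ) (MvPolynomial.eval c0 (q a)) := ⟨_, rfl⟩
    have hPc : P.coeff (s : ℕ) = MvPolynomial.eval c0 (q s) := by
      rw [hP, Polynomial.finsetSum_coeff, Finset.sum_eq_single s]
      · rw [Polynomial.coeff_monomial, if_pos rfl]
      · intro b _ hb
        rw [Polynomial.coeff_monomial, if_neg fun h => hb (Fin.ext h)]
      · intro h; exact absurd (mem_univ s) h
    have hP0 : P ≠ 0 := by
      intro h
      rw [h, Polynomial.coeff_zero] at hPc
      exact hc0 hPc.symm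
    refine (P.roots.toFinset.finite_toSet).subset ?_
    rintro w ⟨u, hu, hcu, hzu⟩
    rw [Finset.mem_coe, Multiset.mem_toFinset, Polynomial.mem_roots hP0, Polynomial.IsRoot.def]
    have h1 := hrel u
    obtain ⟨V, hV⟩ : ∃ V : Option ι → ℝ, V = fun o => o.elim w c0 := ⟨_, rfl⟩
    have hWV : ∀ o, W o u = den u * V o := by
      rintro (_ | i)
      · rw [hW, hV]; exact hzu
      · rw [hW, hV]; exact hcu i
    simp only [fun e => hNe e u V hWV] at h1
    have h2 : ∑ e, R e * ∏ o, V o ^ (e o : ℕ) = 0 := by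
      have h3 : den u ^ ((A + 1) * D) * ∑ e, R e * ∏ o, V o ^ (e o : ℕ) = 0 := by
        rw [← h1, Finset.mul_sum]
        exact Finset.sum_congr rfl fun e _ => by ring
      exact (mul_eq_zero.1 h3).resolve_left (pow_ne_zero _ hu)
    rw [hP, Polynomial.eval_finsetSum]
    rw [← h2, ← sp.symm.sum_comp, Fintype.sum_prod_type]
    refine Finset.sum_congr rfl fun a _ => ?_
    rw [Polynomial.eval_monomial, hqe, Finset.sum_mul]
    refine Finset.sum_congr rfl fun b _ => ?_
    rw [Fintype.prod_option, hsp1]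
    have h4 : ∏ i, V (some i) ^ ((sp.symm (a, b)) (some i) : ℕ) =
        ∏ i, c0 i ^ ((b i : Fin (D + 1)) : ℕ) := by
      refine Finset.prod_congr rfl fun i _ => ?_
      rw [hsp2, hV]
      rfl
    rw [h4]
    have h5 : V none = w := by rw [hV]; rfl
    rw [h5]
    ring

end Run7.h470.Iso
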