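import Pool.Agent.R537.RN.Block

/-!
# Isolated points: the semantic core (definitions)
-/

set_option autoImplicit false

namespace Run7.h470.Iso

open Pool.Agent.R537.RN

/-- `F` is the function of a real polynomial of total degree at most `d`. -/
def PolyLE {ι : Type*} (d : ℕ) (F : (ι → ℝ) → ℝ) : Prop :=
  ∃ p : MvPolynomial ι ℝ, p.totalDegree ≤ d ∧ ∀ u, F u = MvPolynomial.eval u p

/-- The conditions on a witness: the points `y j` are distinct, the `l j` sum up to `1`, the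
function `f` has the value `t` at all the points `(x, y j)`, in the direction of each variable
`y i` the point `y j` is critical or on the boundary of the cube, and in the direction of each
variable `x i` the same holds for the combination of the functions `f (·, y j)`. -/
structure Wit {n M k : ℕ} (f : (Fin n → ℝ) → (Fin M → ℝ) → ℝ)
    (fx : Fin n → (Fin n → ℝ) → (Fin M → ℝ) → ℝ) (fy : Fin M → (Fin n → ℝ) → (Fin M → ℝ) → ℝ)
    (x : Fin n → ℝ) (t : ℝ) (l : Fin k → ℝ) (y : Fin k → Fin M → ℝ) : Prop where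
  inj : Function.Injective y
  sum : ∑ j, l j = 1
  val : ∀ j, f x (y j) = t
  dy : ∀ j i, y j i = 1 ∨ y j i = -1 ∨ fy i x (y j) = 0
  dx : ∀ i, x i = 1 ∨ x i = -1 ∨ ∑ j, l j * fx i x (y j) = 0

/-- The perturbation of a function. -/
def pf {n M : ℕ} {Γ : Type} [Fintype Γ] (g : (Fin n → ℝ) → (Fin M → ℝ) → ℝ)
    (p : Γ → (Fin M → ℝ) → ℝ) (c : Γ ⊕ Fin n → ℝ) (x : Fin n → ℝ) (y : Fin M → ℝ) : ℝ :=
  g x y + ∑ γ, c (.inl γ) * p γ y + ∑ i, c (.inr i) * x i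

/-- The derivatives of the perturbation in the directions of `x`. -/
def pfx {n M : ℕ} {Γ : Type} (gx : Fin n → (Fin n → ℝ) → (Fin M → ℝ) → ℝ)
    (c : Γ ⊕ Fin n → ℝ) (i : Fin n) (x : Fin n → ℝ) (y : Fin M → ℝ) : ℝ :=
  gx i x y + c (.inr i)

/-- The derivatives of the perturbation in the directions of `y`. -/
def pfy {n M : ℕ} {Γ : Type} [Fintype Γ] (gy : Fin M → (Fin n → ℝ) → (Fin M → ℝ) → ℝ)
    (dp : Γ → Fin M → (Fin M → ℝ) → ℝ) (c : Γ ⊕ Fin n → ℝ) (i : Fin M) (x : Fin n → ℝ)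
    (y : Fin M → ℝ) : ℝ :=
  gy i x y + ∑ γ, c (.inl γ) * dp γ i y

/-- The jets of the functions `p γ` at any `k` distinct points can be prescribed. -/
def FullJets {M : ℕ} {Γ : Type} [Fintype Γ] (p : Γ → (Fin M → ℝ) → ℝ)
    (dp : Γ → Fin M → (Fin M → ℝ) → ℝ) (k : ℕ) : Prop :=
  ∀ y : Fin k → Fin M → ℝ, Function.Injective y → ∀ (v : Fin k → ℝ) (w : Fin k → Fin M → ℝ),
    ∃ c : Γ → ℝ, ∀ j, ∑ γ, c γ * p γ (y j) = v j ∧ ∀ i, ∑ γ, c γ * dp γ i (y j) = w j i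

/-- The index set of the perturbations. -/
abbrev Gam (M K R : ℕ) : Type := Fin R × Fin (2 * K) × Option (Fin M)

/-- The linear form `∑ rⁱ yᵢ`. -/
def lin {M : ℕ} (r : ℕ) (y : Fin M → ℝ) : ℝ := ∑ i : Fin M, (r : ℝ) ^ (i : ℕ) * y i

/-- `1` or a coordinate. -/
def hat {M : ℕ} (o : Option (Fin M)) (y : Fin M → ℝ) : ℝ := o.elim 1 y

/-- The derivative of `hat o`. -/
def dhat {M : ℕ} (o : Option (Fin M)) (i : Fin M) : ℝ := if o = some i then 1 else 0

/-- The perturbations. -/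
def pP {M K R : ℕ} (γ : Gam M K R) (y : Fin M → ℝ) : ℝ :=
  hat γ.2.2 y * lin γ.1 y ^ (γ.2.1 : ℕ)

/-- The derivatives of the perturbations. -/
def dP {M K R : ℕ} (γ : Gam M K R) (i : Fin M) (y : Fin M → ℝ) : ℝ :=
  dhat γ.2.2 i * lin γ.1 y ^ (γ.2.1 : ℕ) +
    hat γ.2.2 y * ((γ.2.1 : ℕ) * lin γ.1 y ^ ((γ.2.1 : ℕ) - 1) * ((γ.1 : ℕ) : ℝ) ^ (i : ℕ))

end Run7.h470.Iso
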