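import Pool.Agent.Run7.h470.Iso.Fun

/-!
# Degrees and continuity
-/

set_option autoImplicit false

namespace Run7.h470.Iso

open Finset Pool.Agent.R537.RN Pool.Agent.NPC

theorem PolyLE.continuous {ι : Type*} {d : ℕ} {F : (ι → ℝ) → ℝ} (h : PolyLE d F) :
    Continuous F := by
  obtain ⟨p, -, h2⟩ := h
  have : F = fun u => MvPolynomial.eval u p := funext h2
  rw [this]
  exact MvPolynomial.continuous_eval p

theorem PolyLE2.continuous {n M d : ℕ} {g : (Fin n → ℝ) → (Fin M → ℝ) → ℝ} (h : PolyLE2 d g) :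
    Continuous fun q : (Fin n → ℝ) × (Fin M → ℝ) => g q.1 q.2 := by
  have h1 : Continuous fun q : (Fin n → ℝ) × (Fin M → ℝ) =>
      (Sum.elim q.1 q.2 : Fin n ⊕ Fin M → ℝ) := by
    refine continuous_pi fun i => ?_
    rcases i with i | i
    · exact (continuous_apply i).comp continuous_fst
    · exact (continuous_apply i).comp continuous_snd
  exact PolyLE.continuous h |>.comp h1

section

variable {ι : Type} {V V' : ℕ → (ι → ℝ) → ℝ} {w w' : (ι → ℝ) → ℝ} {a : ℕ}

theorem deg_cerr (hV : ∀ p, PolyLE a (V p)) (hw : PolyLE a w) (c : ER.Con) :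
    PolyLE (a + a) fun u => cerr (fun p => V p u) (w u) c := by
  cases c with
  | one i => exact hw.mul ((hV i).sub hw)
  | add i j k => exact hw.mul (((hV i).add (hV j)).sub (hV k))
  | mul i j k => exact ((hV i).mul (hV j)).sub (hw.mul (hV k))

theorem deg_dcerr (hV : ∀ p, PolyLE a (V p)) (hV' : ∀ p, PolyLE a (V' p)) (hw : PolyLE a w)
    (hw' : PolyLE a w') (c : ER.Con) :
    PolyLE (a + a) fun u => dcerr (fun p => V p u) (fun p => V' p u) (w u) (w' u) c := by
  cases c with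
  | one i => exact (hw'.mul ((hV i).sub hw)).add (hw.mul ((hV' i).sub hw'))
  | add i j k =>
    exact (hw'.mul (((hV i).add (hV j)).sub (hV k))).add
      (hw.mul (((hV' i).add (hV' j)).sub (hV' k)))
  | mul i j k =>
    exact (((hV' i).mul (hV j)).add ((hV i).mul (hV' j))).sub
      ((hw'.mul (hV k)).add (hw.mul (hV' k)))

theorem deg_qsum (hV : ∀ p, PolyLE a (V p)) (hw : PolyLE a w) (S : List ER.Con) :
    PolyLE (4 * a) fun u => qsum (fun p => V p u) (w u) S := by
  induction S with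
  | nil => exact ((PolyLE.const 0).mono (Nat.zero_le _)).congr fun u => by simp
  | cons c S ih =>
    simp only [qsum_cons]
    exact (((deg_cerr hV hw c).pow 2).mono (by omega)).add ih

theorem deg_dqsum (hV : ∀ p, PolyLE a (V p)) (hV' : ∀ p, PolyLE a (V' p)) (hw : PolyLE a w)
    (hw' : PolyLE a w') (S : List ER.Con) :
    PolyLE (4 * a) fun u => dqsum (fun p => V p u) (fun p => V' p u) (w u) (w' u) S := by
  induction S with
  | nil => exact ((PolyLE.const 0).mono (Nat.zero_le _)).congr fun u => by simp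
  | cons c S ih =>
    simp only [dqsum_cons]
    exact ((((PolyLE.const 2).mul (deg_cerr hV hw c)).mul
      (deg_dcerr hV hV' hw hw' c)).mono (by omega)).add ih

end

section

variable {n m : ℕ} (loc : ℕ → Fin n ⊕ (Fin 0 ⊕ Fin m)) (S : List ER.Con)

theorem deg_pick {ι : Type} {a : ℕ} {X : Fin n → (ι → ℝ) → ℝ} {Z : Fin m → (ι → ℝ) → ℝ}
    (hX : ∀ i, PolyLE a (X i)) (hZ : ∀ i, PolyLE a (Z i)) (p : ℕ) :
    PolyLE a fun u => pick loc (fun j => X j u) Fin.elim0 (fun j => Z j u) p := by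
  unfold pick
  rcases loc p with j | j | j
  · exact hX j
  · exact j.elim0
  · exact hZ j

/-- The degree. -/
def dg (κ : ℕ) : ℕ := 2 ^ (κ + 1) + 12

theorem le_dg (κ : ℕ) : 0 + 4 * 3 ≤ dg κ := by
  rw [zero_add]
  exact Nat.le_add_left _ _

theorem deg_gV (N : ℝ) (p : ℕ) : PolyLE 3 fun w : Fin n ⊕ Fin (m + 1) → ℝ =>
    gV loc N (fun i => w (Sum.inl i)) (fun i => w (Sum.inr i)) p := by
  unfold gV
  refine deg_pick loc (a := 3) (X := fun j w => N * w (Sum.inr 0) ^ 2 * w (Sum.inl j))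
    (Z := fun j w => w (Sum.inr j.succ)) (fun j => ?_) (fun j => ?_) p
  · exact (((PolyLE.const N).mul ((PolyLE.coord _).pow 2)).mul (PolyLE.coord _)).mono (by omega)
  · exact (PolyLE.coord _).mono (by omega)

theorem deg_GG (N : ℝ) (κ : ℕ) : PolyLE2 (dg κ) (GG loc S N κ) := by
  have hw : PolyLE 3 fun w : Fin n ⊕ Fin (m + 1) → ℝ => w (Sum.inr 0) ^ 2 :=
    ((PolyLE.coord _).pow 2).mono (by omega)
  have h1 := deg_qsum (deg_gV loc N) hw S
  refine (((PolyLE.const N).mul h1).mono (le_dg κ)).sub (((((PolyLE.coord _).pow 2).pow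
    (2 ^ κ)).mono (d := 2 ^ κ * (2 * 1)) ?_))
  unfold dg; rw [pow_succ]; omega

theorem deg_gF (N : ℝ) (κ : ℕ) (δ : ℝ) : PolyLE2 (dg κ) (gF loc S N κ δ) :=
  (deg_GG loc S N κ).add ((PolyLE.const δ).mono (Nat.zero_le _))

theorem deg_gX (N : ℝ) (κ : ℕ) (i : Fin n) : PolyLE2 (dg κ) (gX (m := m) loc S N i) := by
  have hw : PolyLE 3 fun w : Fin n ⊕ Fin (m + 1) → ℝ => w (Sum.inr 0) ^ 2 :=
    ((PolyLE.coord _).pow 2).mono (by omega)
  have hV' : ∀ p, PolyLE 3 fun w : Fin n ⊕ Fin (m + 1) → ℝ =>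
      pick loc (fun j => if j = i then N * w (Sum.inr 0) ^ 2 else 0) Fin.elim0 (fun _ => 0) p := by
    intro p
    refine deg_pick loc (a := 3) (X := fun j w => if j = i then N * w (Sum.inr 0) ^ 2 else 0)
      (Z := fun _ _ => 0) (fun j => ?_) (fun j => (PolyLE.const 0).mono (by omega)) p
    split_ifs
    · exact ((PolyLE.const N).mul ((PolyLE.coord _).pow 2)).mono (by omega)
    · exact (PolyLE.const 0).mono (by omega)
  have h1 := deg_dqsum (deg_gV loc N) hV' hw ((PolyLE.const 0).mono (by omega)) S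
  exact ((PolyLE.const N).mul h1).mono (le_dg κ)

theorem deg_gY (N : ℝ) (κ : ℕ) (i : Fin (m + 1)) : PolyLE2 (dg κ) (gY loc S N κ i) := by
  have hw : PolyLE 3 fun w : Fin n ⊕ Fin (m + 1) → ℝ => w (Sum.inr 0) ^ 2 :=
    ((PolyLE.coord _).pow 2).mono (by omega)
  refine Fin.cases ?_ (fun k => ?_) i
  · have hV' : ∀ p, PolyLE 3 fun w : Fin n ⊕ Fin (m + 1) → ℝ =>
        pick loc (fun j => 2 * N * w (Sum.inr 0) * w (Sum.inl j)) Fin.elim0 (fun _ => 0) p := by
      intro p
      refine deg_pick loc (a := 3) (X := fun j w => 2 * N * w (Sum.inr 0) * w (Sum.inl j))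
        (Z := fun _ _ => 0) (fun j => ?_) (fun j => (PolyLE.const 0).mono (by omega)) p
      exact ((((PolyLE.const (2 * N))).mul (PolyLE.coord _)).mul (PolyLE.coord _)).mono (by omega)
    have h1 := deg_dqsum (deg_gV loc N) hV' hw
      (((PolyLE.const 2).mul (PolyLE.coord (Sum.inr 0))).mono (by omega)) S
    have h2 : PolyLE (dg κ) fun w : Fin n ⊕ Fin (m + 1) → ℝ =>
        2 ^ κ * (w (Sum.inr 0) ^ 2) ^ (2 ^ κ - 1) * (2 * w (Sum.inr 0)) := by
      refine (((PolyLE.const (2 ^ κ)).mul (((PolyLE.coord (Sum.inr 0)).pow 2).pow (2 ^ κ - 1))).mul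
        ((PolyLE.const 2).mul (PolyLE.coord (Sum.inr 0)))).mono ?_
      have : 1 ≤ 2 ^ κ := Nat.one_le_two_pow
      unfold dg
      rw [pow_succ]
      omega
    exact (((PolyLE.const N).mul h1).mono (le_dg κ)).sub h2
  · have hV' : ∀ p, PolyLE 3 fun w : Fin n ⊕ Fin (m + 1) → ℝ =>
        pick loc (fun _ => 0) Fin.elim0 (fun j => if j = k then 1 else 0) p := by
      intro p
      refine deg_pick loc (a := 3) (X := fun _ _ => 0)
        (Z := fun j _ => if j = k then 1 else 0) (fun j => (PolyLE.const 0).mono (by omega))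
        (fun j => (PolyLE.const _).mono (by omega)) p
    have h1 := deg_dqsum (deg_gV loc N) hV' hw ((PolyLE.const 0).mono (by omega)) S
    exact ((PolyLE.const N).mul h1).mono (le_dg κ)

end

end Run7.h470.Iso
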