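import Pool.Agent.Run7.h470.Iso.Param

/-!
# Finiteness of the set of witnesses for generic perturbations
-/

set_option autoImplicit false

namespace Run7.h470.Iso

open Finset

theorem degreeOf_prod_le' {σ κ : Type*} (s : Finset κ) (Q : κ → MvPolynomial σ ℝ) (i : σ)
    (D : ℕ) (h : ∀ a ∈ s, (Q a).degreeOf i ≤ D) : (∏ a ∈ s, Q a).degreeOf i ≤ s.card * D := by
  classical
  refine (MvPolynomial.degreeOf_prod_le i s Q).trans ?_
  rw [← smul_eq_mul]
  exact Finset.sum_le_card_nsmul _ _ _ h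

/-- The degree bound for one number of points. -/
def FB (n M k G d : ℕ) : ℕ :=
  (G ^ (k * (M + 1)) * (3 ^ n * (3 ^ M) ^ k)) * (n + (1 + (k + k * M))) *
    DD (G + n) (k * (M + 1) * d + (d + 2))

section

variable {n M k : ℕ} {Γ : Type} [Fintype Γ]
  {g : (Fin n → ℝ) → (Fin M → ℝ) → ℝ}
  {gx : Fin n → (Fin n → ℝ) → (Fin M → ℝ) → ℝ} {gy : Fin M → (Fin n → ℝ) → (Fin M → ℝ) → ℝ}
  {p : Γ → (Fin M → ℝ) → ℝ} {dp : Γ → Fin M → (Fin M → ℝ) → ℝ}

/-- The set of witnesses. -/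
def WitSet (k : ℕ) (f : (Fin n → ℝ) → (Fin M → ℝ) → ℝ)
    (fx : Fin n → (Fin n → ℝ) → (Fin M → ℝ) → ℝ) (fy : Fin M → (Fin n → ℝ) → (Fin M → ℝ) → ℝ) :
    Set (Co n M k → ℝ) :=
  {q | ∃ x t l y, Wit f fx fy x t l y ∧ q = coval x t l y}

theorem finite_k {d : ℕ} (hg : PolyLE2 d g) (hgx : ∀ i, PolyLE2 d (gx i))
    (hgy : ∀ i, PolyLE2 d (gy i)) (hp : ∀ γ, PolyLE d (p γ)) (hdp : ∀ γ i, PolyLE d (dp γ i))
    (hk : 0 < k) (hJ : FullJets p dp k) :
    ∃ Q : MvPolynomial (Γ ⊕ Fin n) ℝ, Q ≠ 0 ∧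
      (∀ i, Q.degreeOf i ≤ FB n M k (Fintype.card Γ) d) ∧
      ∀ c, MvPolynomial.eval c Q ≠ 0 → (WitSet k (pf g p c) (pfx gx c) (pfy gy dp c)).Finite := by
  classical
  obtain ⟨j0⟩ : Nonempty (Fin k) := ⟨⟨0, hk⟩⟩
  -- the coordinate functions
  have hco : ∀ (P : ((Row k M → Γ) × (Fin n → SignType) × (Fin k → Fin M → SignType)) ×
      Co n M k), ∃ Q : MvPolynomial (Γ ⊕ Fin n) ℝ, Q ≠ 0 ∧
      (∀ i, Q.degreeOf i ≤ DD (Fintype.card (Γ ⊕ Fin n))
        (Fintype.card (Row k M) * d + (d + 2))) ∧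
      ∀ c0, MvPolynomial.eval c0 Q ≠ 0 →
        {w | ∃ u, (qM p dp P.1.1 P.1.2.2 u).det ≠ 0 ∧
          (∀ i, qN g gx gy p dp j0 P.1.1 P.1.2.1 P.1.2.2 i u =
            (qM p dp P.1.1 P.1.2.2 u).det * c0 i) ∧
          (qM p dp P.1.1 P.1.2.2 u).det * coval (qX P.1.2.1 u) (qT j0 P.1.1 u) (qL j0 P.1.1 u)
            (qY P.1.1 P.1.2.2 u) P.2 = (qM p dp P.1.1 P.1.2.2 u).det * w}.Finite := by
    rintro ⟨⟨f, sx, sy⟩, co⟩
    refine counting (Fintype.card (Row k M) * d + (d + 2))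
      (fun u => (qM p dp f sy u).det)
      (fun u => (qM p dp f sy u).det * coval (qX sx u) (qT j0 f u) (qL j0 f u) (qY f sy u) co)
      (fun i u => qN g gx gy p dp j0 f sx sy i u) ?_ ?_ ?_
    · exact (PolyLE.det fun a b => deg_qM f sy hp hdp a b).mono (by omega)
    · refine ((PolyLE.det fun a b => deg_qM f sy hp hdp a b).mul (e := 1) ?_).mono (by omega)
      rcases co with i | _ | j | ⟨j, i⟩
      · exact deg_qX sx i
      · exact PolyLE.coord _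
      · exact deg_qL j0 f j
      · exact deg_qY f sy j i
    · exact fun i => deg_qN j0 f sx sy hg hgx hgy hp hdp i
  choose Q hQ0 hQd hQf using hco
  refine ⟨∏ P, Q P, Finset.prod_ne_zero_iff.2 fun P _ => hQ0 P, ?_, ?_⟩
  · intro i
    refine (degreeOf_prod_le' univ Q i _ fun P _ => hQd P i).trans ?_
    rw [Finset.card_univ, FB]
    simp only [Fintype.card_prod, Fintype.card_fun, Fintype.card_sum, Fintype.card_fin,
      Fintype.card_option, Fintype.card_unit]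
    have h3 : Fintype.card SignType = 3 := rfl
    rw [h3]
  · intro c hc
    have hc' : ∀ P, MvPolynomial.eval c (Q P) ≠ 0 := by
      rw [map_prod] at hc
      intro P
      exact Finset.prod_ne_zero_iff.1 hc P (mem_univ P)
    have hfin := fun P => hQf P c (hc' P)
    have hall : (⋃ P : (Row k M → Γ) × (Fin n → SignType) × (Fin k → Fin M → SignType),
        Set.pi Set.univ fun co : Co n M k => {w | ∃ u, (qM p dp P.1 P.2.2 u).det ≠ 0 ∧
          (∀ i, qN g gx gy p dp j0 P.1 P.2.1 P.2.2 i u =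
            (qM p dp P.1 P.2.2 u).det * c i) ∧
          (qM p dp P.1 P.2.2 u).det * coval (qX P.2.1 u) (qT j0 P.1 u) (qL j0 P.1 u)
            (qY P.1 P.2.2 u) co = (qM p dp P.1 P.2.2 u).det * w}).Finite :=
      Set.finite_iUnion fun P => Set.Finite.pi fun co => hfin (P, co)
    refine hall.subset ?_
    rintro q ⟨x, t, l, y, hW, rfl⟩
    obtain ⟨f, sx, sy, u, h1, h2, h3, h4, h5, h6⟩ := exists_param hJ j0 c x t l y hW
    refine Set.mem_iUnion.2 ⟨(f, sx, sy), ?_⟩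
    intro co _
    refine ⟨u, h1, h2, ?_⟩
    rw [h3, h4, h5, h6]

/-- The degree bound for all numbers of points. -/
def FBK (n M K G d : ℕ) : ℕ := ∑ k ∈ Finset.range (K + 1), FB n M k G d

theorem finite_all {K d : ℕ} (hg : PolyLE2 d g) (hgx : ∀ i, PolyLE2 d (gx i))
    (hgy : ∀ i, PolyLE2 d (gy i)) (hp : ∀ γ, PolyLE d (p γ)) (hdp : ∀ γ i, PolyLE d (dp γ i))
    (hJ : ∀ k ≤ K, FullJets p dp k) :
    ∃ Q : MvPolynomial (Γ ⊕ Fin n) ℝ, Q ≠ 0 ∧
      (∀ i, Q.degreeOf i ≤ FBK n M K (Fintype.card Γ) d) ∧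
      ∀ c, MvPolynomial.eval c Q ≠ 0 → ∀ k, 0 < k → k ≤ K →
        (WitSet k (pf g p c) (pfx gx c) (pfy gy dp c)).Finite := by
  classical
  have h1 : ∀ k : ℕ, ∃ Q : MvPolynomial (Γ ⊕ Fin n) ℝ, Q ≠ 0 ∧
      (∀ i, Q.degreeOf i ≤ FB n M k (Fintype.card Γ) d) ∧
      ∀ c, MvPolynomial.eval c Q ≠ 0 → 0 < k → k ≤ K →
        (WitSet k (pf g p c) (pfx gx c) (pfy gy dp c)).Finite := by
    intro k
    by_cases hk : 0 < k ∧ k ≤ K
    · obtain ⟨Q, h1, h2, h3⟩ := finite_k hg hgx hgy hp hdp hk.1 (hJ k hk.2)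
      exact ⟨Q, h1, h2, fun c hc _ _ => h3 c hc⟩
    · exact ⟨1, one_ne_zero, fun i => by simp, fun c _ h1 h2 => absurd ⟨h1, h2⟩ hk⟩
  choose Q hQ0 hQd hQf using h1
  refine ⟨∏ k ∈ Finset.range (K + 1), Q k, Finset.prod_ne_zero_iff.2 fun k _ => hQ0 k, ?_, ?_⟩
  · intro i
    refine (MvPolynomial.degreeOf_prod_le i _ Q).trans ?_
    exact Finset.sum_le_sum fun k _ => hQd k i
  · intro c hc k hk hkK
    rw [map_prod] at hc
    exact hQf k c (Finset.prod_ne_zero_iff.1 hc k (Finset.mem_range.2 (by omega))) hk hkK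

/-- A good perturbation on a grid. -/
theorem exists_grid {K d : ℕ} (hg : PolyLE2 d g) (hgx : ∀ i, PolyLE2 d (gx i))
    (hgy : ∀ i, PolyLE2 d (gy i)) (hp : ∀ γ, PolyLE d (p γ)) (hdp : ∀ γ i, PolyLE d (dp γ i))
    (hJ : ∀ k ≤ K, FullJets p dp k) (B : ℕ) (hB : FBK n M K (Fintype.card Γ) d < B)
    (η : ℝ) (hη : 0 < η) :
    ∃ b : Γ ⊕ Fin n → ℕ, (∀ i, b i < B) ∧ ∀ k, 0 < k → k ≤ K →
        (WitSet k (pf g p fun i => η * b i) (pfx gx fun i => η * b i)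
          (pfy gy dp fun i => η * b i)).Finite := by
  classical
  obtain ⟨Q, hQ0, hQd, hQf⟩ := finite_all hg hgx hgy hp hdp hJ
  have h1 : ∃ x : Γ ⊕ Fin n → ℝ, (∀ i, x i ∈ (Finset.range B).image fun m : ℕ => η * (m : ℝ)) ∧
      MvPolynomial.eval x Q ≠ 0 := by
    by_contra hcon
    push Not at hcon
    apply hQ0
    refine MvPolynomial.eq_zero_of_eval_zero_at_prod_finset Q
      (fun _ => (Finset.range B).image fun m : ℕ => η * (m : ℝ)) ?_ ?_
    · intro i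
      rw [Finset.card_image_of_injective, Finset.card_range]
      · exact lt_of_le_of_lt (hQd i) hB
      · intro a b hab
        exact Nat.cast_injective (mul_left_cancel₀ hη.ne' hab)
    · intro x hx
      exact hcon x hx
  obtain ⟨x, hx, hQx⟩ := h1
  choose b hb hb2 using fun i => Finset.mem_image.1 (hx i)
  refine ⟨b, fun i => Finset.mem_range.1 (hb i), ?_⟩
  have h2 : (fun i => η * ((b i : ℕ) : ℝ)) = x := funext hb2
  rw [h2]
  exact hQf x hQx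

end

end Run7.h470.Iso
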