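import Pool.Agent.Run7.h470.Iso.N
import Pool.Agent.R537.HD.Build
import Pool.Agent.H612.Gal

/-!
# The formula of the reduction
-/

set_option autoImplicit false

namespace Pool.Agent.NPC.H470Iso

open Pool.Agent.NPC Pool.Agent.NPC.ER Pool.Agent.NPC.H612 Pool.Agent.NPC.R537HD
open Run7.h470.Iso (kA kB kC)

section

variable (p : List ℕ × Fm)

/-- The system of constraints. -/
def qS : List ER.Con := sysOf (Fm.not p.2)
/-- Its variables. -/
def qv : List ℕ := (qS p).flatMap Con.vars
/-- The number of the existential variables. -/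
def qn : ℕ := p.1.length
/-- The number of the universal variables. -/
def qm : ℕ := (qv p).length + 1
/-- The number of the constraints. -/
def qs : ℕ := (qS p).length
/-- The exponent of the power. -/
def qκ : ℕ := kA (qm p) (qs p)
/-- The exponent of the large number. -/
def qB : ℕ := kB (qn p) (qm p) (qs p)
/-- The exponent of the shift. -/
def qC : ℕ := kC (qn p) (qm p) (qs p)
/-- The number of the coordinates of a point `y`. -/
def qM : ℕ := qm p + 1
/-- The number of the points. -/
def qK : ℕ := qn p + 1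
/-- The number of the linear forms. -/
def qR : ℕ := qM p * (qK p * qK p) + 1
/-- The number of the perturbations. -/
def qG : ℕ := qR p * (2 * qK p * (qM p + 1))
/-- The logarithm of the degree. -/
def qD : ℕ := qκ p + 2 * qK p + 6
/-- The number of the bits. -/
def qL : ℕ := qK p + 1 + qG p * (qK p * (qM p + 1)) + 2 * (qn p + qM p * qK p) +
  (qn p + (1 + (qK p + qK p * qM p))) +
  (qG p + qn p) * (qG p + qn p + 1 + (qK p * (qM p + 1) + 2) + qD p + 2) + 2
/-- The exponent of the small number. -/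
def qE : ℕ := qC p + qL p + (qG p + 2 * qK p * (qM p + qR p * qM p) + qn p + 4)
/-- The length of the chain. -/
def qΛ : ℕ := qB p + qC p + qE p

/-- The index of `t`. -/
def o1 : ℕ := qn p
/-- The first index of the coefficients. -/
def o2 : ℕ := o1 p + 1
/-- The first index of the points. -/
def o3 : ℕ := o2 p + qK p
/-- The first index of the powers. -/
def o4 : ℕ := o3 p + qK p * qM p
/-- The first index of the bits. -/
def o5 : ℕ := o4 p + qK p * (qκ p + 1)
/-- The first index of the chain. -/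
def o6 : ℕ := o5 p + (qG p + qn p) * qL p
/-- The index of the large number. -/
def o7 : ℕ := o6 p + (qΛ p + 1)
/-- The first index of the cone. -/
def o8 : ℕ := o7 p + 1
/-- The first index of the point of the cone. -/
def o9 : ℕ := o8 p + 1
/-- The first index of the powers of the cone. -/
def o10 : ℕ := o9 p + qM p
/-- The dimension. -/
def tot : ℕ := o10 p + (qκ p + 1)

/-- A coordinate of a point. -/
def yV (j i : ℕ) : Tm := Tm.var (o3 p + (j * qM p + i))
/-- A power. -/
def uV (j s : ℕ) : Tm := Tm.var (o4 p + (j * (qκ p + 1) + s))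
/-- The large number. -/
def NV : Tm := Tm.var (o7 p)
/-- The coordinate of the apex. -/
def sV : Tm := Tm.var (o8 p)
/-- A power of a term. -/
def powT (t : Tm) (k B : ℕ) : Tm := prodT ((List.range (min k B)).map fun _ => t)

/-- A coefficient. -/
def coT (q : ℕ) : Tm := Tm.mul (Tm.var (o6 p + qE p)) (sumT ((List.range (qL p)).map fun b =>
  Tm.mul (powT twoT b (qL p)) (Tm.var (o5 p + (q * qL p + b)))))
/-- The number of the linear form. -/
def rr (q : ℕ) : ℕ := q / (2 * qK p * (qM p + 1))
/-- The exponent. -/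
def ee (q : ℕ) : ℕ := (q / (qM p + 1)) % (2 * qK p)
/-- A linear form. -/
def liT (q j : ℕ) : Tm := sumT ((List.range (qM p)).map fun i =>
  Tm.mul (powT (numT (rr p q)) i (qM p)) (yV p j i))
/-- `1` or a coordinate. -/
def haT (q j : ℕ) : Tm :=
  if q % (qM p + 1) = 0 then Tm.one else yV p j (q % (qM p + 1) - 1)
/-- The derivative of `1` or a coordinate. -/
def dhT (q i : ℕ) : Tm := if q % (qM p + 1) = i + 1 then Tm.one else Tm.zero
/-- The perturbation. -/
def peT (j : ℕ) : Tm := sumT ((List.range (qG p)).map fun q =>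
  Tm.mul (coT p q) (Tm.mul (haT p q j) (powT (liT p q j) (ee p q) (2 * qK p))))
/-- The derivative of the perturbation. -/
def dpT (i j : ℕ) : Tm := sumT ((List.range (qG p)).map fun q =>
  Tm.mul (coT p q) (Tm.add (Tm.mul (dhT p q i) (powT (liT p q j) (ee p q) (2 * qK p)))
    (Tm.mul (haT p q j) (Tm.mul (Tm.mul (numT (ee p q))
      (powT (liT p q j) (ee p q - 1) (2 * qK p))) (powT (numT (rr p q)) i (qM p))))))
/-- The linear perturbation. -/
def lpT : Tm := sumT ((List.range (qn p)).map fun i => Tm.mul (coT p (qG p + i)) (Tm.var i))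

/-- The terms of the variables. -/
def pk (A B : Tm) (base i : ℕ) : Tm :=
  if i % 2 = 0 ∧ i / 2 ∈ p.1 then Tm.mul A (Tm.var (p.1.idxOf (i / 2)))
  else Tm.mul B (Tm.var (base + (qv p).idxOf i))
/-- The derivatives of the terms of the variables in the direction of an existential variable. -/
def pkX (A : Tm) (i0 i : ℕ) : Tm :=
  if i % 2 = 0 ∧ i / 2 ∈ p.1 then (if p.1.idxOf (i / 2) = i0 then A else Tm.zero)
  else Tm.zero
/-- The derivatives of the terms of the variables in the direction of a universal variable. -/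
def pkZ (k0 i : ℕ) : Tm :=
  if i % 2 = 0 ∧ i / 2 ∈ p.1 then Tm.zero
  else (if (qv p).idxOf i = k0 then Tm.one else Tm.zero)

/-- The form of a constraint. -/
def ceT (V : ℕ → Tm) (w : Tm) (c : ER.Con) : Tm :=
  if c.code.1 = 0 then Tm.mul w (subT (V c.code.2.1) w)
  else if c.code.1 = 1 then Tm.mul w (subT (Tm.add (V c.code.2.1) (V c.code.2.2.1))
    (V c.code.2.2.2))
  else subT (Tm.mul (V c.code.2.1) (V c.code.2.2.1)) (Tm.mul w (V c.code.2.2.2))

/-- The derivative of the form of a constraint. -/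
def dcT (V V' : ℕ → Tm) (w w' : Tm) (c : ER.Con) : Tm :=
  if c.code.1 = 0 then Tm.add (Tm.mul w' (subT (V c.code.2.1) w))
    (Tm.mul w (subT (V' c.code.2.1) w'))
  else if c.code.1 = 1 then Tm.add
    (Tm.mul w' (subT (Tm.add (V c.code.2.1) (V c.code.2.2.1)) (V c.code.2.2.2)))
    (Tm.mul w (subT (Tm.add (V' c.code.2.1) (V' c.code.2.2.1)) (V' c.code.2.2.2)))
  else subT (Tm.add (Tm.mul (V' c.code.2.1) (V c.code.2.2.1))
      (Tm.mul (V c.code.2.1) (V' c.code.2.2.1)))
    (Tm.add (Tm.mul w' (V c.code.2.2.2)) (Tm.mul w (V' c.code.2.2.2)))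

/-- The sum of the squares. -/
def qT (V : ℕ → Tm) (w : Tm) : Tm := sumT ((qS p).map fun c => sqT (ceT V w c))
/-- The derivative of the sum of the squares. -/
def dqT (V V' : ℕ → Tm) (w w' : Tm) : Tm := sumT ((qS p).map fun c =>
  Tm.mul (Tm.mul twoT (ceT V w c)) (dcT V V' w w' c))

/-- The terms of the variables at a point. -/
def pV (j : ℕ) : ℕ → Tm :=
  pk p (Tm.mul (NV p) (sqT (yV p j 0))) Tm.one (o3 p + (j * qM p + 1))
/-- The value at a point. -/
def vaT (j : ℕ) : Tm :=
  Tm.add (Tm.add (Tm.add (subT (Tm.mul (NV p) (qT p (pV p j) (sqT (yV p j 0))))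
    (Tm.mul (sqT (yV p j 0)) (uV p j (qκ p)))) (Tm.var (o6 p + qC p))) (peT p j)) (lpT p)
/-- The derivatives of the values of the variables at a point. -/
def pV' (i j : ℕ) : ℕ → Tm := fun k =>
  if i = 0 then pk p (Tm.mul (Tm.mul twoT (NV p)) (yV p j 0)) Tm.zero (o3 p + (j * qM p + 1)) k
  else pkZ p (i - 1) k
/-- The derivative at a point in the direction of `y i`. -/
def dyT (i j : ℕ) : Tm :=
  Tm.add (subT (Tm.mul (NV p) (dqT p (pV p j) (pV' p i j) (sqT (yV p j 0))
      (if i = 0 then Tm.mul twoT (yV p j 0) else Tm.zero)))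
    (if i = 0 then Tm.mul (Tm.mul (powT twoT (qκ p) (qκ p)) (uV p j (qκ p)))
      (Tm.mul twoT (yV p j 0)) else Tm.zero)) (dpT p i j)
/-- The derivative at a point in the direction of `x i`. -/
def dxT (i j : ℕ) : Tm :=
  Tm.add (Tm.mul (NV p) (dqT p (pV p j) (pkX p (Tm.mul (NV p) (sqT (yV p j 0))) i)
    (sqT (yV p j 0)) Tm.zero)) (coT p (qG p + i))

/-- The conditions on one point. -/
def actF (j : ℕ) : Fm :=
  Fm.or
    (conj [Fm.eq (Tm.var (o2 p + j)) Tm.zero,
      conj ((List.range (qM p)).map fun i => Fm.eq (yV p j i) Tm.zero),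
      conj ((List.range (qκ p + 1)).map fun s => Fm.eq (uV p j s) Tm.zero)])
    (conj [Fm.lt Tm.zero (Tm.var (o2 p + j)),
      Fm.eq (uV p j 0) Tm.one,
      conj ((List.range (qκ p)).map fun s =>
        Fm.eq (uV p j (s + 1)) (Tm.mul (sqT (uV p j s)) (sqT (yV p j 0)))),
      Fm.eq (vaT p j) (Tm.var (o1 p)),
      conj ((List.range (qM p)).map fun i =>
        Fm.or (Fm.eq (sqT (yV p j i)) Tm.one) (Fm.eq (dyT p i j) Tm.zero))])

/-- The square of the distance of two points. -/
def dsT (j j' : ℕ) : Tm := sumT ((List.range (qM p)).map fun i => sqT (subT (yV p j i) (yV p j' i)))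

/-- The conditions on the base coordinates. -/
def baF : Fm := conj
  [Fm.eq (Tm.add (Tm.var (o6 p)) (Tm.var (o6 p))) Tm.one,
   conj (chain (o6 p) (qΛ p)),
   Fm.eq (Tm.mul (NV p) (Tm.var (o6 p + qB p))) Tm.one,
   conj ((List.range ((qG p + qn p) * qL p)).map fun b =>
     Fm.eq (sqT (Tm.var (o5 p + b))) (Tm.var (o5 p + b))),
   conj ((List.range (qn p)).map fun i => Fm.le (sqT (Tm.var i)) Tm.one),
   conj ((List.range (qK p)).map fun j => actF p j),
   conj ((List.range (qn p)).map fun j =>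
     Fm.or (Fm.not (Fm.eq (Tm.var (o2 p + j)) Tm.zero)) (Fm.eq (Tm.var (o2 p + (j + 1))) Tm.zero)),
   Fm.eq (sumT ((List.range (qK p)).map fun j => Tm.var (o2 p + j))) Tm.one,
   conj ((List.range (qn p)).map fun i => Fm.or (Fm.eq (sqT (Tm.var i)) Tm.one)
     (Fm.eq (sumT ((List.range (qK p)).map fun j => Tm.mul (Tm.var (o2 p + j)) (dxT p i j)))
       Tm.zero)),
   conj ((List.range (qK p)).map fun j => conj ((List.range (qK p)).map fun j' =>
     if j = j' then tt else Fm.or (Fm.eq (Tm.var (o2 p + j)) Tm.zero)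
       (Fm.or (Fm.eq (Tm.var (o2 p + j')) Tm.zero) (Fm.not (Fm.eq (dsT p j j') Tm.zero)))))]

/-- The value on the cone. -/
def cvT : Tm :=
  Tm.add (subT (Tm.mul (NV p) (qT p (pk p (Tm.mul (NV p) (sqT (Tm.var (o9 p)))) (sV p)
      (o9 p + 1)) (sqT (Tm.var (o9 p)))))
    (Tm.mul (Tm.mul (Tm.mul (sqT (sqT (sV p))) (sV p)) (sqT (Tm.var (o9 p))))
      (Tm.var (o10 p + qκ p))))
    (Tm.mul (Tm.var (o6 p + qC p)) (sqT (sqT (sqT (sV p)))))

/-- The conditions on the cone coordinates. -/
def coF : Fm :=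
  Fm.or (conj ((List.range (1 + (qM p + (qκ p + 1)))).map fun i =>
      Fm.eq (Tm.var (o8 p + i)) Tm.zero))
    (conj [Fm.lt Tm.zero (sV p),
      conj ((List.range (qM p)).map fun i => Fm.le (sqT (Tm.var (o9 p + i))) (sqT (sV p))),
      Fm.eq (Tm.var (o10 p)) (sV p),
      conj ((List.range (qκ p)).map fun s =>
        Fm.eq (Tm.mul (Tm.var (o10 p + (s + 1))) (Tm.mul (sqT (sV p)) (sV p)))
          (Tm.mul (sqT (Tm.var (o10 p + s))) (sqT (Tm.var (o9 p))))),
      Fm.le (cvT p) Tm.zero])

/-- The instance. -/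
def hinst : List Unit × Fm := (List.replicate (tot p) (), Fm.and (baF p) (coF p))

end

end Pool.Agent.NPC.H470Iso
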