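import Pool.Agent.Run7.h470.Iso.Defs
import Pool.Agent.R537.RN.NFEff

/-!
# A compact normal form for sentences `∃ x ∀ z, ¬ S`

Piece N of the project of helper470 (MP_47d501_lc).
-/

set_option autoImplicit false

namespace Run7.h470.Iso

open Pool.Agent.R537.RN Pool.Agent.NPC Pool.Agent.H612

/-- The sentence `∃ x ∀ z, ¬ S`. -/
def Sent2 {n m : ℕ} (loc : ℕ → Fin n ⊕ (Fin 0 ⊕ Fin m)) (S : List ER.Con) : Prop :=
  ∃ x : Fin n → ℝ, ∀ z : Fin m → ℝ, ¬ ER.SysHolds (pick loc x Fin.elim0 z) S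

/-- exponents -/
def kA (m s : ℕ) : ℕ := kap m s
/-- exponents -/
def kB (n m s : ℕ) : ℕ := Gx n (Gx (m + 1) (kA m s + s + 6))
/-- exponents -/
def kC (n m s : ℕ) : ℕ := Gx n (Gx (m + 1) (kA m s + kB n m s + s + 6))

/-- the function (`y = (ρ, z)`) -/
def GG {n m : ℕ} (loc : ℕ → Fin n ⊕ (Fin 0 ⊕ Fin m)) (S : List ER.Con) (N : ℝ) (κ : ℕ)
    (x : Fin n → ℝ) (y : Fin (m + 1) → ℝ) : ℝ :=
  N * qsum (pick loc (fun j => N * y 0 ^ 2 * x j) Fin.elim0 fun j => y j.succ) (y 0 ^ 2) S -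
    (y 0 ^ 2) ^ 2 ^ κ

/-- The maximum of the minima over two blocks satisfies a bounded polynomial relation. -/
theorem maxmin {K : Type} [CommRing K] [Nontrivial K] {T : Type} [TopologicalSpace T]
    (L : Lvl K T) (nr : RNorm K) (hpos : ∀ c : K, c ≠ 0 → 1 ≤ nr.ν c) {n m : ℕ}
    (F : MvPolynomial (Fin m) (MvPolynomial (Fin n) K)) (e : ℕ)
    (hF : 1 + (wm (wm nr n) m).ν F ≤ 2 ^ 2 ^ e) :
    ∃ Q : Polynomial K, Q ≠ 0 ∧ nr.poly.ν Q ≤ 2 ^ 2 ^ Gx n (Gx m e) ∧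
      ∃ v : T → ℝ, Continuous v ∧ (∀ t, Q.eval₂ (L.φ t) (v t) = 0) ∧
        (∀ t, ∃ x ∈ cube n, ∀ y ∈ cube m, v t ≤ ((L.ext n).ext m).φ ((t, x), y) F) ∧
        ∀ t, ∀ x ∈ cube n, ∃ y ∈ cube m, ((L.ext n).ext m).φ ((t, x), y) F ≤ v t := by
  obtain ⟨h, hh⟩ : ∃ h : (T × (Fin n → ℝ)) × (Fin m → ℝ) → ℝ,
      ∀ s, h s = -((L.ext n).ext m).φ s F := ⟨_, fun s => rfl⟩
  have hc : Continuous h := by
    have : h = fun s => -((L.ext n).ext m).φ s F := funext hh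
    rw [this]
    exact (((L.ext n).ext m).cont F).neg
  have hP0 : Polynomial.X + Polynomial.C F ≠ 0 := (Polynomial.monic_X_add_C F).ne_zero
  have hB : (wm (wm nr n) m).poly.ν (Polynomial.X + Polynomial.C F) ≤ 2 ^ 2 ^ e :=
    (ν_X_add_C _ F).trans hF
  obtain ⟨Q, hQ0, hQν, hQ⟩ := (L.ext n).step (wm nr n) (wm_pos nr hpos)
    (Polynomial.X + Polynomial.C F) hP0 _ hB Nat.one_le_two_pow h hc (fun s => by
      rw [Polynomial.eval₂_add, Polynomial.eval₂_X, Polynomial.eval₂_C, hh]; ring)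
  have hQν' := (flip_ν (wm nr n) Q).trans (hQν.trans (bndL_le m e _ (le_refl _)))
  obtain ⟨h1, hh1⟩ : ∃ h1 : T × (Fin n → ℝ) → ℝ, ∀ s, h1 s = -bmax h s := ⟨_, fun s => rfl⟩
  have hc1 : Continuous h1 := by
    have : h1 = fun s => -bmax h s := funext hh1
    rw [this]
    exact (continuous_bmax hc).neg
  obtain ⟨Q1, hQ10, hQ1ν, hQ1⟩ := L.step nr hpos (flip Q) (flip_ne_zero Q hQ0) _ hQν'
    Nat.one_le_two_pow h1 hc1 (fun s => by
      rw [flip_eval, hh1, neg_neg]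
      exact hQ s)
  refine ⟨Q1, hQ10, hQ1ν.trans (bndL_le n _ _ (le_refl _)), bmax h1, continuous_bmax hc1, hQ1,
    fun t => ?_, fun t x hx => ?_⟩
  · obtain ⟨x, hx, hx2⟩ := exists_bmax hc1 t
    refine ⟨x, hx, fun y hy => ?_⟩
    have e1 := le_bmax hc (t, x) hy
    rw [hh] at e1
    rw [← hx2, hh1]
    linarith
  · have e1 := le_bmax hc1 t hx
    rw [hh1] at e1
    obtain ⟨y, hy, hy2⟩ := exists_bmax hc (t, x)
    refine ⟨y, hy, ?_⟩
    rw [← hy2, hh, neg_neg] at e1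
    exact e1

section

variable {n m : ℕ} (loc : ℕ → Fin n ⊕ (Fin 0 ⊕ Fin m)) (S : List ER.Con)

/-- The polynomial form of `GG` with the parameter `σ = 1 / N`. -/
def Psi {R : Type} [CommRing R] (σ t tK : R) (x : Fin n → R) (z : Fin m → R) : R :=
  qsum (pick loc (fun j => t * x j) (fun j => Fin.elim0 j) (fun j => σ * z j)) (σ * t) S -
    σ ^ 5 * tK

theorem elim0_eq {α : Type} (f : Fin 0 → α) : f = Fin.elim0 := funext fun j => j.elim0

theorem Psi_map {R R' : Type} [CommRing R] [CommRing R'] (f : R →+* R') (σ t tK : R)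
    (x : Fin n → R) (z : Fin m → R) :
    f (Psi loc S σ t tK x z) =
      Psi loc S (f σ) (f t) (f tK) (fun j => f (x j)) (fun j => f (z j)) := by
  simp only [Psi, map_sub, map_mul, map_pow, qsum_map, pick_map]
  congr 3
  funext i
  congr 1
  exact (elim0_eq _).trans (elim0_eq _).symm

theorem Psi_ν {R : Type} [CommRing R] (nr : RNorm R) (σ t tK : R)
    (x : Fin n → R) (z : Fin m → R) (A : ℕ) (hσ : nr.ν σ ≤ 2) (ht : nr.ν t ≤ 4)
    (htK : nr.ν tK ≤ A) (hx : ∀ j, nr.ν (x j) ≤ 2) (hz : ∀ j, nr.ν (z j) ≤ 2) :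
    nr.ν (Psi loc S σ t tK x z) ≤ 36864 * S.length + 32 * A := by
  have hmul : ∀ (a b : R) (p q : ℕ), nr.ν a ≤ p → nr.ν b ≤ q → nr.ν (a * b) ≤ p * q :=
    fun a b p q h1 h2 => (nr.mul _ _).trans (Nat.mul_le_mul h1 h2)
  have h1 : nr.ν (qsum (pick loc (fun j => t * x j) (fun j => Fin.elim0 j)
      (fun j => σ * z j)) (σ * t) S) ≤ 9 * 8 ^ 4 * S.length := by
    apply qsum_ν
    · apply pick_ν
      · intro j
        exact hmul _ _ _ _ ht (hx j)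
      · intro j
        exact j.elim0
      · intro j
        exact (hmul _ _ _ _ hσ (hz j)).trans (by norm_num)
    · exact hmul _ _ _ _ hσ ht
  have h4 : nr.ν (σ ^ 5 * tK) ≤ 2 ^ 5 * A := hmul _ _ _ _ (ν_pow nr _ _ 5 hσ) htK
  unfold Psi
  calc _ ≤ 9 * 8 ^ 4 * S.length + 2 ^ 5 * A :=
        (nr.sub _ _).trans (Nat.add_le_add h1 h4)
    _ = 36864 * S.length + 32 * A := by ring

theorem Psi_GG {N : ℝ} (hN : 0 < N) (κ : ℕ) (x : Fin n → ℝ) (y : Fin (m + 1) → ℝ) :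
    Psi loc S N⁻¹ (y 0 ^ 2) ((y 0 ^ 2) ^ 2 ^ κ) x (fun j => y j.succ) =
      N⁻¹ ^ 5 * GG loc S N κ x y := by
  have h : qsum (pick loc (fun j => y 0 ^ 2 * x j) (fun j => Fin.elim0 j)
      (fun j => N⁻¹ * y j.succ)) (N⁻¹ * y 0 ^ 2) S = N⁻¹ ^ 4 * qsum (pick loc
      (fun j => N * y 0 ^ 2 * x j) Fin.elim0 fun j => y j.succ) (y 0 ^ 2) S := by
    rw [← qsum_scale]
    congr 1
    funext i
    rw [pick_scale]
    congr 1
    · funext j
      field_simp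
    · exact (elim0_eq _).trans (elim0_eq _).symm
  simp only [Psi, GG]
  rw [h]
  field_simp

/-- The compact form of the sentence with the parameter `N`. -/
def Good2 (N : ℝ) : Prop := ∃ x ∈ cube n, ∀ y ∈ cube (m + 1), 0 ≤ GG loc S N (kA m S.length) x y

theorem good2_mono {N N' : ℝ} (h0 : 0 < N) (h1 : N ≤ N') (h : Good2 loc S N) :
    Good2 loc S N' := by
  obtain ⟨x, hx, hY⟩ := h
  have hN' : 0 < N' := lt_of_lt_of_le h0 h1
  have hq : N / N' ≤ 1 := (div_le_one hN').2 h1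
  have hq0 : 0 < N / N' := by positivity
  refine ⟨fun j => N / N' * x j, ?_, ?_⟩
  · intro j
    rw [abs_mul, abs_of_pos hq0]
    have := hx j
    nlinarith [abs_nonneg (x j)]
  · intro y hy
    have h2 := hY y hy
    unfold GG at h2 ⊢
    have e : (fun j => N' * y 0 ^ 2 * (N / N' * x j)) = fun j => N * y 0 ^ 2 * x j := by
      funext j
      field_simp
    rw [e]
    have h3 := qsum_nonneg (pick loc (fun j => N * y 0 ^ 2 * x j) Fin.elim0
      fun j => y j.succ) (y 0 ^ 2) S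
    nlinarith

theorem good2_of_sent (h : Sent2 loc S) : ∃ N : ℝ, 1 ≤ N ∧ Good2 loc S N := by
  obtain ⟨x, hx⟩ := h
  obtain ⟨c, hc0, hc⟩ := L1 loc S x Fin.elim0 (fun ⟨z, hz⟩ => hx z hz)
  obtain ⟨t, ht0, ht1, htx, -⟩ := exists_scale x 0
  have hσ0 : 0 < min c t := lt_min hc0 ht0
  have hσ1 : min c t ≤ 1 := (min_le_right _ _).trans ht1.le
  refine ⟨(min c t)⁻¹, (one_le_inv₀ hσ0).2 hσ1, fun j => min c t * x j, ?_, ?_⟩
  · intro j
    have h1 := (htx j).le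
    rw [abs_mul, abs_of_pos ht0] at h1
    rw [abs_mul, abs_of_pos hσ0]
    exact (mul_le_mul_of_nonneg_right (min_le_right _ _) (abs_nonneg _)).trans h1
  · intro y hy
    have hr0 : 0 ≤ (y 0) ^ 2 := sq_nonneg _
    have hr1 : (y 0) ^ 2 ≤ 1 := by
      have := hy 0
      rw [← sq_abs]
      nlinarith [abs_nonneg (y 0)]
    have h1 := hc (fun j => y j.succ) (fun j => hy j.succ) (y 0 ^ 2) hr0 hr1
    unfold GG
    have e : (fun j => (min c t)⁻¹ * y 0 ^ 2 * (min c t * x j)) = fun j => y 0 ^ 2 * x j := by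
      funext j
      field_simp
    rw [e]
    rw [elim0_eq (fun j => y 0 ^ 2 * (Fin.elim0 j : ℝ))] at h1
    have h2 : (min c t) * (y 0 ^ 2) ^ 2 ^ kA m S.length ≤
        qsum (pick loc (fun j => y 0 ^ 2 * x j) Fin.elim0 fun j => y j.succ) (y 0 ^ 2) S :=
      (mul_le_mul_of_nonneg_right (min_le_left _ _) (by positivity)).trans h1
    have h3 : (min c t)⁻¹ * ((min c t) * (y 0 ^ 2) ^ 2 ^ kA m S.length) =
        (y 0 ^ 2) ^ 2 ^ kA m S.length := by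
      rw [← mul_assoc, inv_mul_cancel₀ hσ0.ne', one_mul]
    have h4 := mul_le_mul_of_nonneg_left h2 (inv_nonneg.2 hσ0.le)
    rw [h3] at h4
    linarith

theorem sent_of_good2 {N : ℝ} (hN : 0 < N) (h : Good2 loc S N) : Sent2 loc S := by
  obtain ⟨x, hx, hY⟩ := h
  refine ⟨fun j => N * x j, fun z hz => ?_⟩
  obtain ⟨t, ht0, ht1, htz, -⟩ := exists_scale z 0
  have hw : (Real.sqrt t) ^ 2 = t := Real.sq_sqrt ht0.le
  have hy : (Fin.cons (Real.sqrt t) fun j => t * z j : Fin (m + 1) → ℝ) ∈ cube (m + 1) := by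
    intro j
    refine Fin.cases ?_ (fun j => ?_) j
    · rw [Fin.cons_zero, abs_of_nonneg (Real.sqrt_nonneg t)]
      exact Real.sqrt_le_one.2 ht1.le
    · rw [Fin.cons_succ]; exact (htz j).le
  have h1 := hY _ hy
  unfold GG at h1
  simp only [Fin.cons_zero, Fin.cons_succ] at h1
  rw [hw] at h1
  have h2 := qsum_t loc S t (fun j => N * x j) Fin.elim0 z
  rw [(qsum_one_iff _ _).2 hz, mul_zero] at h2
  have e : (fun j => N * t * x j) = fun j => t * (N * x j) := by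
    funext j; ring
  rw [elim0_eq (fun j => t * (Fin.elim0 j : ℝ))] at h2
  rw [e, h2] at h1
  have : 0 < t ^ 2 ^ kA m S.length := by positivity
  linarith

theorem bound_B2 (s κ κ' : ℕ) :
    1 + (36864 * s * 2 ^ (5 * 2 ^ κ') + 4 ^ 2 ^ κ) ≤ 2 ^ 2 ^ (κ + κ' + s + 6) := by
  have h2 : ∀ k : ℕ, k + 1 ≤ 2 ^ k := fun k => Nat.lt_two_pow_self
  have hT : 2 ^ (κ + κ' + s + 6) = 64 * 2 ^ (κ + κ' + s) := by rw [pow_add]; ring
  set T := 2 ^ (κ + κ' + s) with hTd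
  have h1 : 1 ≤ T := Nat.one_le_two_pow
  have hκ : 2 ^ κ ≤ T := Nat.pow_le_pow_right (by norm_num) (by omega)
  have hκ' : 2 ^ κ' ≤ T := Nat.pow_le_pow_right (by norm_num) (by omega)
  have hs : s ≤ 2 ^ T := by
    have h3 : 2 ^ s ≤ T := Nat.pow_le_pow_right (by norm_num) (by omega)
    have := h2 s
    have := h2 T
    omega
  have e1 : (4 : ℕ) ^ 2 ^ κ ≤ 2 ^ (6 * T) := by
    rw [show (4 : ℕ) = 2 ^ 2 by norm_num, ← pow_mul]
    exact Nat.pow_le_pow_right (by norm_num) (by omega)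
  have e2 : (2 : ℕ) ^ (5 * 2 ^ κ') ≤ 2 ^ (5 * T) :=
    Nat.pow_le_pow_right (by norm_num) (by omega)
  have e3 : s * 2 ^ (5 * 2 ^ κ') ≤ 2 ^ (6 * T) := by
    calc s * 2 ^ (5 * 2 ^ κ') ≤ 2 ^ T * 2 ^ (5 * T) := Nat.mul_le_mul hs e2
      _ = 2 ^ (6 * T) := by rw [← pow_add]; congr 1; ring
  rw [hT]
  calc 1 + (36864 * s * 2 ^ (5 * 2 ^ κ') + 4 ^ 2 ^ κ)
      ≤ 2 ^ 16 * 2 ^ (6 * T) := by
        have : 1 ≤ 2 ^ (6 * T) := Nat.one_le_two_pow
        rw [mul_assoc]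
        omega
    _ = 2 ^ (16 + 6 * T) := (pow_add _ _ _).symm
    _ ≤ 2 ^ (64 * T) := Nat.pow_le_pow_right (by norm_num) (by omega)

theorem good2_eff (hG : ∃ N : ℝ, 1 ≤ N ∧ Good2 loc S N) :
    Good2 loc S (2 ^ 2 ^ kB n m S.length) := by
  obtain ⟨κ, hκ⟩ : ∃ κ, κ = kA m S.length := ⟨_, rfl⟩
  obtain ⟨F, hFdef⟩ : ∃ F : MvPolynomial (Fin (m + 1)) (MvPolynomial (Fin n)
      (MvPolynomial (Fin 1) ℤ)), F =
      Psi loc S (MvPolynomial.C (MvPolynomial.C (MvPolynomial.X 0 : MvPolynomial (Fin 1) ℤ)))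
        ((MvPolynomial.X 0) ^ 2) (((MvPolynomial.X 0) ^ 2) ^ (2 ^ κ))
        (fun j => MvPolynomial.C (MvPolynomial.X j)) (fun j => MvPolynomial.X j.succ) :=
    ⟨_, rfl⟩
  have hF : ∀ s, (((Lvl.int.ext 1).ext n).ext (m + 1)).φ s F =
      Psi loc S (s.1.1.2 0) ((s.2 0) ^ 2) (((s.2 0) ^ 2) ^ (2 ^ κ)) s.1.2
        (fun j => s.2 j.succ) := by
    intro s
    rw [hFdef, Psi_map]
    simp only [ext_φ_C, ext_φ_X, map_pow]
  have hFν : (wm (wm (wm RNorm.int 1) n) (m + 1)).ν F ≤ 36864 * S.length + 32 * 4 ^ 2 ^ κ := by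
    rw [hFdef]
    have hX2 : (wm (wm (wm RNorm.int 1) n) (m + 1)).ν ((MvPolynomial.X 0) ^ 2) ≤ 4 :=
      ν_pow _ _ 2 2 (wm_X _ _)
    apply Psi_ν
    · rw [wm_C, wm_C]; exact wm_X _ _
    · exact hX2
    · exact ν_pow _ _ _ _ hX2
    · intro j
      rw [wm_C]
      exact wm_X _ _
    · intro j
      exact wm_X _ _
  have hFb : 1 + (wm (wm (wm RNorm.int 1) n) (m + 1)).ν F ≤ 2 ^ 2 ^ (κ + S.length + 6) := by
    have h1 := bound_B S.length κ 0
    simp only [add_zero] at h1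
    omega
  obtain ⟨Q, hQ0, hQν, v, hvc, hQ, hv1, hv2⟩ := maxmin (Lvl.int.ext 1) (wm RNorm.int 1)
    (wm_pos RNorm.int int_pos) F _ hFb
  have hgood : ∀ N : ℝ, 0 < N → (Good2 loc S N ↔ 0 ≤ v ((), fun _ => N⁻¹)) := by
    intro N hN
    have key : ∀ (x : Fin n → ℝ) (y : Fin (m + 1) → ℝ),
        (((Lvl.int.ext 1).ext n).ext (m + 1)).φ ((((), fun _ => N⁻¹), x), y) F =
          N⁻¹ ^ 5 * GG loc S N κ x y := by
      intro x y
      rw [hF]
      exact Psi_GG loc S hN κ x y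
    have hN5 : 0 < N⁻¹ ^ 5 := by positivity
    constructor
    · rintro ⟨x, hx, hy⟩
      obtain ⟨y, hyc, hy2⟩ := hv2 ((), fun _ => N⁻¹) x hx
      rw [key] at hy2
      have := hy y hyc
      rw [← hκ] at this
      exact (mul_nonneg hN5.le this).trans hy2
    · intro h0
      obtain ⟨x, hx, hy⟩ := hv1 ((), fun _ => N⁻¹)
      refine ⟨x, hx, fun y hyc => ?_⟩
      have h1 := hy y hyc
      rw [key] at h1
      rw [← hκ]
      exact nonneg_of_mul_nonneg_right (h0.trans h1) hN5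
  obtain ⟨N₁, hN1, hN2⟩ := hG
  have hN0 : 0 < N₁ := by linarith
  obtain ⟨σ, h10, h11, h12, h13⟩ := gap_int (flip Q) (flip_ne_zero Q hQ0) _
    ((flip_ν _ Q).trans hQν) (fun σ => -v ((), fun _ => σ))
    ((hvc.comp (by fun_prop)).neg) (fun s => by
      rw [flip_eval, neg_neg]
      exact hQ _) N₁⁻¹ (by positivity) (inv_le_one_of_one_le₀ hN1) (by
      have := (hgood N₁ hN0).1 hN2
      linarith)
  have h14 : Good2 loc S σ⁻¹ := by
    rw [hgood _ (by positivity), inv_inv]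
    linarith
  refine good2_mono loc S (by positivity) ?_ h14
  push_cast at h12
  rw [inv_le_iff_one_le_mul₀ h10]
  have e : kB n m S.length = Gx n (Gx (m + 1) (κ + S.length + 6)) := by rw [hκ]; rfl
  rw [e]
  exact h12

/-- **The effective compact normal form, first half.** -/
theorem normal_fwd (h : Sent2 loc S) : ∃ x ∈ cube n, ∀ y ∈ cube (m + 1),
      0 ≤ GG loc S (2 ^ 2 ^ kB n m S.length) (kA m S.length) x y :=
  good2_eff loc S (good2_of_sent loc S h)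

/-- **The effective compact normal form, second half.** -/
theorem normal_bwd (x : Fin n → ℝ) (hx : x ∈ cube n) (h : ∀ y ∈ cube (m + 1),
      -((1 / 2) ^ 2 ^ kC n m S.length) <
        GG loc S (2 ^ 2 ^ kB n m S.length) (kA m S.length) x y) : Sent2 loc S := by
  obtain ⟨κ, hκ⟩ : ∃ κ, κ = kA m S.length := ⟨_, rfl⟩
  obtain ⟨κ', hκ'⟩ : ∃ κ', κ' = kB n m S.length := ⟨_, rfl⟩
  rw [← hκ, ← hκ'] at h
  obtain ⟨M, hM⟩ : ∃ M : ℤ, M = 2 ^ 2 ^ κ' := ⟨_, rfl⟩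
  have hMR : (M : ℝ) = 2 ^ 2 ^ κ' := by rw [hM]; push_cast; rfl
  obtain ⟨c, hc⟩ : ∃ c : MvPolynomial (Fin (m + 1)) (MvPolynomial (Fin n) ℤ),
    c = MvPolynomial.C (MvPolynomial.C M) := ⟨_, rfl⟩
  obtain ⟨F, hFdef⟩ : ∃ F : MvPolynomial (Fin (m + 1)) (MvPolynomial (Fin n) ℤ), F =
      c * qsum (pick loc (fun j => c * (MvPolynomial.X 0) ^ 2 * MvPolynomial.C (MvPolynomial.X j))
        (fun j => Fin.elim0 j) fun j => MvPolynomial.X j.succ) ((MvPolynomial.X 0) ^ 2) S -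
      ((MvPolynomial.X 0) ^ 2) ^ (2 ^ κ) := ⟨_, rfl⟩
  have hcφ : ∀ s, ((Lvl.int.ext n).ext (m + 1)).φ s c = 2 ^ 2 ^ κ' := by
    intro s
    rw [hc, ext_φ_C, ext_φ_C, ← hMR]
    rfl
  have hF : ∀ s, ((Lvl.int.ext n).ext (m + 1)).φ s F = GG loc S (2 ^ 2 ^ κ') κ s.1.2 s.2 := by
    intro s
    rw [hFdef, map_sub, map_mul, qsum_map]
    simp only [pick_map, map_mul, ext_φ_C, ext_φ_X, map_pow, hcφ]
    unfold GG
    congr 4
    funext i
    congr 1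
    exact (elim0_eq _).trans (elim0_eq _).symm
  have hcν : (wm (wm RNorm.int n) (m + 1)).ν c ≤ 2 ^ 2 ^ κ' := by
    rw [hc, wm_C, wm_C, hM]
    change Int.natAbs (2 ^ 2 ^ κ') ≤ _
    rw [Int.natAbs_pow]
    rfl
  have hFν : (wm (wm RNorm.int n) (m + 1)).ν F ≤
      36864 * S.length * 2 ^ (5 * 2 ^ κ') + 4 ^ 2 ^ κ := by
    have hX2 : (wm (wm RNorm.int n) (m + 1)).ν ((MvPolynomial.X 0) ^ 2) ≤ 4 :=
      ν_pow _ _ 2 2 (wm_X _ _)
    have hmul : ∀ (a b : MvPolynomial (Fin (m + 1)) (MvPolynomial (Fin n) ℤ)) (p q : ℕ),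
        (wm (wm RNorm.int n) (m + 1)).ν a ≤ p → (wm (wm RNorm.int n) (m + 1)).ν b ≤ q →
        (wm (wm RNorm.int n) (m + 1)).ν (a * b) ≤ p * q :=
      fun a b p q h1 h2 => ((wm (wm RNorm.int n) (m + 1)).mul _ _).trans (Nat.mul_le_mul h1 h2)
    have h1N : 1 ≤ 2 ^ 2 ^ κ' := Nat.one_le_two_pow
    have h1 : (wm (wm RNorm.int n) (m + 1)).ν (qsum (pick loc
        (fun j => c * (MvPolynomial.X 0) ^ 2 * MvPolynomial.C (MvPolynomial.X j))
        (fun j => Fin.elim0 j) fun j => MvPolynomial.X j.succ) ((MvPolynomial.X 0) ^ 2) S) ≤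
        9 * (2 ^ 2 ^ κ' * 4 * 2) ^ 4 * S.length := by
      apply qsum_ν
      · apply pick_ν
        · intro j
          refine hmul _ _ _ _ (hmul _ _ _ _ hcν hX2) ?_
          rw [wm_C]
          exact wm_X _ _
        · intro j
          exact j.elim0
        · intro j
          refine (wm_X _ _).trans ?_
          omega
      · refine hX2.trans ?_
        omega
    rw [hFdef]
    calc _ ≤ 2 ^ 2 ^ κ' * (9 * (2 ^ 2 ^ κ' * 4 * 2) ^ 4 * S.length) + 4 ^ 2 ^ κ :=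
          ((wm (wm RNorm.int n) (m + 1)).sub _ _).trans
            (Nat.add_le_add (hmul _ _ _ _ hcν h1) (ν_pow _ _ _ _ hX2))
      _ = 36864 * S.length * 2 ^ (5 * 2 ^ κ') + 4 ^ 2 ^ κ := by
        rw [mul_comm 5 (2 ^ κ'), pow_mul]
        ring
  have hFb : 1 + (wm (wm RNorm.int n) (m + 1)).ν F ≤ 2 ^ 2 ^ (κ + κ' + S.length + 6) :=
    (Nat.add_le_add_left hFν 1).trans (bound_B2 S.length κ κ')
  obtain ⟨Q, hQ0, hQν, v, hvc, hQ, hv1, hv2⟩ := maxmin Lvl.int RNorm.int int_pos F _ hFb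
  have hkC : kC n m S.length = Gx n (Gx (m + 1) (κ + κ' + S.length + 6)) := by
    rw [hκ, hκ']; rfl
  rw [hkC] at h
  have hv : -((1 / 2 : ℝ) ^ 2 ^ Gx n (Gx (m + 1) (κ + κ' + S.length + 6))) < v () := by
    obtain ⟨y, hy, hy2⟩ := hv2 () x hx
    rw [hF] at hy2
    exact (h y hy).trans_le hy2
  have hv0 : 0 ≤ v () := by
    by_contra hneg
    rw [not_le] at hneg
    have h1 : (1 / 2 : ℝ) ^ 2 ^ Gx n (Gx (m + 1) (κ + κ' + S.length + 6)) ≤ 1 :=
      pow_le_one₀ (by norm_num) (by norm_num)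
    have h2 := root_bound (flip Q) (flip_ne_zero Q hQ0) _ ((flip_ν _ Q).trans hQν) (-v ())
      (by linarith) (by linarith) (by
        rw [flip_eval, neg_neg]
        exact hQ ())
    push_cast at h2
    have h3 : (0 : ℝ) < 2 ^ 2 ^ Gx n (Gx (m + 1) (κ + κ' + S.length + 6)) := by positivity
    have h4 : (2 : ℝ) ^ 2 ^ Gx n (Gx (m + 1) (κ + κ' + S.length + 6)) *
        (1 / 2 : ℝ) ^ 2 ^ Gx n (Gx (m + 1) (κ + κ' + S.length + 6)) = 1 := by
      rw [← mul_pow]; norm_num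
    nlinarith
  apply sent_of_good2 loc S (N := 2 ^ 2 ^ κ') (by positivity)
  obtain ⟨x', hx', hy'⟩ := hv1 ()
  refine ⟨x', hx', fun y hy => ?_⟩
  have h1 := hy' y hy
  rw [hF] at h1
  rw [← hκ]
  exact hv0.trans h1

end

end Run7.h470.Iso
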