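import Pool.Agent.Run7.h470.Iso.Fin
import Pool.Agent.Run7.h470.Iso.N

/-!
# The function of the normal form, its derivatives and its degrees
-/

set_option autoImplicit false

namespace Run7.h470.Iso

open Finset Pool.Agent.R537.RN Pool.Agent.NPC

section

variable {R : Type} [CommRing R]

/-- The derivative of `cerr`. -/
def dcerr (V V' : ℕ → R) (w w' : R) : ER.Con → R
  | .one i => w' * (V i - w) + w * (V' i - w')
  | .add i j k => w' * (V i + V j - V k) + w * (V' i + V' j - V' k)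
  | .mul i j k => V' i * V j + V i * V' j - (w' * V k + w * V' k)

/-- The derivative of `qsum`. -/
def dqsum (V V' : ℕ → R) (w w' : R) (S : List ER.Con) : R :=
  (S.map fun c => 2 * cerr V w c * dcerr V V' w w' c).sum

@[simp] theorem dqsum_nil (V V' : ℕ → R) (w w' : R) : dqsum V V' w w' [] = 0 := rfl

@[simp] theorem dqsum_cons (V V' : ℕ → R) (w w' : R) (c : ER.Con) (S : List ER.Con) :
    dqsum V V' w w' (c :: S) = 2 * cerr V w c * dcerr V V' w w' c + dqsum V V' w w' S := by
  simp [dqsum]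

theorem dcerr_sum {ι : Type} (s : Finset ι) (a : ι → R) (V : ℕ → R) (V' : ι → ℕ → R) (w : R)
    (w' : ι → R) (c : ER.Con) :
    dcerr V (fun p => ∑ i ∈ s, a i * V' i p) w (∑ i ∈ s, a i * w' i) c =
      ∑ i ∈ s, a i * dcerr V (V' i) w (w' i) c := by
  classical
  induction s using Finset.induction_on with
  | empty => cases c <;> simp [dcerr]
  | insert j s hj ih =>
    rw [Finset.sum_insert hj, Finset.sum_insert hj, ← ih]
    simp only [Finset.sum_insert hj]
    cases c <;> simp only [dcerr] <;> ring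

theorem dqsum_sum {ι : Type} (s : Finset ι) (a : ι → R) (V : ℕ → R) (V' : ι → ℕ → R) (w : R)
    (w' : ι → R) (S : List ER.Con) :
    dqsum V (fun p => ∑ i ∈ s, a i * V' i p) w (∑ i ∈ s, a i * w' i) S =
      ∑ i ∈ s, a i * dqsum V (V' i) w (w' i) S := by
  induction S with
  | nil => simp
  | cons c S ih =>
    simp only [dqsum_cons, ih, dcerr_sum, mul_add, Finset.sum_add_distrib, Finset.mul_sum]
    congr 1
    exact Finset.sum_congr rfl fun i _ => by ring

end

theorem hasDerivAt_cerr {V : ℝ → ℕ → ℝ} {V' : ℕ → ℝ} {w : ℝ → ℝ} {w' s : ℝ}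
    (hV : ∀ i, HasDerivAt (fun s => V s i) (V' i) s) (hw : HasDerivAt w w' s) (c : ER.Con) :
    HasDerivAt (fun s => cerr (V s) (w s) c) (dcerr (V s) V' (w s) w' c) s := by
  cases c with
  | one i => exact hw.mul ((hV i).sub hw)
  | add i j k => exact hw.mul (((hV i).add (hV j)).sub (hV k))
  | mul i j k => exact ((hV i).mul (hV j)).sub (hw.mul (hV k))

theorem hasDerivAt_qsum {V : ℝ → ℕ → ℝ} {V' : ℕ → ℝ} {w : ℝ → ℝ} {w' s : ℝ}
    (hV : ∀ i, HasDerivAt (fun s => V s i) (V' i) s) (hw : HasDerivAt w w' s)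
    (S : List ER.Con) :
    HasDerivAt (fun s => qsum (V s) (w s) S) (dqsum (V s) V' (w s) w' S) s := by
  induction S with
  | nil => simpa using hasDerivAt_const s (0 : ℝ)
  | cons c S ih =>
    simp only [qsum_cons, dqsum_cons]
    refine HasDerivAt.add ?_ ih
    have h1 := (hasDerivAt_cerr hV hw c).pow 2
    refine h1.congr_deriv ?_
    simp

section

variable {n m : ℕ} (loc : ℕ → Fin n ⊕ (Fin 0 ⊕ Fin m)) (S : List ER.Con)

/-- The values. -/
def gV (N : ℝ) (x : Fin n → ℝ) (y : Fin (m + 1) → ℝ) : ℕ → ℝ :=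
  pick loc (fun j => N * y 0 ^ 2 * x j) Fin.elim0 fun j => y j.succ

/-- The shifted function. -/
def gF (N : ℝ) (κ : ℕ) (δ : ℝ) (x : Fin n → ℝ) (y : Fin (m + 1) → ℝ) : ℝ :=
  GG loc S N κ x y + δ

/-- The derivatives in the directions of `x`. -/
def gX (N : ℝ) (i : Fin n) (x : Fin n → ℝ) (y : Fin (m + 1) → ℝ) : ℝ :=
  N * dqsum (gV loc N x y)
    (pick loc (fun j => if j = i then N * y 0 ^ 2 else 0) Fin.elim0 fun _ => 0) (y 0 ^ 2) 0 S

/-- The derivatives in the directions of `y`; `U` is the power. -/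
def gYU (N : ℝ) (κ : ℕ) (U : ℝ) (i : Fin (m + 1)) (x : Fin n → ℝ) (y : Fin (m + 1) → ℝ) : ℝ :=
  Fin.cases (N * dqsum (gV loc N x y)
      (pick loc (fun j => 2 * N * y 0 * x j) Fin.elim0 fun _ => 0) (y 0 ^ 2) (2 * y 0) S -
      2 ^ κ * U * (2 * y 0))
    (fun k => N * dqsum (gV loc N x y)
      (pick loc (fun _ => 0) Fin.elim0 fun j => if j = k then 1 else 0) (y 0 ^ 2) 0 S) i

/-- The derivatives in the directions of `y`. -/
def gY (N : ℝ) (κ : ℕ) (i : Fin (m + 1)) (x : Fin n → ℝ) (y : Fin (m + 1) → ℝ) : ℝ :=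
  gYU loc S N κ ((y 0 ^ 2) ^ (2 ^ κ - 1)) i x y

theorem pick_sum {ι : Type} (s : Finset ι) (a : ι → ℝ) (X : ι → Fin n → ℝ)
    (Z : ι → Fin m → ℝ) (p : ℕ) :
    ∑ i ∈ s, a i * pick loc (X i) Fin.elim0 (Z i) p =
      pick loc (fun j => ∑ i ∈ s, a i * X i j) Fin.elim0 (fun j => ∑ i ∈ s, a i * Z i j) p := by
  unfold pick
  rcases loc p with j | j | j
  · rfl
  · exact j.elim0
  · rfl

theorem hasDerivAt_pick {X : ℝ → Fin n → ℝ} {X' : Fin n → ℝ} {Z : ℝ → Fin m → ℝ}
    {Z' : Fin m → ℝ} {s : ℝ} (hX : ∀ i, HasDerivAt (fun s => X s i) (X' i) s)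
    (hZ : ∀ i, HasDerivAt (fun s => Z s i) (Z' i) s) (p : ℕ) :
    HasDerivAt (fun s => pick loc (X s) Fin.elim0 (Z s) p) (pick loc X' Fin.elim0 Z' p) s := by
  unfold pick
  rcases loc p with j | j | j
  · exact hX j
  · exact j.elim0
  · exact hZ j

theorem hasDerivAt_gF_x (N : ℝ) (κ : ℕ) (δ : ℝ) (x : Fin n → ℝ) (y : Fin (m + 1) → ℝ)
    (d : Fin n → ℝ) (s : ℝ) :
    HasDerivAt (fun s : ℝ => gF loc S N κ δ (x + s • d) y)
      (∑ i, d i * gX loc S N i (x + s • d) y) s := by
  have hX : ∀ j, HasDerivAt (fun s : ℝ => N * y 0 ^ 2 * (x + s • d) j) (N * y 0 ^ 2 * d j) s := by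
    intro j
    have h1 : HasDerivAt (fun s : ℝ => x j + s * d j) (1 * d j) s :=
      ((hasDerivAt_id s).mul_const (d j)).const_add (x j)
    rw [one_mul] at h1
    exact h1.const_mul (N * y 0 ^ 2)
  have h1 := hasDerivAt_qsum (V := fun s => pick loc (fun j => N * y 0 ^ 2 * (x + s • d) j)
    Fin.elim0 fun j => y j.succ) (V' := pick loc (fun j => N * y 0 ^ 2 * d j) Fin.elim0 fun _ => 0)
    (w := fun _ => y 0 ^ 2) (w' := 0) (s := s)
    (fun p => hasDerivAt_pick loc hX (Z := fun _ j => y j.succ)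
      (fun i => hasDerivAt_const s _) p)
    (hasDerivAt_const s _) S
  have h2 := ((h1.const_mul N).sub_const ((y 0 ^ 2) ^ 2 ^ κ)).add_const δ
  refine h2.congr_deriv ?_
  simp only [gX, gV]
  have h3 : ∑ i, d i * (N * dqsum (pick loc (fun j => N * y 0 ^ 2 * (x + s • d) j) Fin.elim0
      fun j => y j.succ) (pick loc (fun j => if j = i then N * y 0 ^ 2 else 0) Fin.elim0
      fun _ => 0) (y 0 ^ 2) 0 S) = N * ∑ i, d i * dqsum (pick loc (fun j => N * y 0 ^ 2 *
      (x + s • d) j) Fin.elim0 fun j => y j.succ) (pick loc (fun j => if j = i then N * y 0 ^ 2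
      else 0) Fin.elim0 fun _ => 0) (y 0 ^ 2) 0 S := by
    rw [Finset.mul_sum]
    exact Finset.sum_congr rfl fun i _ => by ring
  rw [h3, ← dqsum_sum univ d _ (fun i => pick loc (fun j => if j = i then N * y 0 ^ 2 else 0)
    Fin.elim0 fun _ => 0) (y 0 ^ 2) (fun _ => 0) S]
  congr 2
  · funext p
    rw [pick_sum]
    congr 1
    · funext j
      simp [mul_comm]
    · funext j
      simp
  · simp

theorem hasDerivAt_gF_y (N : ℝ) (κ : ℕ) (δ : ℝ) (x : Fin n → ℝ) (y : Fin (m + 1) → ℝ)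
    (i : Fin (m + 1)) (s : ℝ) :
    HasDerivAt (fun s : ℝ => gF loc S N κ δ x (Function.update y i s))
      (gY loc S N κ i x (Function.update y i s)) s := by
  have hY : ∀ j, HasDerivAt (fun s : ℝ => Function.update y i s j) (if j = i then 1 else 0) s := by
    intro j
    by_cases h : j = i
    · subst h
      simp only [Function.update_self, if_true]
      exact hasDerivAt_id s
    · simp only [Function.update_of_ne h, if_neg h]
      exact hasDerivAt_const s _
  have hw : HasDerivAt (fun s : ℝ => Function.update y i s 0 ^ 2)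
      (2 * Function.update y i s 0 * (if (0 : Fin (m + 1)) = i then 1 else 0)) s := by
    have h1 := (hY 0).pow 2
    refine h1.congr_deriv ?_
    simp
  have hX : ∀ j, HasDerivAt (fun s : ℝ => N * Function.update y i s 0 ^ 2 * x j)
      (N * (2 * Function.update y i s 0 * (if (0 : Fin (m + 1)) = i then 1 else 0)) * x j) s :=
    fun j => (hw.const_mul N).mul_const (x j)
  have h1 := hasDerivAt_qsum (V := fun s => pick loc
    (fun j => N * Function.update y i s 0 ^ 2 * x j)
    Fin.elim0 fun j => Function.update y i s j.succ)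
    (V' := pick loc (fun j => N * (2 * Function.update y i s 0 *
      (if (0 : Fin (m + 1)) = i then 1 else 0)) * x j) Fin.elim0
      fun j => if j.succ = i then 1 else 0) (s := s)
    (fun p => hasDerivAt_pick loc hX (Z := fun s j => Function.update y i s j.succ)
      (fun j => hY j.succ) p) hw S
  have h2 := ((h1.const_mul N).sub (hw.pow (2 ^ κ))).add_const δ
  refine h2.congr_deriv ?_
  simp only [gY, gYU, gV]
  refine Fin.cases ?_ (fun k => ?_) i
  · simp only [Fin.cases_zero, if_true, mul_one]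
    congr 1
    · congr 2
      congr 1
      · funext j
        ring
    · push_cast
      ring
  · have h3 : ¬ (0 : Fin (m + 1)) = k.succ := (Fin.succ_ne_zero k).symm
    simp only [Fin.cases_succ, if_neg h3, mul_zero, zero_mul, sub_zero, Fin.succ_inj]

end

end Run7.h470.Iso
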