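import Pool.Agent.Run7.h470.Iso.Defs

/-! Piece J of the project MP_47d501_lc (helper470). -/

set_option autoImplicit false

namespace Pool.Agent.Run7.h24.J470

open Run7.h470.Iso Polynomial

/-- a direction in which the points have different projections -/
theorem exists_dir {M K R k : ℕ} (hk : k ≤ K) (hR : M * K ^ 2 < R) (y : Fin k → Fin M → ℝ)
    (hy : Function.Injective y) :
    ∃ r : Fin R, ∀ j j', j ≠ j' → lin (r : ℕ) (y j) ≠ lin (r : ℕ) (y j') := by
  classical
  let q : Fin k → Fin k → ℝ[X] := fun j j' => ∑ i : Fin M, C (y j i - y j' i) * X ^ (i : ℕ)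
  have hcoef : ∀ j j' (i : Fin M), (q j j').coeff (i : ℕ) = y j i - y j' i := by
    intro j j' i
    simp only [q, finsetSum_coeff, coeff_C_mul, coeff_X_pow]
    rw [Finset.sum_eq_single i]
    · simp
    · intro i' _ hne
      have : (i : ℕ) ≠ (i' : ℕ) := fun h => hne (Fin.ext h.symm)
      simp [this]
    · simp
  have heval : ∀ j j' (r : ℕ), (q j j').eval (r : ℝ) = lin r (y j) - lin r (y j') := by
    intro j j' r
    simp only [q, eval_finsetSum, eval_mul, eval_C, eval_pow, eval_X, lin]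
    rw [← Finset.sum_sub_distrib]
    apply Finset.sum_congr rfl
    intro i _
    ring
  have hne : ∀ j j', j ≠ j' → q j j' ≠ 0 := by
    intro j j' hjj h0
    apply hjj
    apply hy
    funext i
    have := hcoef j j' i
    rw [h0, coeff_zero] at this
    linarith
  have hdeg : ∀ j j', (q j j').natDegree ≤ M := by
    intro j j'
    apply natDegree_sum_le_of_forall_le
    intro i _
    refine (natDegree_C_mul_X_pow_le _ _).trans i.2.le
  let B : Finset ℝ := (Finset.univ : Finset (Fin k × Fin k)).biUnion fun p => (q p.1 p.2).roots.toFinset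
  have hB : B.card ≤ M * K ^ 2 := by
    calc B.card ≤ ∑ p : Fin k × Fin k, ((q p.1 p.2).roots.toFinset).card := Finset.card_biUnion_le
      _ ≤ ∑ _p : Fin k × Fin k, M := by
        apply Finset.sum_le_sum
        intro p _
        exact (Multiset.toFinset_card_le _).trans ((card_roots' _).trans (hdeg _ _))
      _ = k * k * M := by simp
      _ ≤ M * K ^ 2 := by
        have : k * k ≤ K * K := Nat.mul_le_mul hk hk
        nlinarith
  let I : Finset ℝ := (Finset.univ : Finset (Fin R)).image fun r : Fin R => ((r : ℕ) : ℝ)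
  have hI : I.card = R := by
    rw [Finset.card_image_of_injective _ (fun a b h => Fin.ext (by exact_mod_cast h))]
    simp
  obtain ⟨x, hxI, hxB⟩ := Finset.exists_mem_notMem_of_card_lt_card (s := B) (t := I) (by omega)
  obtain ⟨r, -, rfl⟩ := Finset.mem_image.1 hxI
  refine ⟨r, fun j j' hjj h => hxB ?_⟩
  refine Finset.mem_biUnion.2 ⟨(j, j'), Finset.mem_univ _, ?_⟩
  rw [Multiset.mem_toFinset, mem_roots (hne j j' hjj), IsRoot.def, heval, h, sub_self]

theorem fullJets {M K R k : ℕ} (hk : k ≤ K) (hR : M * K ^ 2 < R) :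
    FullJets (pP : Gam M K R → (Fin M → ℝ) → ℝ) dP k := by
  classical
  intro y hy v w
  obtain ⟨r, hr⟩ := exists_dir hk hR y hy
  let τ : Fin k → ℝ := fun j => lin (r : ℕ) (y j)
  let P : Fin k → ℝ[X] := fun j => ∏ j2 ∈ Finset.univ.erase j, (X - C (τ j2)) ^ 2
  have hPdeg : ∀ j, (P j).natDegree < 2 * K := by
    intro j
    have h1 : (P j).natDegree ≤ ∑ j2 ∈ Finset.univ.erase j, 2 := by
      refine (natDegree_prod_le _ _).trans (Finset.sum_le_sum fun j2 _ => ?_)
      refine (natDegree_pow_le).trans ?_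
      rw [natDegree_X_sub_C]
    rw [Finset.sum_const, Finset.card_erase_of_mem (Finset.mem_univ _), Finset.card_univ,
      Fintype.card_fin, smul_eq_mul] at h1
    have := j.2
    omega
  have hPj : ∀ j, (P j).eval (τ j) ≠ 0 := by
    intro j
    rw [eval_prod, Finset.prod_ne_zero_iff]
    intro j2 hj2
    have h1 : j2 ≠ j := Finset.ne_of_mem_erase hj2
    rw [eval_pow, eval_sub, eval_X, eval_C]
    exact pow_ne_zero _ (sub_ne_zero.2 (hr j j2 h1.symm))
  have hfac : ∀ j j2, j2 ≠ j → ∃ Q : ℝ[X], P j = (X - C (τ j2)) ^ 2 * Q := by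
    intro j j2 h
    exact Finset.dvd_prod_of_mem (fun j2 => (X - C (τ j2)) ^ 2)
      (Finset.mem_erase.2 ⟨h, Finset.mem_univ j2⟩)
  have hP0 : ∀ j j2, j2 ≠ j → (P j).eval (τ j2) = 0 := by
    intro j j2 h
    obtain ⟨Q, hQ⟩ := hfac j j2 h
    rw [hQ]
    simp
  have hP1 : ∀ j j2, j2 ≠ j → (derivative (P j)).eval (τ j2) = 0 := by
    intro j j2 h
    obtain ⟨Q, hQ⟩ := hfac j j2 h
    rw [hQ]
    simp [derivative_mul, derivative_pow]
  -- coefficients
  let b : Fin k → ℝ := fun j => v j / (P j).eval (τ j)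
  let g : Fin k → Fin M → ℝ := fun j i =>
    (w j i - b j * (derivative (P j)).eval (τ j) * ((r : ℕ) : ℝ) ^ (i : ℕ)) / (P j).eval (τ j)
  let A : Fin k → Option (Fin M) → ℝ := fun j o =>
    o.elim (b j - ∑ i, g j i * y j i) (fun i => g j i)
  have hAval : ∀ j, ∑ o, A j o * hat o (y j) = b j := by
    intro j
    rw [Fintype.sum_option]
    simp [A, hat]
  have hAd : ∀ j i, ∑ o, A j o * dhat o i = g j i := by
    intro j i
    rw [Fintype.sum_option]
    simp [A, dhat]
  let c : Gam M K R → ℝ := fun γ =>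
    if γ.1 = r then ∑ j, (P j).coeff (γ.2.1 : ℕ) * A j γ.2.2 else 0
  have hsum : ∀ (F : ℕ → Option (Fin M) → ℝ) (G : Gam M K R → ℝ),
      (∀ l o, G (r, l, o) = F (l : ℕ) o) →
      ∑ γ, c γ * G γ = ∑ j, ∑ l : Fin (2 * K), ∑ o, (P j).coeff (l : ℕ) * A j o * F l o := by
    intro F G hG
    rw [Fintype.sum_prod_type, Finset.sum_eq_single r]
    · calc ∑ x : Fin (2 * K) × Option (Fin M), c (r, x) * G (r, x)
          = ∑ x : Fin (2 * K) × Option (Fin M), ∑ j, (P j).coeff (x.1 : ℕ) * A j x.2 * F x.1 x.2 := by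
            apply Finset.sum_congr rfl
            intro x _
            rw [← hG x.1 x.2, ← Finset.sum_mul]
            simp [c]
        _ = ∑ j, ∑ x : Fin (2 * K) × Option (Fin M), (P j).coeff (x.1 : ℕ) * A j x.2 * F x.1 x.2 :=
            Finset.sum_comm
        _ = _ := by
            apply Finset.sum_congr rfl
            intro j _
            rw [Fintype.sum_prod_type]
    · intro ρ _ hρ
      apply Finset.sum_eq_zero
      intro x _
      simp [c, hρ]
    · simp
  have hev : ∀ j (x : ℝ), ∑ l : Fin (2 * K), (P j).coeff (l : ℕ) * x ^ (l : ℕ) = (P j).eval x := by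
    intro j x
    rw [eval_eq_sum_range' (hPdeg j), Finset.sum_range]
  have hdv : ∀ j (x : ℝ), ∑ l : Fin (2 * K), (P j).coeff (l : ℕ) * ((l : ℕ) * x ^ ((l : ℕ) - 1)) =
      (derivative (P j)).eval x := by
    intro j x
    rw [derivative_eval, sum_over_range' _ (by simp) _ (hPdeg j), Finset.sum_range]
    apply Finset.sum_congr rfl
    intro l _
    ring
  refine ⟨c, fun j₀ => ⟨?_, fun i => ?_⟩⟩
  · rw [hsum (fun l o => hat o (y j₀) * τ j₀ ^ l) (fun γ => pP γ (y j₀)) (fun l o => rfl)]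
    have h1 : ∀ j, ∑ l : Fin (2 * K), ∑ o, (P j).coeff (l : ℕ) * A j o *
        (hat o (y j₀) * τ j₀ ^ (l : ℕ)) = (P j).eval (τ j₀) * ∑ o, A j o * hat o (y j₀) := by
      intro j
      rw [← hev, Finset.sum_mul_sum]
      apply Finset.sum_congr rfl
      intro l _
      apply Finset.sum_congr rfl
      intro o _
      ring
    simp only [h1]
    rw [Finset.sum_eq_single j₀]
    · rw [hAval]
      exact mul_div_cancel₀ _ (hPj j₀)
    · intro j _ hj
      rw [hP0 j j₀ (Ne.symm hj), zero_mul]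
    · simp
  · rw [hsum (fun l o => dhat o i * τ j₀ ^ l + hat o (y j₀) * ((l : ℝ) * τ j₀ ^ (l - 1) *
      ((r : ℕ) : ℝ) ^ (i : ℕ))) (fun γ => dP γ i (y j₀)) (fun l o => rfl)]
    have h1 : ∀ j, ∑ l : Fin (2 * K), ∑ o, (P j).coeff (l : ℕ) * A j o *
        (dhat o i * τ j₀ ^ (l : ℕ) + hat o (y j₀) * (((l : ℕ) : ℝ) * τ j₀ ^ ((l : ℕ) - 1) *
          ((r : ℕ) : ℝ) ^ (i : ℕ))) = (P j).eval (τ j₀) * g j i +
          (derivative (P j)).eval (τ j₀) * (((r : ℕ) : ℝ) ^ (i : ℕ) * ∑ o, A j o * hat o (y j₀)) := by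
      intro j
      rw [← hev, ← hdv, ← hAd, Finset.sum_mul_sum, Finset.mul_sum (a := ((r : ℕ) : ℝ) ^ (i : ℕ)),
        Finset.sum_mul_sum, ← Finset.sum_add_distrib]
      apply Finset.sum_congr rfl
      intro l _
      rw [← Finset.sum_add_distrib]
      apply Finset.sum_congr rfl
      intro o _
      ring
    simp only [h1]
    rw [Finset.sum_eq_single j₀]
    · rw [hAval]
      have := hPj j₀
      simp only [g]
      field_simp
      ring
    · intro j _ hj
      rw [hP0 j j₀ (Ne.symm hj), hP1 j j₀ (Ne.symm hj), zero_mul, zero_mul, zero_add]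
    · simp

end Pool.Agent.Run7.h24.J470
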