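import Pool.Agent.Run7.h470.Iso.Sem3
import Pool.Agent.Run7.h470.Iso.Bnd
import Pool.Agent.Run7.h470.Iso.J

/-!
# The perturbations of the reduction
-/

set_option autoImplicit false

namespace Pool.Agent.NPC.H470Iso

open Pool.Agent.NPC Pool.Agent.NPC.ER Pool.Agent.NPC.H612 Pool.Agent.NPC.R537HD
open Pool.Agent.R537.RN (pick qsum cerr cube pick_scale qsum_scale)
open Run7.h470.Iso (kA kB kC lin gV gF gX gY gYU dqsum dcerr Wit pf pfx pfy GG FullJets Gam pP dP
  hat dhat PolyLE)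

theorem mul_add_mod_lt {a b c : ℕ} (h : c < b) : (a * b + c) % b = c := by
  rw [Nat.add_comm, Nat.add_mul_mod_self_right, Nat.mod_eq_of_lt h]

/-- Transfer of the prescription of jets. -/
theorem fullJets_map {M k : ℕ} {Γ Γ' : Type} [Fintype Γ] [Fintype Γ']
    {q : Γ → (Fin M → ℝ) → ℝ} {dq : Γ → Fin M → (Fin M → ℝ) → ℝ}
    {q' : Γ' → (Fin M → ℝ) → ℝ} {dq' : Γ' → Fin M → (Fin M → ℝ) → ℝ} (φ : Γ → Γ')
    (h1 : ∀ γ y, q' (φ γ) y = q γ y) (h2 : ∀ γ i y, dq' (φ γ) i y = dq γ i y)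
    (h : FullJets q dq k) : FullJets q' dq' k := by
  classical
  intro y hy a w
  obtain ⟨c, hc⟩ := h y hy a w
  have key : ∀ (f : Γ → ℝ) (f' : Γ' → ℝ), (∀ γ, f' (φ γ) = f γ) →
      ∑ γ', (∑ γ, if φ γ = γ' then c γ else 0) * f' γ' = ∑ γ, c γ * f γ := by
    intro f f' hf
    simp only [Finset.sum_mul]
    rw [Finset.sum_comm]
    refine Finset.sum_congr rfl fun γ _ => ?_
    rw [Finset.sum_eq_single (φ γ)]
    · rw [if_pos rfl, hf]
    · intro γ' _ hne
      rw [if_neg (Ne.symm hne), zero_mul]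
    · intro hn; exact absurd (Finset.mem_univ _) hn
  refine ⟨fun γ' => ∑ γ, if φ γ = γ' then c γ else 0, fun j => ⟨?_, fun i => ?_⟩⟩
  · rw [key (fun γ => q γ (y j)) _ fun γ => h1 γ (y j)]
    exact (hc j).1
  · rw [key (fun γ => dq γ i (y j)) _ fun γ => h2 γ i (y j)]
    exact (hc j).2 i

section

variable (p : List ℕ × Fm)

theorem qK_pos : 0 < qK p := Nat.succ_pos _

/-- The number of an option. -/
def onum {M : ℕ} (o : Option (Fin M)) : ℕ := o.elim 0 fun i => (i : ℕ) + 1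

theorem onum_lt {M : ℕ} (o : Option (Fin M)) : onum o < M + 1 := by
  cases o with
  | none => exact Nat.succ_pos _
  | some i => exact Nat.succ_lt_succ i.2

/-- The number of a perturbation. -/
def gnum (γ : Gam (qm p + 1) (qK p) (qR p)) : Fin (qG p) :=
  ⟨(γ.1 : ℕ) * (2 * qK p * (qM p + 1)) + ((γ.2.1 : ℕ) * (qM p + 1) + onum γ.2.2), by
    unfold qG
    exact two_dim_lt γ.1.2 (two_dim_lt γ.2.1.2 (onum_lt _))⟩

theorem gnum_mod (γ : Gam (qm p + 1) (qK p) (qR p)) :
    ((gnum p γ : Fin (qG p)) : ℕ) % (qM p + 1) = onum γ.2.2 := by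
  have h : onum γ.2.2 < qM p + 1 := onum_lt _
  unfold gnum
  simp only
  rw [← mul_assoc, ← add_assoc, ← Nat.add_mul, mul_add_mod_lt h]

theorem gnum_ee (γ : Gam (qm p + 1) (qK p) (qR p)) : ee p (gnum p γ) = γ.2.1 := by
  have h : onum γ.2.2 < qM p + 1 := onum_lt _
  unfold ee gnum
  simp only
  rw [← mul_assoc, ← add_assoc, ← Nat.add_mul, Nat.add_div_of_dvd_right (Dvd.intro_left _ rfl),
    Nat.mul_div_cancel _ (Nat.succ_pos _), Nat.div_eq_of_lt h, add_zero,
    mul_add_mod_lt γ.2.1.2]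

theorem gnum_rr (γ : Gam (qm p + 1) (qK p) (qR p)) : rr p (gnum p γ) = γ.1 := by
  have h : (γ.2.1 : ℕ) * (qM p + 1) + onum γ.2.2 < 2 * qK p * (qM p + 1) :=
    two_dim_lt γ.2.1.2 (onum_lt _)
  unfold rr gnum
  simp only
  rw [Nat.add_div_of_dvd_right (Dvd.intro_left _ rfl),
    Nat.mul_div_cancel _ (by have := qK_pos p; positivity), Nat.div_eq_of_lt h, add_zero]

theorem hatn_onum (o : Option (Fin (qm p + 1))) (y : Fin (qm p + 1) → ℝ) :
    hatn p (onum o) y = hat o y := by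
  cases o with
  | none => simp [hatn, onum, hat]
  | some i =>
    unfold hatn onum hat
    simp only [Option.elim]
    rw [dif_pos ⟨Nat.succ_pos _, by have := i.2; omega⟩]
    congr 1

theorem fullJets_pq {k : ℕ} (hk : k ≤ qK p) : FullJets (pq p) (dpq p) k := by
  have h0 : FullJets (pP : Gam (qm p + 1) (qK p) (qR p) → (Fin (qm p + 1) → ℝ) → ℝ) dP k :=
    Pool.Agent.Run7.h24.J470.fullJets hk (by unfold qR qM; rw [pow_two]; exact Nat.lt_succ_self _)
  refine fullJets_map (gnum p) ?_ ?_ h0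
  · intro γ y
    unfold pq pP
    rw [gnum_mod, gnum_ee, gnum_rr, hatn_onum]
  · intro γ i y
    unfold dpq dP
    rw [gnum_mod, gnum_ee, gnum_rr, hatn_onum]
    congr 2
    unfold dhat onum
    cases γ.2.2 with
    | none => simp
    | some i' =>
      simp only [Option.elim, add_left_inj, Option.some.injEq, Fin.ext_iff]

/-! ### Degrees -/

theorem ee_lt (q : ℕ) : ee p q < 2 * qK p := Nat.mod_lt _ (by have := qK_pos p; omega)

theorem deg_hatn (o : ℕ) : PolyLE 1 fun y : Fin (qm p + 1) → ℝ => hatn p o y := by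
  unfold hatn
  split_ifs
  · exact PolyLE.coord _
  · exact (PolyLE.const 1).mono (by omega)

theorem deg_lin (r : ℕ) : PolyLE 1 fun y : Fin (qm p + 1) → ℝ => lin r y := by
  unfold lin
  exact PolyLE.sum fun i _ => ((PolyLE.const _).mul (PolyLE.coord i)).mono (by omega)

theorem deg_pq (q : Fin (qG p)) : PolyLE (dd p) (pq p q) := by
  have h := ee_lt p q
  refine ((deg_hatn p _).mul ((deg_lin p _).pow (ee p q))).mono ?_
  unfold dd; omega

theorem deg_dpq (q : Fin (qG p)) (i : Fin (qm p + 1)) : PolyLE (dd p) (dpq p q i) := by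
  have h := ee_lt p q
  refine PolyLE.add ?_ ?_
  · refine ((PolyLE.const _).mul ((deg_lin p _).pow (ee p q))).mono ?_
    unfold dd; omega
  · refine ((deg_hatn p _).mul (((PolyLE.const _).mul ((deg_lin p _).pow (ee p q - 1))).mul
      (PolyLE.const _))).mono ?_
    unfold dd; omega

/-! ### The derivatives -/

theorem hasDerivAt_hatn (o : ℕ) (ho : o < qm p + 2) (y : Fin (qm p + 1) → ℝ)
    (i : Fin (qm p + 1)) (s : ℝ) :
    HasDerivAt (fun s : ℝ => hatn p o (Function.update y i s)) (if o = (i : ℕ) + 1 then 1 else 0)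
      s := by
  unfold hatn
  by_cases h0 : 0 < o ∧ o < qm p + 2
  · simp only [dif_pos h0]
    by_cases h : o = (i : ℕ) + 1
    · have h1 : (⟨o - 1, by omega⟩ : Fin (qm p + 1)) = i := Fin.ext (by simp [h])
      rw [h1, if_pos h]
      simp only [Function.update_self]
      exact hasDerivAt_id s
    · have h1 : (⟨o - 1, by omega⟩ : Fin (qm p + 1)) ≠ i := fun h2 => h (by
        rw [← h2]; simp only; omega)
      rw [if_neg h]
      simp only [Function.update_of_ne h1]
      exact hasDerivAt_const s _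
  · simp only [dif_neg h0]
    rw [if_neg (by have := i.2; omega)]
    exact hasDerivAt_const s _

theorem hasDerivAt_lin {M : ℕ} (r : ℕ) (y : Fin M → ℝ) (i : Fin M) (s : ℝ) :
    HasDerivAt (fun s : ℝ => lin r (Function.update y i s)) ((r : ℝ) ^ (i : ℕ)) s := by
  unfold lin
  have h1 : ∀ j ∈ (Finset.univ : Finset (Fin M)), HasDerivAt
      (fun s : ℝ => (r : ℝ) ^ (j : ℕ) * Function.update y i s j)
      ((r : ℝ) ^ (j : ℕ) * (if j = i then 1 else 0)) s := by
    intro j _
    refine HasDerivAt.const_mul _ ?_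
    by_cases h : j = i
    · subst h
      simp only [Function.update_self, if_true]
      exact hasDerivAt_id s
    · simp only [Function.update_of_ne h, if_neg h]
      exact hasDerivAt_const s _
  refine (HasDerivAt.fun_sum h1).congr_deriv ?_
  simp

theorem hasDerivAt_pq (q : Fin (qG p)) (y : Fin (qm p + 1) → ℝ)
    (i : Fin (qm p + 1)) (s : ℝ) :
    HasDerivAt (fun s : ℝ => pq p q (Function.update y i s))
      (dpq p q i (Function.update y i s)) s := by
  have h1 := hasDerivAt_hatn p ((q : ℕ) % (qM p + 1)) (Nat.mod_lt _ (Nat.succ_pos _)) y i s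
  have h2 := (hasDerivAt_lin (rr p q) y i s).pow (ee p q)
  exact h1.mul h2

end

/-! ### Binary digits -/

theorem sum_bits (x L : ℕ) : ∑ i ∈ Finset.range L, 2 ^ i * ((x / 2 ^ i) % 2) = x % 2 ^ L := by
  induction L with
  | zero => simp [Nat.mod_one]
  | succ L ih => rw [Finset.sum_range_succ, ih, Nat.mod_pow_succ]

theorem sum_bits_real {x L : ℕ} (h : x < 2 ^ L) :
    ∑ i ∈ Finset.range L, (2 : ℝ) ^ i * (((x / 2 ^ i) % 2 : ℕ) : ℝ) = x := by
  have h1 := sum_bits x L
  rw [Nat.mod_eq_of_lt h] at h1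
  have h2 := congrArg (Nat.cast : ℕ → ℝ) h1
  rw [← h2]
  push_cast
  rfl

end Pool.Agent.NPC.H470Iso
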