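import Pool.Agent.Run7.h470.Iso.Defs

/-!
# Piece K: the first-order conditions for a max-min
-/

set_option autoImplicit false

namespace Pool.Agent.Run7.h24.K470

open Finset Filter Topology
open Pool.Agent.R537.RN Run7.h470.Iso

/-- The convex hull of a compact set in a finite-dimensional space is compact. -/
theorem isCompact_convexHull {E : Type*} [NormedAddCommGroup E] [NormedSpace ℝ E]
    [FiniteDimensional ℝ E] {K : Set E} (hK : IsCompact K) : IsCompact (convexHull ℝ K) := by
  classical
  rcases K.eq_empty_or_nonempty with rfl | ⟨a0, ha0⟩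
  · simp
  set m := Module.finrank ℝ E + 1 with hm
  have himg : convexHull ℝ K = (fun q : (Fin m → ℝ) × (Fin m → E) => ∑ i, q.1 i • q.2 i) ''
      (stdSimplex ℝ (Fin m) ×ˢ Set.univ.pi fun _ => K) := by
    apply Set.Subset.antisymm
    · intro x hx
      obtain ⟨ι, hι, z, w, hz, haff, hw, hw1, hsum⟩ := eq_pos_convex_span_of_mem_convexHull hx
      have hcard : Fintype.card ι ≤ m := by
        have h1 := haff.card_le_finrank_succ
        have h2 : Module.finrank ℝ (vectorSpan ℝ (Set.range z)) ≤ Module.finrank ℝ E :=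
          Submodule.finrank_le _
        omega
      obtain ⟨e⟩ : Nonempty (ι ↪ Fin m) := by
        apply Function.Embedding.nonempty_of_card_le
        simpa using hcard
      refine ⟨(fun j => if h : ∃ i, e i = j then w h.choose else 0,
        fun j => if h : ∃ i, e i = j then z h.choose else a0), ⟨⟨?_, ?_⟩, ?_⟩, ?_⟩
      · intro j
        dsimp only
        split_ifs with h
        · exact (hw _).le
        · exact le_rfl
      · dsimp only
        have : ∀ j ∈ (univ : Finset (Fin m)), j ∉ univ.map e →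
            (if h : ∃ i, e i = j then w h.choose else 0) = 0 := by
          intro j _ hj
          rw [dif_neg]
          rintro ⟨i, hi⟩
          exact hj (by simp [← hi])
        rw [← sum_subset (subset_univ (univ.map e)) this, sum_map, ← hw1]
        apply sum_congr rfl
        intro i _
        have h : ∃ i', e i' = e i := ⟨i, rfl⟩
        rw [dif_pos h]
        rw [e.injective h.choose_spec]
      · intro j _
        dsimp only
        split_ifs with h
        · exact hz ⟨_, rfl⟩
        · exact ha0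
      · dsimp only
        have : ∀ j ∈ (univ : Finset (Fin m)), j ∉ univ.map e →
            (if h : ∃ i, e i = j then w h.choose else 0) •
              (if h : ∃ i, e i = j then z h.choose else a0) = 0 := by
          intro j _ hj
          rw [dif_neg, zero_smul]
          rintro ⟨i, hi⟩
          exact hj (by simp [← hi])
        rw [← sum_subset (subset_univ (univ.map e)) this, sum_map, ← hsum]
        apply sum_congr rfl
        intro i _
        have h : ∃ i', e i' = e i := ⟨i, rfl⟩
        rw [dif_pos h, dif_pos h]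
        rw [e.injective h.choose_spec]
    · rintro _ ⟨⟨w, z⟩, ⟨⟨hw, hw1⟩, hz⟩, rfl⟩
      exact (convex_convexHull ℝ K).sum_mem (fun i _ => hw i) hw1
        fun i _ => subset_convexHull ℝ K (hz i trivial)
  rw [himg]
  apply IsCompact.image
  · exact (isCompact_stdSimplex ℝ (Fin m)).prod (isCompact_univ_pi fun _ => hK)
  · fun_prop

theorem cube_nonempty (N : ℕ) : (cube N).Nonempty := ⟨0, fun j => by simp⟩

/-- Small motions in the free directions stay in the cube. -/
theorem eventually_mem_cube {n : ℕ} {x : Fin n → ℝ} (hx : x ∈ cube n) {d : Fin n → ℝ}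
    (hd : ∀ i, ¬ |x i| < 1 → d i = 0) : ∀ᶠ h : ℝ in 𝓝 0, x + h • d ∈ cube n := by
  refine eventually_all.2 fun i => ?_
  by_cases hi : |x i| < 1
  · have hc : Continuous fun h : ℝ => |x i + h * d i| := by fun_prop
    have h0 : (fun h : ℝ => |x i + h * d i|) 0 < 1 := by simpa using hi
    filter_upwards [hc.continuousAt.eventually_lt continuousAt_const h0] with h hh
    simpa using hh.le
  · filter_upwards with h
    simpa [hd i hi] using hx i

/-- In every free direction some active function does not grow. -/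
theorem exists_active {n M : ℕ} (f : (Fin n → ℝ) → (Fin M → ℝ) → ℝ)
    (fx : Fin n → (Fin n → ℝ) → (Fin M → ℝ) → ℝ)
    (hf : Continuous fun q : (Fin n → ℝ) × (Fin M → ℝ) => f q.1 q.2)
    (hfx : ∀ i, Continuous fun q : (Fin n → ℝ) × (Fin M → ℝ) => fx i q.1 q.2)
    (hdx : ∀ (x : Fin n → ℝ) (y : Fin M → ℝ) (d : Fin n → ℝ) (s : ℝ),
      HasDerivAt (fun s : ℝ => f (x + s • d) y) (∑ i, d i * fx i (x + s • d) y) s)
    {x : Fin n → ℝ} (hx : x ∈ cube n) {t : ℝ}
    (ht : ∀ y ∈ cube M, t ≤ f x y) (hmax : ∀ x' ∈ cube n, ∃ y ∈ cube M, f x' y ≤ t)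
    (d : Fin n → ℝ) (hd : ∀ i, ¬ |x i| < 1 → d i = 0) :
    ∃ y ∈ cube M, f x y = t ∧ ∑ i, d i * fx i x y ≤ 0 := by
  classical
  -- a sequence of step sizes
  obtain ⟨h, hanti, hpos, hlim⟩ : ∃ h : ℕ → ℝ, StrictAnti h ∧ (∀ N, 0 < h N) ∧
      Tendsto h atTop (𝓝 0) := by
    obtain ⟨h, h1, h2, h3⟩ := exists_seq_strictAnti_tendsto (0 : ℝ)
    exact ⟨h, h1, h2, h3⟩
  have hev : ∀ᶠ N in atTop, x + h N • d ∈ cube n := hlim.eventually (eventually_mem_cube hx hd)
  obtain ⟨N0, hN0⟩ := eventually_atTop.1 hev
  have hex : ∀ N, ∃ y ∈ cube M, f (x + h (N + N0) • d) y ≤ t ∧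
      ∃ s, 0 < s ∧ s < h (N + N0) ∧ ∑ i, d i * fx i (x + s • d) y ≤ 0 := by
    intro N
    obtain ⟨y, hy, hyt⟩ := hmax _ (hN0 (N + N0) (Nat.le_add_left _ _))
    refine ⟨y, hy, hyt, ?_⟩
    have hp := hpos (N + N0)
    obtain ⟨s, ⟨hs0, hs1⟩, hs⟩ := exists_hasDerivAt_eq_slope (fun s : ℝ => f (x + s • d) y)
      (fun s => ∑ i, d i * fx i (x + s • d) y) hp
      (fun s _ => (hdx x y d s).continuousAt.continuousWithinAt) (fun s _ => hdx x y d s)
    refine ⟨s, hs0, hs1, ?_⟩
    rw [hs]
    apply div_nonpos_of_nonpos_of_nonneg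
    · have := ht y hy
      simp only [zero_smul, add_zero]
      linarith
    · linarith
  choose y hy hyt s hs0 hs1 hs using hex
  obtain ⟨ys, hys, φ, hφ, hφlim⟩ := (isCompact_cube M).tendsto_subseq hy
  have hshift : Tendsto (fun N => h (φ N + N0)) atTop (𝓝 0) :=
    hlim.comp ((tendsto_add_atTop_nat N0).comp hφ.tendsto_atTop)
  have hslim : Tendsto (fun N => s (φ N)) atTop (𝓝 0) :=
    squeeze_zero (fun N => (hs0 (φ N)).le) (fun N => (hs1 (φ N)).le) hshift
  have hx1 : Tendsto (fun N => x + h (φ N + N0) • d) atTop (𝓝 x) := by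
    simpa using (tendsto_const_nhds (x := x)).add (hshift.smul_const d)
  have hx2 : Tendsto (fun N => x + s (φ N) • d) atTop (𝓝 x) := by
    simpa using (tendsto_const_nhds (x := x)).add (hslim.smul_const d)
  refine ⟨ys, hys, le_antisymm ?_ (ht ys hys), ?_⟩
  · have := (hf.tendsto (x, ys)).comp (hx1.prodMk_nhds hφlim)
    exact le_of_tendsto' this fun N => hyt (φ N)
  · have hc : Continuous fun q : (Fin n → ℝ) × (Fin M → ℝ) => ∑ i, d i * fx i q.1 q.2 :=
      continuous_finsetSum _ fun i _ => continuous_const.mul (hfx i)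
    have := (hc.tendsto (x, ys)).comp (hx2.prodMk_nhds hφlim)
    exact le_of_tendsto' this fun N => hs (φ N)

/-- PIECE K: the first-order conditions for a max-min. -/
theorem kkt {n M : ℕ} (f : (Fin n → ℝ) → (Fin M → ℝ) → ℝ)
    (fx : Fin n → (Fin n → ℝ) → (Fin M → ℝ) → ℝ) (fy : Fin M → (Fin n → ℝ) → (Fin M → ℝ) → ℝ)
    (hf : Continuous fun q : (Fin n → ℝ) × (Fin M → ℝ) => f q.1 q.2)
    (hfx : ∀ i, Continuous fun q : (Fin n → ℝ) × (Fin M → ℝ) => fx i q.1 q.2)
    (hdx : ∀ (x : Fin n → ℝ) (y : Fin M → ℝ) (d : Fin n → ℝ) (s : ℝ),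
      HasDerivAt (fun s : ℝ => f (x + s • d) y) (∑ i, d i * fx i (x + s • d) y) s)
    (hdy : ∀ (x : Fin n → ℝ) (y : Fin M → ℝ) (i : Fin M) (s : ℝ),
      HasDerivAt (fun s : ℝ => f x (Function.update y i s)) (fy i x (Function.update y i s)) s)
    (x0 : Fin n → ℝ) (hx0 : x0 ∈ cube n) (δ : ℝ) (h0 : ∀ y ∈ cube M, δ ≤ f x0 y) :
    ∃ k : ℕ, 0 < k ∧ k ≤ n + 1 ∧ ∃ x ∈ cube n, ∃ t : ℝ, δ ≤ t ∧
      ∃ (l : Fin k → ℝ) (y : Fin k → Fin M → ℝ), (∀ j, 0 < l j) ∧ (∀ j, y j ∈ cube M) ∧
        Wit f fx fy x t l y ∧ ∀ y' ∈ cube M, t ≤ f x y' := by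
  classical
  have hcM := isCompact_cube M
  have hfx1 : ∀ x, Continuous (f x) := fun x => by
    have : Continuous fun y : Fin M → ℝ => (x, y) := by fun_prop
    exact hf.comp this
  -- the maximizer
  have hFc : Continuous fun x => sInf (f x '' cube M) := hcM.continuous_sInf (f := f) hf
  obtain ⟨x, hx, hxmax⟩ := (isCompact_cube n).exists_isMaxOn (cube_nonempty n)
    hFc.continuousOn
  have hmin : ∀ x', ∃ y ∈ cube M, sInf (f x' '' cube M) = f x' y ∧
      ∀ y' ∈ cube M, f x' y ≤ f x' y' := fun x' =>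
    hcM.exists_sInf_image_eq_and_le (cube_nonempty M) (hfx1 x').continuousOn
  set t := sInf (f x '' cube M) with ht
  have htle : ∀ y ∈ cube M, t ≤ f x y := by
    obtain ⟨y, -, hy1, hy2⟩ := hmin x
    intro y' hy'
    rw [ht, hy1]
    exact hy2 y' hy'
  have hmax : ∀ x' ∈ cube n, ∃ y ∈ cube M, f x' y ≤ t := by
    intro x' hx'
    obtain ⟨y, hy, hy1, -⟩ := hmin x'
    exact ⟨y, hy, hy1 ▸ hxmax hx'⟩
  have hδ : δ ≤ t := by
    obtain ⟨y, hy, hyt⟩ := hmax x0 hx0
    exact (h0 y hy).trans hyt
  -- the active set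
  set A : Set (Fin M → ℝ) := {y | y ∈ cube M ∧ f x y = t} with hA
  have hAc : IsCompact A := by
    have : A = cube M ∩ {y | f x y = t} := rfl
    rw [this]
    exact hcM.inter_right (isClosed_eq (hfx1 x) continuous_const)
  set G : (Fin M → ℝ) → (Fin n → ℝ) := fun y i => if |x i| < 1 then fx i x y else 0 with hG
  have hGc : Continuous G := by
    refine continuous_pi fun i => ?_
    by_cases hi : |x i| < 1
    · simp only [hG, hi, if_true]
      have : Continuous fun y : Fin M → ℝ => (x, y) := by fun_prop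
      exact (hfx i).comp this
    · simp only [hG, hi, if_false]
      exact continuous_const
  have h0mem : (0 : Fin n → ℝ) ∈ convexHull ℝ (G '' A) := by
    by_contra hcon
    obtain ⟨φ, u, hu0, hu⟩ := geometric_hahn_banach_point_closed (convex_convexHull ℝ (G '' A))
      (isCompact_convexHull (hAc.image hGc)).isClosed hcon
    rw [map_zero] at hu0
    obtain ⟨y, hy, hyt, hyd⟩ := exists_active f fx hf hfx hdx hx htle hmax
      (fun i => if |x i| < 1 then φ (Pi.single i 1) else 0) (fun i hi => if_neg hi)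
    have h1 := hu (G y) (subset_convexHull ℝ _ ⟨y, ⟨hy, hyt⟩, rfl⟩)
    have h2 : φ (G y) = ∑ i, (if |x i| < 1 then φ (Pi.single i 1) else 0) * fx i x y := by
      conv_lhs => rw [← Finset.univ_sum_single (G y)]
      rw [map_sum]
      refine sum_congr rfl fun i _ => ?_
      have h3 : (Pi.single i (G y i) : Fin n → ℝ) = G y i • Pi.single i 1 := by
        rw [← Pi.single_smul, smul_eq_mul, mul_one]
      rw [h3, map_smul, smul_eq_mul]
      by_cases hi : |x i| < 1
      · simp only [hG, hi, if_true]; ring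
      · simp only [hG, hi, if_false]; ring
    linarith
  obtain ⟨ι, hι, z, w, hz, haff, hw, hw1, hsum⟩ := eq_pos_convex_span_of_mem_convexHull h0mem
  have hcard : Fintype.card ι ≤ n + 1 := by
    have h1 := haff.card_le_finrank_succ
    have h2 : Module.finrank ℝ (vectorSpan ℝ (Set.range z)) ≤ Module.finrank ℝ (Fin n → ℝ) :=
      Submodule.finrank_le _
    rw [Module.finrank_fin_fun] at h2
    omega
  have hne : Nonempty ι := by
    by_contra hcon
    rw [not_nonempty_iff] at hcon
    simp at hw1
  have hzA : ∀ a, ∃ y ∈ A, G y = z a := fun a => hz ⟨a, rfl⟩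
  choose yy hyA hyG using hzA
  let e : Fin (Fintype.card ι) ≃ ι := (Fintype.equivFin ι).symm
  refine ⟨Fintype.card ι, Fintype.card_pos, hcard, x, hx, t, hδ, fun j => w (e j),
    fun j => yy (e j), fun j => hw _, fun j => (hyA _).1, ⟨?_, ?_, ?_, ?_, ?_⟩, htle⟩
  · intro j j' hjj
    apply e.injective
    apply haff.injective
    have := congrArg G hjj
    simpa [hyG] using this
  · rw [← hw1]
    exact e.sum_comp w
  · exact fun j => (hyA _).2
  · intro j i
    have hcube := (hyA (e j)).1 i
    rcases hcube.lt_or_eq with hlt | heq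
    · right; right
      have hloc : IsLocalMin (fun s : ℝ => f x (Function.update (yy (e j)) i s))
          (yy (e j) i) := by
        have hc : Continuous fun s : ℝ => |s| := continuous_abs
        have h1 : ∀ᶠ s in 𝓝 (yy (e j) i), |s| < 1 :=
          hc.continuousAt.eventually_lt continuousAt_const hlt
        filter_upwards [h1] with s hs
        rw [Function.update_eq_self, (hyA (e j)).2]
        apply htle
        intro i'
        by_cases hi : i' = i
        · subst hi
          rw [Function.update_self]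
          exact hs.le
        · rw [Function.update_of_ne hi]
          exact (hyA (e j)).1 i'
      have := hloc.hasDerivAt_eq_zero (hdy x (yy (e j)) i (yy (e j) i))
      rwa [Function.update_eq_self] at this
    · rcases (abs_eq (zero_le_one' ℝ)).1 heq with h | h
      · exact Or.inl h
      · exact Or.inr (Or.inl h)
  · intro i
    rcases (hx i).lt_or_eq with hlt | heq
    · right; right
      have h1 : ∑ a, w a * fx i x (yy a) = 0 := by
        have h2 := congrFun hsum i
        rw [Finset.sum_apply] at h2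
        rw [← Pi.zero_apply (M := fun _ : Fin n => ℝ) i, ← h2]
        refine sum_congr rfl fun a _ => ?_
        rw [Pi.smul_apply, smul_eq_mul, ← hyG a]
        simp only [hG, hlt, if_true]
      rw [← h1]
      exact e.sum_comp fun a => w a * fx i x (yy a)
    · rcases (abs_eq (zero_le_one' ℝ)).1 heq with h | h
      · exact Or.inl h
      · exact Or.inr (Or.inl h)

end Pool.Agent.Run7.h24.K470
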