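import Pool.Agent.Run7.h470.Iso.Mk
import Pool.Agent.Run7.h470.Iso.K
import Pool.Agent.Run7.h470.Iso.Bwd

/-!
# A true sentence gives an isolated point
-/

set_option autoImplicit false

namespace Pool.Agent.NPC.H470Iso

open Pool.Agent.NPC Pool.Agent.NPC.ER Pool.Agent.NPC.H612 Pool.Agent.NPC.R537HD
open Pool.Agent.R537.RN (pick qsum cerr cube pick_scale qsum_scale)
open Run7.h470.Iso (kA kB kC lin gV gF gX gY gYU dqsum dcerr Wit pf pfx pfy GG FullJets Gam pP dP
  hat dhat PolyLE Sent2 WitSet coval normal_fwd exists_grid deg_gF deg_gX deg_gY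
  hasDerivAt_gF_x hasDerivAt_gF_y dg)

section

variable {p : List ℕ × Fm}

theorem cases_ix (i : ℕ) : i < qn p ∨ i = o1 p ∨ (∃ j < qK p, i = o2 p + j) ∨
    (∃ j < qK p, ∃ a < qM p, i = o3 p + (j * qM p + a)) ∨
    (∃ j < qK p, ∃ s < qκ p + 1, i = o4 p + (j * (qκ p + 1) + s)) ∨
    (∃ b < (qG p + qn p) * qL p, i = o5 p + b) ∨ (∃ s ≤ qΛ p, i = o6 p + s) ∨ i = o7 p ∨
    o8 p ≤ i := by
  by_cases h1 : i < o1 p
  · left; exact h1
  by_cases h2 : i < o2 p
  · right; left; unfold o2 at h2; omega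
  by_cases h3 : i < o3 p
  · right; right; left
    exact ⟨i - o2 p, by unfold o3 at h3; omega, by omega⟩
  by_cases h4 : i < o4 p
  · right; right; right; left
    have hM : 0 < qM p := Nat.succ_pos _
    have e : i - o3 p = (i - o3 p) / qM p * qM p + (i - o3 p) % qM p :=
      (Nat.div_add_mod' _ _).symm
    refine ⟨(i - o3 p) / qM p, Nat.div_lt_of_lt_mul (by
      rw [mul_comm]; unfold o4 at h4; omega), (i - o3 p) % qM p, Nat.mod_lt _ hM, ?_⟩
    rw [← e]; omega
  by_cases h5 : i < o5 p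
  · right; right; right; right; left
    have e : i - o4 p = (i - o4 p) / (qκ p + 1) * (qκ p + 1) + (i - o4 p) % (qκ p + 1) :=
      (Nat.div_add_mod' _ _).symm
    refine ⟨(i - o4 p) / (qκ p + 1), Nat.div_lt_of_lt_mul (by
      rw [mul_comm]; unfold o5 at h5; omega), (i - o4 p) % (qκ p + 1),
      Nat.mod_lt _ (Nat.succ_pos _), ?_⟩
    rw [← e]; omega
  by_cases h6 : i < o6 p
  · right; right; right; right; right; left
    exact ⟨i - o5 p, by unfold o6 at h6; omega, by omega⟩
  by_cases h7 : i < o7 p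
  · right; right; right; right; right; right; left
    exact ⟨i - o6 p, by unfold o7 at h7; omega, by omega⟩
  by_cases h8 : i < o8 p
  · right; right; right; right; right; right; right; left
    unfold o8 at h8; omega
  · right; right; right; right; right; right; right; right
    omega

theorem cf_eq {v w : ℕ → ℝ} (hv : BaseP p v) (hw : BaseP p w)
    (h : ∀ b < (qG p + qn p) * qL p, w (o5 p + b) = v (o5 p + b)) : cf p w = cf p v := by
  have key : ∀ q < qG p + qn p, cfn p w q = cfn p v q := by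
    intro q hq
    unfold cfn
    rw [hv.η, hw.η]
    congr 1
    refine Finset.sum_congr rfl fun b hb => ?_
    rw [h _ (two_dim_lt hq (Finset.mem_range.1 hb))]
  funext i
  rcases i with q | i
  · exact key _ (by have := q.2; omega)
  · exact key _ (by have := i.2; omega)

/-- Finiteness of the set of the base points with given bits. -/
theorem finite_base {v : ℕ → ℝ} (hv : BaseP p v)
    (hfin : ∀ k, 0 < k → k ≤ qK p →
      (WitSet k (pf (gF (locq p) (qS p) (NN p) (qκ p) (δδ p)) (pq p) (cf p v))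
        (pfx (gX (locq p) (qS p) (NN p)) (cf p v))
        (pfy (gY (locq p) (qS p) (NN p) (qκ p)) (dpq p) (cf p v))).Finite) :
    {w : ℕ → ℝ | BaseP p w ∧ (∀ i, o8 p ≤ i → w i = 0) ∧
      ∀ b < (qG p + qn p) * qL p, w (o5 p + b) = v (o5 p + b)}.Finite := by
  have hk : ∀ k ∈ Set.Icc 1 (qK p), {w : ℕ → ℝ | (BaseP p w ∧ (∀ i, o8 p ≤ i → w i = 0) ∧
      ∀ b < (qG p + qn p) * qL p, w (o5 p + b) = v (o5 p + b)) ∧ (∀ j < k, ActP p w j) ∧
      ∀ j < qK p, k ≤ j → OffP p w j}.Finite := by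
    rintro k ⟨hk1, hk2⟩
    refine Set.Finite.of_finite_image (f := fun w : ℕ → ℝ => coval (xf p w) (w (o1 p))
      (fun j : Fin k => w (o2 p + j)) fun j : Fin k => yf p w j) ?_ ?_
    · refine (hfin k (by omega) hk2).subset ?_
      rintro _ ⟨w, ⟨⟨hw, -, hwb⟩, ha, ho⟩, rfl⟩
      have h1 := hw.wit hk2 ha ho
      rw [cf_eq hv hw hwb] at h1
      exact ⟨_, _, _, _, h1, rfl⟩
    · rintro w ⟨⟨hw, hwz, hwb⟩, ha, ho⟩ w' ⟨⟨hw', hwz', hwb'⟩, ha', ho'⟩ heq
      have hx : ∀ i (hi : i < qn p), w i = w' i := fun i hi => congrFun heq (.inl ⟨i, hi⟩)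
      have ht : w (o1 p) = w' (o1 p) := congrFun heq (.inr (.inl ()))
      have hl : ∀ j (hj : j < k), w (o2 p + j) = w' (o2 p + j) :=
        fun j hj => congrFun heq (.inr (.inr (.inl ⟨j, hj⟩)))
      have hy : ∀ j (hj : j < k) a (ha : a < qM p), w (o3 p + (j * qM p + a)) =
          w' (o3 p + (j * qM p + a)) :=
        fun j hj a ha => congrFun heq (.inr (.inr (.inr (⟨j, hj⟩, ⟨a, ha⟩))))
      funext i
      rcases cases_ix (p := p) i with h | h | ⟨j, hj, h⟩ | ⟨j, hj, a, haM, h⟩ |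
        ⟨j, hj, s, hs, h⟩ | ⟨b, hb, h⟩ | ⟨s, hs, h⟩ | h | h
      · exact hx i h
      · rw [h, ht]
      · rw [h]
        by_cases hjk : j < k
        · exact hl j hjk
        · rw [(ho j hj (by omega)).zero, (ho' j hj (by omega)).zero]
      · rw [h]
        by_cases hjk : j < k
        · exact hy j hjk a haM
        · rw [(ho j hj (by omega)).y0 a haM, (ho' j hj (by omega)).y0 a haM]
      · rw [h]
        by_cases hjk : j < k
        · have h1 := (ha j hjk).u s (by omega)
          have h2 := (ha' j hjk).u s (by omega)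
          have h3 : yf p w j 0 = yf p w' j 0 := hy j hjk 0 (Nat.succ_pos _)
          rw [h1, h2, h3]
        · rw [(ho j hj (by omega)).u0 s hs, (ho' j hj (by omega)).u0 s hs]
      · rw [h, hwb b hb, hwb' b hb]
      · rw [h, hw.chain hs, hw'.chain hs]
      · rw [h, hw.N, hw'.N]
      · rw [hwz i h, hwz' i h]
  refine ((Set.finite_Icc 1 (qK p)).biUnion hk).subset ?_
  rintro w ⟨hw, hw2⟩
  obtain ⟨k, hk0, hkK, ha, ho⟩ := hw.exists_k
  exact Set.mem_biUnion (show k ∈ Set.Icc 1 (qK p) from ⟨hk0, hkK⟩) ⟨⟨hw, hw2⟩, ha, ho⟩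

/-- Separation from a finite set. -/
theorem exists_sep {F : Set (ℕ → ℝ)} (hF : F.Finite) (v : ℕ → ℝ) :
    ∃ ε : ℝ, 0 < ε ∧ ∀ w ∈ F, (∀ i, |w i - v i| < ε) → w = v := by
  induction F, hF using Set.Finite.induction_on with
  | empty => exact ⟨1, one_pos, fun w hw => absurd hw (Set.notMem_empty w)⟩
  | @insert a s _ _ ih =>
    obtain ⟨ε, hε, h⟩ := ih
    by_cases hav : a = v
    · refine ⟨ε, hε, fun w hw h2 => ?_⟩
      rcases hw with rfl | hw
      · exact hav
      · exact h w hw h2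
    · obtain ⟨i, hi⟩ := Function.ne_iff.1 hav
      have h0 : 0 < |a i - v i| := abs_pos.2 (sub_ne_zero.2 hi)
      refine ⟨min ε |a i - v i|, lt_min hε h0, fun w hw h2 => ?_⟩
      rcases hw with rfl | hw
      · exact absurd (lt_of_lt_of_le (h2 i) (min_le_right _ _)) (lt_irrefl _)
      · exact h w hw fun j => lt_of_lt_of_le (h2 j) (min_le_left _ _)

theorem asg_sub_le {n : ℕ} (z x : EuclideanSpace ℝ (Fin n)) (i : ℕ) :
    |asg z i - asg x i| ≤ dist z x := by
  unfold asg
  split_ifs with h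
  · rw [dist_eq_norm, ← Real.norm_eq_abs]
    exact PiLp.norm_apply_le (z - x) ⟨i, h⟩
  · simp

/-- A base point at which the function is positive is isolated. -/
theorem iso_of_base {v : ℕ → ℝ} (hv : BaseP p v) (hvz : ∀ i, o8 p ≤ i → v i = 0)
    (hpos : ∀ y ∈ cube (qm p + 1), 0 < gf (p := p) (xf p v) y)
    (hfin : {w : ℕ → ℝ | BaseP p w ∧ (∀ i, o8 p ≤ i → w i = 0) ∧
      ∀ b < (qG p + qn p) * qL p, w (o5 p + b) = v (o5 p + b)}.Finite) :
    IsoPt (hinst p) := by
  obtain ⟨ε, hε, hsep⟩ := exists_sep hfin v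
  unfold IsoPt
  have hlen : (hinst p).1.length = tot p := by simp [hinst]
  obtain ⟨N, hN⟩ : ∃ N, N = (hinst p).1.length := ⟨_, rfl⟩
  rw [← hN]
  rw [hlen] at hN
  obtain ⟨x, hx⟩ : ∃ x : EuclideanSpace ℝ (Fin N), x = WithLp.toLp 2 fun i : Fin N => v i :=
    ⟨_, rfl⟩
  have hax : asg x = v := by
    funext i
    unfold asg
    split_ifs with h
    · rw [hx]
    · rw [hvz i (by rw [hN, tot_eq] at h; omega)]
  refine ⟨x, ?_, min ε (1 / 2), lt_min hε (by norm_num), ?_⟩
  · change (Fm.and (baF p) (coF p)).Holds (asg x)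
    rw [hax]
    refine ⟨(holds_baF p _).2 hv, (holds_coF p _).2 (Or.inl fun i _ => hvz _ (by omega))⟩
  · intro z hz hd
    obtain ⟨hzb, hzc⟩ := hz
    rw [holds_baF] at hzb
    rw [holds_coF] at hzc
    have hcl : ∀ i, |asg z i - v i| < min ε (1 / 2) := by
      intro i
      rw [← hax]
      exact lt_of_le_of_lt (asg_sub_le z x i) hd
    obtain ⟨w, hw⟩ : ∃ w : ℕ → ℝ, w = fun i => if i < o8 p then asg z i else 0 := ⟨_, rfl⟩
    have hwz : ∀ i < o8 p, w i = asg z i := fun i hi => by rw [hw]; simp only; rw [if_pos hi]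
    have hwb : BaseP p w := BaseP.congr hwz hzb
    have hw0 : ∀ i, o8 p ≤ i → w i = 0 := fun i hi => by
      rw [hw]; simp only; rw [if_neg (not_lt.2 hi)]
    have hwv : w = v := by
      refine hsep w ⟨hwb, hw0, ?_⟩ ?_
      · intro b hb
        have h1 := hwb.bit b hb
        have h2 := hv.bit b hb
        have h3 := lt_of_lt_of_le (hcl (o5 p + b)) (min_le_right _ _)
        rw [← hwz _ (ix_b p hb)] at h3
        have h4 : ∀ a : ℝ, a ^ 2 = a → a = 0 ∨ a = 1 := by
          intro a ha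
          have : a * (a - 1) = 0 := by linear_combination ha
          rcases mul_eq_zero.1 this with h | h
          · left; exact h
          · right; linarith
        rw [abs_lt] at h3
        rcases h4 _ h1 with h5 | h5 <;> rcases h4 _ h2 with h6 | h6
        · rw [h5, h6]
        · rw [h5, h6] at h3; norm_num at h3
        · rw [h5, h6] at h3; norm_num at h3
        · rw [h5, h6]
      · intro i
        by_cases hi : i < o8 p
        · rw [hwz i hi]
          exact lt_of_lt_of_le (hcl i) (min_le_left _ _)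
        · rw [hw0 i (not_lt.1 hi), hvz i (not_lt.1 hi)]
          simpa using hε
    have hzv : ∀ i < o8 p, asg z i = v i := fun i hi => by rw [← hwz i hi, hwv]
    have hxf : xf p (asg z) = xf p v := xf_congr hzv
    have hapex : ∀ i < 1 + (qM p + (qκ p + 1)), asg z (o8 p + i) = 0 := by
      rcases hzc with h | h
      · exact h
      · exfalso
        obtain ⟨y, hy, hg⟩ := h.exists_y hzb
        rw [hxf] at hg
        exact absurd (hpos y hy) (not_lt.2 hg)
    ext i
    have h1 : asg z i = asg x i := by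
      rw [hax]
      by_cases hi : (i : ℕ) < o8 p
      · exact hzv i hi
      · have h2 := hapex (i - o8 p) (by have := i.2; have := tot_eq (p := p); omega)
        rw [show o8 p + ((i : ℕ) - o8 p) = i by omega] at h2
        rw [h2, hvz i (by omega)]
    unfold asg at h1
    rw [dif_pos i.2, dif_pos i.2] at h1
    exact h1

end

section

variable (p : List ℕ × Fm)

/-- Derivatives of the perturbed function. -/
theorem hasDerivAt_pf_x (c : Fin (qG p) ⊕ Fin (qn p) → ℝ) (x : Fin (qn p) → ℝ)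
    (y : Fin (qm p + 1) → ℝ) (d : Fin (qn p) → ℝ) (s : ℝ) :
    HasDerivAt (fun s : ℝ => pf (gF (locq p) (qS p) (NN p) (qκ p) (δδ p)) (pq p) c (x + s • d) y)
      (∑ i, d i * pfx (gX (locq p) (qS p) (NN p)) c i (x + s • d) y) s := by
  have h1 := hasDerivAt_gF_x (locq p) (qS p) (NN p) (qκ p) (δδ p) x y d s
  have h2 : HasDerivAt (fun s : ℝ => ∑ i, c (.inr i) * (x + s • d) i)
      (∑ i, c (.inr i) * d i) s := by
    refine HasDerivAt.fun_sum fun i _ => ?_
    have h3 : HasDerivAt (fun s : ℝ => x i + s * d i) (1 * d i) s :=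
      ((hasDerivAt_id s).mul_const (d i)).const_add (x i)
    rw [one_mul] at h3
    exact h3.const_mul _
  refine ((h1.add_const (∑ γ, c (.inl γ) * pq p γ y)).add h2).congr_deriv ?_
  rw [← Finset.sum_add_distrib]
  refine Finset.sum_congr rfl fun i _ => ?_
  unfold pfx
  ring

theorem hasDerivAt_pf_y (c : Fin (qG p) ⊕ Fin (qn p) → ℝ) (x : Fin (qn p) → ℝ)
    (y : Fin (qm p + 1) → ℝ) (i : Fin (qm p + 1)) (s : ℝ) :
    HasDerivAt (fun s : ℝ => pf (gF (locq p) (qS p) (NN p) (qκ p) (δδ p)) (pq p) c x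
        (Function.update y i s))
      (pfy (gY (locq p) (qS p) (NN p) (qκ p)) (dpq p) c i x (Function.update y i s)) s := by
  have h1 := hasDerivAt_gF_y (locq p) (qS p) (NN p) (qκ p) (δδ p) x y i s
  have h2 : HasDerivAt (fun s : ℝ => ∑ γ, c (.inl γ) * pq p γ (Function.update y i s))
      (∑ γ, c (.inl γ) * dpq p γ i (Function.update y i s)) s :=
    HasDerivAt.fun_sum fun γ _ => (hasDerivAt_pq p γ y i s).const_mul _
  exact (h1.add h2).add_const (∑ i, c (.inr i) * x i)

theorem continuous_pf (c : Fin (qG p) ⊕ Fin (qn p) → ℝ) :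
    Continuous fun q : (Fin (qn p) → ℝ) × (Fin (qm p + 1) → ℝ) =>
      pf (gF (locq p) (qS p) (NN p) (qκ p) (δδ p)) (pq p) c q.1 q.2 := by
  unfold pf
  refine ((deg_gF (locq p) (qS p) (NN p) (qκ p) (δδ p)).continuous.add ?_).add ?_
  · exact continuous_finsetSum _ fun γ _ =>
      continuous_const.mul ((deg_pq p γ).continuous.comp continuous_snd)
  · exact continuous_finsetSum _ fun i _ =>
      continuous_const.mul ((continuous_apply i).comp continuous_fst)

theorem continuous_pfx (c : Fin (qG p) ⊕ Fin (qn p) → ℝ) (i : Fin (qn p)) :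
    Continuous fun q : (Fin (qn p) → ℝ) × (Fin (qm p + 1) → ℝ) =>
      pfx (gX (locq p) (qS p) (NN p)) c i q.1 q.2 := by
  unfold pfx
  exact (deg_gX (locq p) (qS p) (NN p) (qκ p) i).continuous.add continuous_const

/-- **If the sentence is true, then the set has an isolated point.** -/
theorem iso_of_ear (h : EAR p) : IsoPt (hinst p) := by
  obtain ⟨x0, hx0, hG⟩ := normal_fwd (locq p) (qS p) ((ear_iff_sent p).1 h)
  have hG' : ∀ y ∈ cube (qm p + 1), δδ p ≤ gF (locq p) (qS p) (NN p) (qκ p) (δδ p) x0 y := by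
    intro y hy
    have h1 := hG y hy
    unfold gF
    have h3 : NN p = 2 ^ 2 ^ kB (qn p) (qm p) (qS p).length := rfl
    have h4 : qκ p = kA (qm p) (qS p).length := rfl
    rw [h3, h4]
    linarith
  have hdd : dg (qκ p) ≤ dd p := by unfold dd; omega
  have hη : 0 < ηη p := by unfold ηη; positivity
  obtain ⟨b, hb, hfin⟩ := exists_grid (K := qK p) (d := dd p)
    ((deg_gF (locq p) (qS p) (NN p) (qκ p) (δδ p)).mono hdd)
    (fun i => (deg_gX (locq p) (qS p) (NN p) (qκ p) i).mono hdd)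
    (fun i => (deg_gY (locq p) (qS p) (NN p) (qκ p) i).mono hdd)
    (deg_pq p) (deg_dpq p) (fun k hk => fullJets_pq p hk) (2 ^ qL p)
    (by rw [Fintype.card_fin]; exact bnd1 p) (ηη p) hη
  have hbnd : ∀ x ∈ cube (qn p), ∀ y ∈ cube (qm p + 1),
      |pf (gF (locq p) (qS p) (NN p) (qκ p) (δδ p)) (pq p) (fun i => ηη p * (b i : ℝ)) x y -
        gF (locq p) (qS p) (NN p) (qκ p) (δδ p) x y| ≤ δδ p / 4 := by
    intro x hx y hy
    have h1 := bnd2 p b hb x hx y hy
    have h2 : pf (gF (locq p) (qS p) (NN p) (qκ p) (δδ p)) (pq p)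
        (fun i => ηη p * (b i : ℝ)) x y - gF (locq p) (qS p) (NN p) (qκ p) (δδ p) x y =
        ∑ q, ηη p * (b (.inl q) : ℝ) * pq p q y + ∑ i, ηη p * (b (.inr i) : ℝ) * x i := by
      unfold pf
      ring
    rw [h2]
    exact h1
  obtain ⟨k, hk0, hk, x, hx, t, ht, l, y, hl, -, hW, hmin⟩ :=
    Pool.Agent.Run7.h24.K470.kkt _ _ _ (continuous_pf p fun i => ηη p * (b i : ℝ))
      (continuous_pfx p fun i => ηη p * (b i : ℝ))
      (hasDerivAt_pf_x p fun i => ηη p * (b i : ℝ))
      (hasDerivAt_pf_y p fun i => ηη p * (b i : ℝ)) x0 hx0 (3 * δδ p / 4) (by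
        intro y hy
        have h1 := hG' y hy
        have h2 := (abs_le.1 (hbnd x0 hx0 y hy)).1
        linarith)
  have hbase := mkw_base hk0 hk hb hx hl hW
  have hδ : 0 < δδ p := by unfold δδ; positivity
  refine iso_of_base hbase (fun i hi => mk_ge _ _ _ _ _ _ _ hi) ?_ ?_
  · intro y' hy'
    rw [mkw_x]
    have h1 := hmin y' hy'
    have h2 := (abs_le.1 (hbnd x hx y' hy')).2
    unfold gf
    linarith
  · refine finite_base hbase fun k' hk0' hk' => ?_
    rw [mkw_c hb]
    exact hfin k' hk0' hk'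

end

end Pool.Agent.NPC.H470Iso
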