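import Mathlib

/-!
# A nonzero maximal minor of a matrix of full row rank
-/

set_option autoImplicit false

namespace Run7.h470.Iso

open Finset

theorem exists_minor {m Γ : Type} [Fintype m] [DecidableEq m] [Fintype Γ] (J : Matrix m Γ ℝ)
    (h : ∀ v : m → ℝ, ∃ c : Γ → ℝ, J.mulVec c = v) :
    ∃ f : m → Γ, Function.Injective f ∧ (J.submatrix id f).det ≠ 0 := by
  classical
  obtain ⟨κ, a, ha, hspan, hli⟩ := exists_linearIndependent' ℝ (fun γ : Γ => fun i => J i γ)
  have htop : Submodule.span ℝ (Set.range fun γ : Γ => fun i => J i γ) = ⊤ := by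
    rw [eq_top_iff]
    intro v _
    obtain ⟨c, hc⟩ := h v
    rw [← hc]
    have h1 : J.mulVec c = ∑ γ, c γ • (fun i => J i γ) := by
      funext i
      simp [Matrix.mulVec, dotProduct, mul_comm]
    rw [h1]
    exact Submodule.sum_mem _ fun γ _ =>
      Submodule.smul_mem _ _ (Submodule.subset_span ⟨γ, rfl⟩)
  haveI : Finite κ := Finite.of_injective a ha
  haveI : Fintype κ := Fintype.ofFinite κ
  have hb := Module.Basis.mk hli (by rw [hspan, htop])
  have hcard : Fintype.card m = Fintype.card κ := by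
    rw [← Module.finrank_eq_card_basis hb, Module.finrank_fintype_fun_eq_card]
  obtain ⟨e⟩ : Nonempty (m ≃ κ) := Fintype.card_eq.1 hcard
  refine ⟨a ∘ e, ha.comp e.injective, ?_⟩
  have hli' : LinearIndependent ℝ (J.submatrix id (a ∘ e)).col := by
    have h1 := hli.comp e e.injective
    exact h1
  exact (Matrix.isUnit_iff_isUnit_det _).1 (Matrix.linearIndependent_cols_iff_isUnit.1 hli')
    |>.ne_zero

end Run7.h470.Iso
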