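import Pool.Agent.Run7.h470.Iso.Fwd1

/-!
# The point of the space belonging to a witness
-/

set_option autoImplicit false

namespace Pool.Agent.NPC.H470Iso

open Pool.Agent.NPC Pool.Agent.NPC.ER Pool.Agent.NPC.H612 Pool.Agent.NPC.R537HD
open Pool.Agent.R537.RN (pick qsum cerr cube pick_scale qsum_scale)
open Run7.h470.Iso (kA kB kC lin gV gF gX gY gYU dqsum dcerr Wit pf pfx pfy GG FullJets Gam pP dP
  hat dhat PolyLE)

section

variable (p : List ℕ × Fm) (x' : ℕ → ℝ) (t : ℝ) (k : ℕ) (l' : ℕ → ℝ) (y' : ℕ → ℕ → ℝ)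
  (b' : ℕ → ℕ)

/-- The assignment. -/
noncomputable def mkv (i : ℕ) : ℝ :=
  if i < o1 p then x' i
  else if i < o2 p then t
  else if i < o3 p then l' (i - o2 p)
  else if i < o4 p then y' ((i - o3 p) / qM p) ((i - o3 p) % qM p)
  else if i < o5 p then (if (i - o4 p) / (qκ p + 1) < k then
    (y' ((i - o4 p) / (qκ p + 1)) 0 ^ 2) ^ (2 ^ ((i - o4 p) % (qκ p + 1)) - 1) else 0)
  else if i < o6 p then (((b' ((i - o5 p) / qL p)) / 2 ^ ((i - o5 p) % qL p) % 2 : ℕ) : ℝ)
  else if i < o7 p then (1 / 2) ^ 2 ^ (i - o6 p)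
  else if i < o8 p then NN p
  else 0

theorem div_mod_lt {a b B : ℕ} (hb : b < B) : (a * B + b) / B = a ∧ (a * B + b) % B = b := by
  refine ⟨?_, mul_add_mod_lt hb⟩
  rw [Nat.add_comm, Nat.add_mul_div_right _ _ (by omega), Nat.div_eq_of_lt hb, zero_add]

theorem mk_x {i : ℕ} (hi : i < qn p) : mkv p x' t k l' y' b' i = x' i := by
  unfold mkv
  rw [if_pos (by unfold o1; exact hi)]

theorem mk_t : mkv p x' t k l' y' b' (o1 p) = t := by
  unfold mkv
  rw [if_neg (lt_irrefl _), if_pos (by unfold o2; omega)]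

theorem mk_l {j : ℕ} (hj : j < qK p) : mkv p x' t k l' y' b' (o2 p + j) = l' j := by
  unfold mkv
  rw [if_neg (by unfold o2; omega), if_neg (by omega), if_pos (by unfold o3; omega)]
  congr 1
  omega

theorem mk_y {j i : ℕ} (hj : j < qK p) (hi : i < qM p) :
    mkv p x' t k l' y' b' (o3 p + (j * qM p + i)) = y' j i := by
  have h := two_dim_lt hj hi
  unfold mkv
  rw [if_neg (by unfold o3 o2; omega), if_neg (by unfold o3; omega), if_neg (by omega),
    if_pos (by unfold o4; omega), Nat.add_sub_cancel_left, (div_mod_lt hi).1, (div_mod_lt hi).2]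

theorem mk_u {j s : ℕ} (hj : j < qK p) (hs : s < qκ p + 1) :
    mkv p x' t k l' y' b' (o4 p + (j * (qκ p + 1) + s)) =
      if j < k then (y' j 0 ^ 2) ^ (2 ^ s - 1) else 0 := by
  have h := two_dim_lt hj hs
  unfold mkv
  rw [if_neg (by unfold o4 o3 o2; omega), if_neg (by unfold o4 o3; omega),
    if_neg (by unfold o4; omega), if_neg (by omega), if_pos (by unfold o5; omega),
    Nat.add_sub_cancel_left, (div_mod_lt hs).1, (div_mod_lt hs).2]

theorem mk_b {q b : ℕ} (hq : q < qG p + qn p) (hb : b < qL p) :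
    mkv p x' t k l' y' b' (o5 p + (q * qL p + b)) = ((b' q / 2 ^ b % 2 : ℕ) : ℝ) := by
  have h := two_dim_lt hq hb
  unfold mkv
  rw [if_neg (by unfold o5 o4 o3 o2; omega), if_neg (by unfold o5 o4 o3; omega),
    if_neg (by unfold o5 o4; omega), if_neg (by unfold o5; omega), if_neg (by omega),
    if_pos (by unfold o6; omega), Nat.add_sub_cancel_left, (div_mod_lt hb).1, (div_mod_lt hb).2]

theorem mk_s {i : ℕ} (hi : i ≤ qΛ p) : mkv p x' t k l' y' b' (o6 p + i) = (1 / 2) ^ 2 ^ i := by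
  unfold mkv
  rw [if_neg (by unfold o6 o5 o4 o3 o2; omega), if_neg (by unfold o6 o5 o4 o3; omega),
    if_neg (by unfold o6 o5 o4; omega), if_neg (by unfold o6 o5; omega),
    if_neg (by unfold o6; omega), if_neg (by omega), if_pos (by unfold o7; omega),
    Nat.add_sub_cancel_left]

theorem mk_N : mkv p x' t k l' y' b' (o7 p) = NN p := by
  unfold mkv
  rw [if_neg (by unfold o7 o6 o5 o4 o3 o2; omega), if_neg (by unfold o7 o6 o5 o4 o3; omega),
    if_neg (by unfold o7 o6 o5 o4; omega), if_neg (by unfold o7 o6 o5; omega),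
    if_neg (by unfold o7 o6; omega), if_neg (by unfold o7; omega), if_neg (lt_irrefl _),
    if_pos (by unfold o8; omega)]

theorem mk_ge {i : ℕ} (hi : o8 p ≤ i) : mkv p x' t k l' y' b' i = 0 := by
  unfold mkv
  have h8 := hi
  unfold o8 at h8
  have h7 := h8
  unfold o7 at h7
  have h6 := h7
  unfold o6 at h6
  have h5 := h6
  unfold o5 at h5
  have h4 := h5
  unfold o4 at h4
  have h3 := h4
  unfold o3 at h3
  have h2 := h3
  unfold o2 at h2
  rw [if_neg (by omega), if_neg (by omega), if_neg (by omega), if_neg (by omega),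
    if_neg (by omega), if_neg (by omega), if_neg (by omega), if_neg (by omega)]

end

section

variable {p : List ℕ × Fm} {k : ℕ} {x : Fin (qn p) → ℝ} {t : ℝ} {l : Fin k → ℝ}
  {y : Fin k → Fin (qm p + 1) → ℝ} {b : Fin (qG p) ⊕ Fin (qn p) → ℕ}

/-- extension -/
def ext1 (x : Fin (qn p) → ℝ) (i : ℕ) : ℝ := if h : i < qn p then x ⟨i, h⟩ else 0
/-- extension -/
def ext2 (l : Fin k → ℝ) (j : ℕ) : ℝ := if h : j < k then l ⟨j, h⟩ else 0
/-- extension -/
def ext3 (y : Fin k → Fin (qm p + 1) → ℝ) (j i : ℕ) : ℝ :=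
  if h : j < k ∧ i < qm p + 1 then y ⟨j, h.1⟩ ⟨i, h.2⟩ else 0
/-- extension -/
def ext4 (b : Fin (qG p) ⊕ Fin (qn p) → ℕ) (q : ℕ) : ℕ :=
  if h : q < qG p then b (.inl ⟨q, h⟩)
  else if h : q - qG p < qn p then b (.inr ⟨q - qG p, h⟩) else 0

variable (p) in
/-- The assignment. -/
noncomputable def mkw (x : Fin (qn p) → ℝ) (t : ℝ) (l : Fin k → ℝ)
    (y : Fin k → Fin (qm p + 1) → ℝ) (b : Fin (qG p) ⊕ Fin (qn p) → ℕ) : ℕ → ℝ :=
  mkv p (ext1 x) t k (ext2 l) (ext3 y) (ext4 b)

theorem mkw_x : xf p (mkw p x t l y b) = x := by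
  funext i
  unfold xf mkw
  rw [mk_x _ _ _ _ _ _ _ i.2, ext1, dif_pos i.2]

theorem mkw_y (hk : k ≤ qK p) (j : Fin k) : yf p (mkw p x t l y b) j = y j := by
  funext i
  unfold yf mkw
  rw [mk_y _ _ _ _ _ _ _ (by have := j.2; omega) i.2, ext3, dif_pos ⟨j.2, i.2⟩]

theorem mkw_c (hb : ∀ i, b i < 2 ^ qL p) :
    cf p (mkw p x t l y b) = fun i => ηη p * (b i : ℝ) := by
  have key : ∀ q < qG p + qn p, ext4 b q < 2 ^ qL p → cfn p (mkw p x t l y b) q =
      ηη p * (ext4 b q : ℝ) := by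
    intro q hq hlt
    unfold cfn mkw
    rw [mk_s _ _ _ _ _ _ _ (le_Λ_E p)]
    unfold ηη
    congr 1
    rw [← sum_bits_real hlt]
    refine Finset.sum_congr rfl fun i hi => ?_
    rw [mk_b _ _ _ _ _ _ _ hq (Finset.mem_range.1 hi)]
  funext i
  rcases i with q | i
  · have h1 : ext4 b (q : ℕ) = b (.inl q) := by unfold ext4; rw [dif_pos q.2]
    have h2 := key q (by have := q.2; omega) (by rw [h1]; exact hb _)
    rw [h1] at h2
    exact h2
  · have h1 : ext4 b (qG p + (i : ℕ)) = b (.inr i) := by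
      unfold ext4
      rw [dif_neg (by omega), dif_pos (by have := i.2; omega)]
      congr 2
      exact Fin.ext (by simp)
    have h2 := key (qG p + i) (by have := i.2; omega) (by rw [h1]; exact hb _)
    rw [h1] at h2
    exact h2

/-- The conditions hold. -/
theorem mkw_base (hk0 : 0 < k) (hk : k ≤ qK p) (hb : ∀ i, b i < 2 ^ qL p)
    (hx : x ∈ cube (qn p)) (hl : ∀ j, 0 < l j)
    (hW : Wit (pf (gF (locq p) (qS p) (NN p) (qκ p) (δδ p)) (pq p) fun i => ηη p * (b i : ℝ))
      (pfx (gX (locq p) (qS p) (NN p)) fun i => ηη p * (b i : ℝ))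
      (pfy (gY (locq p) (qS p) (NN p) (qκ p)) (dpq p) fun i => ηη p * (b i : ℝ)) x t l y) :
    BaseP p (mkw p x t l y b) := by
  obtain ⟨v, hv⟩ : ∃ v, v = mkw p x t l y b := ⟨_, rfl⟩
  have vx : xf p v = x := by rw [hv]; exact mkw_x
  have vy : ∀ j : Fin k, yf p v j = y j := by rw [hv]; exact mkw_y hk
  have vc : cf p v = fun i => ηη p * (b i : ℝ) := by rw [hv]; exact mkw_c hb
  have vt : v (o1 p) = t := by rw [hv]; exact mk_t _ _ _ _ _ _ _
  have vN : v (o7 p) = NN p := by rw [hv]; exact mk_N _ _ _ _ _ _ _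
  have vs : ∀ i ≤ qΛ p, v (o6 p + i) = (1 / 2) ^ 2 ^ i := by
    rw [hv]; exact fun i hi => mk_s _ _ _ _ _ _ _ hi
  have vl : ∀ j : Fin k, v (o2 p + j) = l j := by
    intro j
    rw [hv]
    unfold mkw
    rw [mk_l _ _ _ _ _ _ _ (by have := j.2; omega), ext2, dif_pos j.2]
  have vl0 : ∀ j < qK p, k ≤ j → v (o2 p + j) = 0 := by
    intro j hj hkj
    rw [hv]
    unfold mkw
    rw [mk_l _ _ _ _ _ _ _ hj, ext2, dif_neg (by omega)]
  have vu : ∀ j : Fin k, ∀ s < qκ p + 1, v (o4 p + (j * (qκ p + 1) + s)) =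
      (y j 0 ^ 2) ^ (2 ^ s - 1) := by
    intro j s hs
    rw [hv]
    unfold mkw
    rw [mk_u _ _ _ _ _ _ _ (by have := j.2; omega) hs, if_pos j.2, ext3,
      dif_pos ⟨j.2, Nat.succ_pos _⟩]
    rfl
  have hva : ∀ j : Fin k, (vaT p j).eval v = t := by
    intro j
    rw [eval_vaT, vN, vs _ (le_Λ_C p), vu j _ (Nat.lt_succ_self _), vy j, vx, vc, pow_split]
    exact hW.val j
  have hdy : ∀ (j : Fin k) (i : Fin (qm p + 1)), (dyT p i j).eval v =
      pfy (gY (locq p) (qS p) (NN p) (qκ p)) (dpq p) (fun i => ηη p * (b i : ℝ)) i x (y j) := by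
    intro j i
    rw [eval_dyT, vN, vu j _ (Nat.lt_succ_self _), vy j, vx, vc]
    rfl
  have hdx : ∀ (j : Fin k) (i : Fin (qn p)), (dxT p i j).eval v =
      pfx (gX (locq p) (qS p) (NN p)) (fun i => ηη p * (b i : ℝ)) i x (y j) := by
    intro j i
    rw [eval_dxT, vN, vy j, vx, vc]
    rfl
  have hsum : ∀ F : ℕ → ℝ, ∑ j ∈ Finset.range (qK p), v (o2 p + j) * F j =
      ∑ j : Fin k, l j * F j := by
    intro F
    have h1 : ∑ j : Fin k, l j * F j = ∑ j ∈ Finset.range k, v (o2 p + j) * F j := by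
      rw [Finset.sum_range]
      exact Finset.sum_congr rfl fun j _ => by rw [vl j]
    rw [h1, ← Finset.sum_subset (Finset.range_subset_range.2 hk)]
    intro j hj hj'
    rw [Finset.mem_range] at hj hj'
    rw [vl0 j hj (by omega), zero_mul]
  have hact : ∀ j : Fin k, ActP p v j := by
    intro j
    refine ⟨?_, ?_, ?_, ?_, ?_⟩
    · rw [vl j]; exact hl j
    · rw [vu j 0 (Nat.succ_pos _)]; simp
    · intro s hs
      have h1 : v (o3 p + ((j : ℕ) * qM p + 0)) = y j 0 := congrFun (vy j) 0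
      have e : 2 ^ (s + 1) - 1 = (2 ^ s - 1) * 2 + 1 := by
        have : 1 ≤ 2 ^ s := Nat.one_le_two_pow
        rw [pow_succ]
        omega
      rw [vu j (s + 1) (by omega), vu j s (by omega), h1, e, pow_add, pow_mul, pow_one]
    · rw [hva, vt]
    · intro i hi
      have h1 : v (o3 p + ((j : ℕ) * qM p + i)) = y j ⟨i, hi⟩ := congrFun (vy j) ⟨i, hi⟩
      have h2 := hdy j ⟨i, hi⟩
      simp only at h2
      rw [h1, h2]
      exact sq_of_or (hW.dy j ⟨i, hi⟩)
  rw [← hv]
  refine ⟨?_, ?_, ?_, ?_, ?_, ?_, ?_, ?_, ?_, ?_⟩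
  · have h1 := vs 0 (Nat.zero_le _)
    rw [add_zero] at h1
    rw [h1]; norm_num
  · intro j hj
    rw [add_assoc, vs _ (by omega), vs _ (by omega), ← pow_mul]
    congr 1
  · rw [vN, vs _ (le_Λ_B p)]
    unfold NN
    rw [← mul_pow]; norm_num
  · intro a ha
    have hL : 0 < qL p := by
      by_contra h0
      have : qL p = 0 := by omega
      rw [this, mul_zero] at ha
      exact absurd ha (Nat.not_lt_zero _)
    have h1 : a = a / qL p * qL p + a % qL p := (Nat.div_add_mod' a (qL p)).symm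
    have h2 : a / qL p < qG p + qn p := Nat.div_lt_of_lt_mul (by rwa [mul_comm])
    rw [h1, hv]
    unfold mkw
    rw [mk_b _ _ _ _ _ _ _ h2 (Nat.mod_lt _ hL)]
    rcases Nat.mod_two_eq_zero_or_one (ext4 b (a / qL p) / 2 ^ (a % qL p)) with h3 | h3
    · rw [h3]; norm_num
    · rw [h3]; norm_num
  · intro i hi
    have h1 : v i = x ⟨i, hi⟩ := congrFun vx ⟨i, hi⟩
    rw [h1, ← sq_abs]
    exact pow_le_one₀ (abs_nonneg _) (hx _)
  · intro j hj
    by_cases hjk : j < k
    · right; exact hact ⟨j, hjk⟩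
    · left
      refine ⟨vl0 j hj (by omega), ?_, ?_⟩
      · intro i hi
        rw [hv]
        unfold mkw
        rw [mk_y _ _ _ _ _ _ _ hj hi, ext3, dif_neg (fun h => hjk h.1)]
      · intro s hs
        rw [hv]
        unfold mkw
        rw [mk_u _ _ _ _ _ _ _ hj hs, if_neg hjk]
  · intro j hj h0
    have hjk : k ≤ j := by
      by_contra hlt
      have h1 := vl ⟨j, by omega⟩
      simp only at h1
      rw [h0] at h1
      exact (hl _).ne h1
    exact vl0 _ (by unfold qK; omega) (by omega)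
  · have h1 := hsum fun _ => 1
    simp only [mul_one] at h1
    rw [h1]
    exact hW.sum
  · intro i hi
    have h1 : v i = x ⟨i, hi⟩ := congrFun vx ⟨i, hi⟩
    rw [h1, hsum fun j => (dxT p i j).eval v]
    have h2 : ∑ j : Fin k, l j * (dxT p i j).eval v = ∑ j : Fin k, l j *
        pfx (gX (locq p) (qS p) (NN p)) (fun i => ηη p * (b i : ℝ)) ⟨i, hi⟩ x (y j) := by
      refine Finset.sum_congr rfl fun j _ => ?_
      have h3 := hdx j ⟨i, hi⟩
      simp only at h3
      rw [h3]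
    rw [h2]
    exact sq_of_or (hW.dx ⟨i, hi⟩)
  · intro j hj j' hj' hne
    by_cases h1 : j < k
    · by_cases h2 : j' < k
      · right; right
        rw [eval_dsT]
        have h3 := vy ⟨j, h1⟩
        have h4 := vy ⟨j', h2⟩
        simp only at h3 h4
        rw [h3, h4]
        intro h5
        have h6 := (Finset.sum_eq_zero_iff_of_nonneg fun i _ => sq_nonneg _).1 h5
        have h7 : y ⟨j, h1⟩ = y ⟨j', h2⟩ := by
          funext i
          have := h6 i (Finset.mem_univ i)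
          have h8 := pow_eq_zero_iff (two_ne_zero) |>.1 this
          linarith
        have h9 := hW.inj h7
        exact hne (by simpa using congrArg Fin.val h9)
      · right; left; exact vl0 j' hj' (by omega)
    · left; exact vl0 j hj (by omega)

end

end Pool.Agent.NPC.H470Iso
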