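import Pool.Agent.Run7.h470.Iso.Count
import Pool.Agent.Run7.h470.Iso.Mat

/-!
# The rational parametrization of the incidence set
-/

set_option autoImplicit false

namespace Run7.h470.Iso

open Finset

/-- Rows: values and derivatives at the points. -/
abbrev Row (k M : ℕ) : Type := Fin k × Option (Fin M)

/-- The coordinates of a witness. -/
abbrev Co (n M k : ℕ) : Type := Fin n ⊕ Unit ⊕ Fin k ⊕ (Fin k × Fin M)

/-- The value of a coordinate of a witness. -/
def coval {n M k : ℕ} (x : Fin n → ℝ) (t : ℝ) (l : Fin k → ℝ) (y : Fin k → Fin M → ℝ) :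
    Co n M k → ℝ
  | .inl i => x i
  | .inr (.inl _) => t
  | .inr (.inr (.inl j)) => l j
  | .inr (.inr (.inr (j, i))) => y j i

section

variable {n M k : ℕ} {Γ : Type} [Fintype Γ] [DecidableEq Γ]
  (g : (Fin n → ℝ) → (Fin M → ℝ) → ℝ)
  (gx : Fin n → (Fin n → ℝ) → (Fin M → ℝ) → ℝ) (gy : Fin M → (Fin n → ℝ) → (Fin M → ℝ) → ℝ)
  (p : Γ → (Fin M → ℝ) → ℝ) (dp : Γ → Fin M → (Fin M → ℝ) → ℝ)
  (j0 : Fin k) (f : Row k M → Γ) (sx : Fin n → SignType) (sy : Fin k → Fin M → SignType)

/-- parametrization: `x` -/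
def qX (u : Γ ⊕ Fin n → ℝ) (i : Fin n) : ℝ := if sx i = 0 then u (.inr i) else (sx i : ℝ)

/-- parametrization: `y` -/
def qY (u : Γ ⊕ Fin n → ℝ) (j : Fin k) (i : Fin M) : ℝ :=
  if sy j i = 0 then u (.inl (f (j, some i))) else (sy j i : ℝ)

/-- parametrization: `t` -/
def qT (u : Γ ⊕ Fin n → ℝ) : ℝ := u (.inl (f (j0, none)))

/-- parametrization: `l` -/
def qL (u : Γ ⊕ Fin n → ℝ) (j : Fin k) : ℝ :=
  if j = j0 then 1 - ∑ j' ∈ univ.erase j0, u (.inl (f (j', none))) else u (.inl (f (j, none)))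

/-- parametrization: the linear perturbation -/
def qA (u : Γ ⊕ Fin n → ℝ) (i : Fin n) : ℝ :=
  if sx i = 0 then -∑ j, qL j0 f u j * gx i (qX sx u) (qY f sy u j) else u (.inr i)

/-- parametrization: the free coefficients -/
def qC (u : Γ ⊕ Fin n → ℝ) (γ : Γ) : ℝ := if ∃ r, f r = γ then 0 else u (.inl γ)

/-- a jet coordinate -/
def jet (o : Option (Fin M)) (γ : Γ) (y : Fin M → ℝ) : ℝ := o.elim (p γ y) fun i => dp γ i y

/-- the right-hand side -/
def qR (u : Γ ⊕ Fin n → ℝ) (r : Row k M) : ℝ :=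
  (match r with
    | (j, none) => qT j0 f u - g (qX sx u) (qY f sy u j) -
        ∑ i, qA gx j0 f sx sy u i * qX sx u i
    | (j, some i) => (if sy j i = 0 then 0 else u (.inl (f (j, some i)))) -
        gy i (qX sx u) (qY f sy u j)) -
    ∑ γ, qC f u γ * jet p dp r.2 γ (qY f sy u r.1)

/-- the matrix -/
def qM (u : Γ ⊕ Fin n → ℝ) : Matrix (Row k M) (Row k M) ℝ :=
  fun r r' => jet p dp r.2 (f r') (qY f sy u r.1)

/-- the numerators of the coefficients -/
noncomputable def qN (c : Γ ⊕ Fin n) (u : Γ ⊕ Fin n → ℝ) : ℝ :=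
  match c with
  | .inl γ => if ∃ r, f r = γ then
      ∑ r, if f r = γ then ∑ r', (qM p dp f sy u).adjugate r r' *
        qR g gx gy p dp j0 f sx sy u r' else 0
      else (qM p dp f sy u).det * u (.inl γ)
  | .inr i => (qM p dp f sy u).det * qA gx j0 f sx sy u i

end

section degrees

variable {n M k : ℕ} {Γ : Type} [Fintype Γ] [DecidableEq Γ]
  {g : (Fin n → ℝ) → (Fin M → ℝ) → ℝ}
  {gx : Fin n → (Fin n → ℝ) → (Fin M → ℝ) → ℝ} {gy : Fin M → (Fin n → ℝ) → (Fin M → ℝ) → ℝ}
  {p : Γ → (Fin M → ℝ) → ℝ} {dp : Γ → Fin M → (Fin M → ℝ) → ℝ}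
  (j0 : Fin k) (f : Row k M → Γ) (sx : Fin n → SignType) (sy : Fin k → Fin M → SignType)

/-- A function of two groups of variables is a polynomial of degree at most `d`. -/
def PolyLE2 (d : ℕ) (g : (Fin n → ℝ) → (Fin M → ℝ) → ℝ) : Prop :=
  PolyLE d fun w : Fin n ⊕ Fin M → ℝ => g (fun i => w (.inl i)) fun i => w (.inr i)

theorem PolyLE2.comp {ι : Type} {d : ℕ} {g : (Fin n → ℝ) → (Fin M → ℝ) → ℝ} (hg : PolyLE2 d g)
    {X : Fin n → (ι → ℝ) → ℝ} {Y : Fin M → (ι → ℝ) → ℝ} (hX : ∀ i, PolyLE 1 (X i))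
    (hY : ∀ i, PolyLE 1 (Y i)) : PolyLE d fun u => g (fun i => X i u) fun i => Y i u := by
  have h1 := PolyLE.comp hg (G := Sum.elim X Y) (e := 1) (by
    rintro (i | i)
    · exact hX i
    · exact hY i)
  rw [mul_one] at h1
  exact h1

omit [Fintype Γ] [DecidableEq Γ] in
theorem deg_qX (i : Fin n) : PolyLE 1 fun u : Γ ⊕ Fin n → ℝ => qX sx u i := by
  unfold qX
  split_ifs
  · exact PolyLE.coord _
  · exact (PolyLE.const _).mono (by norm_num)

omit [Fintype Γ] [DecidableEq Γ] in
theorem deg_qY (j : Fin k) (i : Fin M) :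
    PolyLE 1 fun u : Γ ⊕ Fin n → ℝ => qY f sy u j i := by
  unfold qY
  split_ifs
  · exact PolyLE.coord _
  · exact (PolyLE.const _).mono (by norm_num)

omit [Fintype Γ] [DecidableEq Γ] in
theorem deg_qL (j : Fin k) : PolyLE 1 fun u : Γ ⊕ Fin n → ℝ => qL j0 f u j := by
  unfold qL
  split_ifs
  · exact ((PolyLE.const _).mono (by norm_num)).sub (PolyLE.sum fun j _ => PolyLE.coord _)
  · exact PolyLE.coord _

omit [Fintype Γ] [DecidableEq Γ] in
theorem deg_qA {d : ℕ} (hgx : ∀ i, PolyLE2 d (gx i)) (i : Fin n) :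
    PolyLE (d + 1) fun u : Γ ⊕ Fin n → ℝ => qA gx j0 f sx sy u i := by
  unfold qA
  split_ifs
  · refine (PolyLE.sum fun j _ => ?_).neg
    rw [add_comm d 1]
    exact (deg_qL j0 f j).mul ((hgx i).comp (fun i => deg_qX sx i) fun i => deg_qY f sy j i)
  · exact (PolyLE.coord _).mono (by omega)

omit [Fintype Γ] in
theorem deg_qC (γ : Γ) : PolyLE 1 fun u : Γ ⊕ Fin n → ℝ => qC f u γ := by
  classical
  unfold qC
  split_ifs
  · exact (PolyLE.const _).mono (by norm_num)
  · exact PolyLE.coord _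

omit [Fintype Γ] [DecidableEq Γ] in
theorem deg_jet {d : ℕ} (hp : ∀ γ, PolyLE d (p γ)) (hdp : ∀ γ i, PolyLE d (dp γ i))
    (o : Option (Fin M)) (γ : Γ) (j : Fin k) :
    PolyLE d fun u : Γ ⊕ Fin n → ℝ => jet p dp o γ (qY f sy u j) := by
  cases o with
  | none =>
    have h1 := PolyLE.comp (hp γ) (G := fun i u => qY f sy u j i) (e := 1)
      (ι := Γ ⊕ Fin n) fun i => deg_qY f sy j i
    rw [mul_one] at h1
    exact h1
  | some i' =>
    have h1 := PolyLE.comp (hdp γ i') (G := fun i u => qY f sy u j i) (e := 1)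
      (ι := Γ ⊕ Fin n) fun i => deg_qY f sy j i
    rw [mul_one] at h1
    exact h1

theorem deg_qR {d : ℕ} (hg : PolyLE2 d g) (hgx : ∀ i, PolyLE2 d (gx i))
    (hgy : ∀ i, PolyLE2 d (gy i)) (hp : ∀ γ, PolyLE d (p γ)) (hdp : ∀ γ i, PolyLE d (dp γ i))
    (r : Row k M) :
    PolyLE (d + 2) fun u : Γ ⊕ Fin n → ℝ => qR g gx gy p dp j0 f sx sy u r := by
  unfold qR
  refine PolyLE.sub ?_ ?_
  · rcases r with ⟨j, _ | i⟩
    · refine PolyLE.sub (PolyLE.sub ?_ ?_) ?_
      · exact (PolyLE.coord _).mono (by omega)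
      · exact ((hg.comp (fun i => deg_qX sx i) fun i => deg_qY f sy j i)).mono (by omega)
      · exact PolyLE.sum fun i _ => (deg_qA j0 f sx sy hgx i).mul (deg_qX sx i)
    · refine PolyLE.sub ?_ ?_
      · split_ifs
        · exact (PolyLE.const _).mono (by omega)
        · exact (PolyLE.coord _).mono (by omega)
      · exact (((hgy i).comp (fun i => deg_qX sx i) fun i => deg_qY f sy j i)).mono (by omega)
  · exact PolyLE.sum fun γ _ => ((deg_qC f γ).mul (deg_jet f sy hp hdp r.2 γ r.1)).mono (by omega)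

omit [Fintype Γ] [DecidableEq Γ] in
theorem deg_qM {d : ℕ} (hp : ∀ γ, PolyLE d (p γ)) (hdp : ∀ γ i, PolyLE d (dp γ i))
    (r r' : Row k M) :
    PolyLE d fun u : Γ ⊕ Fin n → ℝ => qM p dp f sy u r r' :=
  deg_jet f sy hp hdp r.2 (f r') r.1

theorem deg_qN {d : ℕ} (hg : PolyLE2 d g) (hgx : ∀ i, PolyLE2 d (gx i))
    (hgy : ∀ i, PolyLE2 d (gy i)) (hp : ∀ γ, PolyLE d (p γ)) (hdp : ∀ γ i, PolyLE d (dp γ i))
    (c : Γ ⊕ Fin n) :
    PolyLE (Fintype.card (Row k M) * d + (d + 2))
      fun u : Γ ⊕ Fin n → ℝ => qN g gx gy p dp j0 f sx sy c u := by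
  classical
  cases c with
  | inl γ =>
    unfold qN
    dsimp only
    split_ifs
    · refine PolyLE.sum fun r _ => ?_
      split_ifs
      · exact PolyLE.sum fun r' _ => (PolyLE.adjugate (fun a b => deg_qM f sy hp hdp a b) r r').mul
          (deg_qR j0 f sx sy hg hgx hgy hp hdp r')
      · exact (PolyLE.const _).mono (by omega)
    · exact ((PolyLE.det fun a b => deg_qM f sy hp hdp a b).mul (PolyLE.coord _)).mono (by omega)
  | inr i =>
    unfold qN
    dsimp only
    exact ((PolyLE.det fun a b => deg_qM f sy hp hdp a b).mul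
      (deg_qA j0 f sx sy hgx i)).mono (by omega)

end degrees

section incidence

variable {n M k : ℕ} {Γ : Type} [Fintype Γ] [DecidableEq Γ]
  {g : (Fin n → ℝ) → (Fin M → ℝ) → ℝ}
  {gx : Fin n → (Fin n → ℝ) → (Fin M → ℝ) → ℝ} {gy : Fin M → (Fin n → ℝ) → (Fin M → ℝ) → ℝ}
  {p : Γ → (Fin M → ℝ) → ℝ} {dp : Γ → Fin M → (Fin M → ℝ) → ℝ}

/-- The sign of a coordinate at the boundary. -/
noncomputable def bsg (a : ℝ) : SignType := if a = 1 then 1 else if a = -1 then -1 else 0

theorem bsg_ne {a : ℝ} (h : bsg a ≠ 0) : ((bsg a : SignType) : ℝ) = a := by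
  unfold bsg at h ⊢
  split_ifs at h ⊢ with h1 h2
  · simp [h1]
  · simp [h2]
  · exact absurd rfl h

theorem bsg_eq {a : ℝ} (h : bsg a = 0) : a ≠ 1 ∧ a ≠ -1 := by
  unfold bsg at h
  by_cases h1 : a = 1
  · rw [if_pos h1] at h; exact absurd h (by decide)
  by_cases h2 : a = -1
  · rw [if_neg h1, if_pos h2] at h; exact absurd h (by decide)
  exact ⟨h1, h2⟩

theorem sum_split (f : Row k M → Γ) (hf : Function.Injective f) (F : Γ → ℝ) :
    ∑ γ, F γ = ∑ γ, (if ∃ r, f r = γ then 0 else F γ) + ∑ r, F (f r) := by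
  classical
  have h1 : ∑ r, F (f r) = ∑ γ, (if ∃ r, f r = γ then F γ else 0) := by
    rw [← Finset.sum_filter]
    have h2 : (univ.filter fun γ => ∃ r, f r = γ) = univ.image f := by
      ext γ; simp
    rw [h2, Finset.sum_image fun a _ b _ h => hf h]
  rw [h1, ← Finset.sum_add_distrib]
  refine Finset.sum_congr rfl fun γ _ => ?_
  split_ifs <;> simp

/-- Every witness is a value of one of the parametrizations. -/
theorem exists_param (hp : FullJets p dp k) (j0 : Fin k) (c : Γ ⊕ Fin n → ℝ) (x : Fin n → ℝ)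
    (t : ℝ) (l : Fin k → ℝ) (y : Fin k → Fin M → ℝ)
    (hW : Wit (pf g p c) (pfx gx c) (pfy gy dp c) x t l y) :
    ∃ (f : Row k M → Γ) (sx : Fin n → SignType) (sy : Fin k → Fin M → SignType)
      (u : Γ ⊕ Fin n → ℝ), (qM p dp f sy u).det ≠ 0 ∧
      (∀ i, qN g gx gy p dp j0 f sx sy i u = (qM p dp f sy u).det * c i) ∧
      qX sx u = x ∧ qY f sy u = y ∧ qT j0 f u = t ∧ qL j0 f u = l := by
  classical
  obtain ⟨f, hf, hdet⟩ := exists_minor
    (fun (r : Row k M) γ => jet p dp r.2 γ (y r.1)) (by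
      intro v
      obtain ⟨b, hb⟩ := hp y hW.inj (fun j => v (j, none)) fun j i => v (j, some i)
      refine ⟨b, funext fun r => ?_⟩
      rcases r with ⟨j, _ | i⟩
      · rw [← (hb j).1]
        simp only [Matrix.mulVec, dotProduct, jet, Option.elim]
        exact Finset.sum_congr rfl fun γ _ => mul_comm _ _
      · rw [← (hb j).2 i]
        simp only [Matrix.mulVec, dotProduct, jet, Option.elim]
        exact Finset.sum_congr rfl fun γ _ => mul_comm _ _)
  obtain ⟨sx, hsx⟩ : ∃ sx : Fin n → SignType, sx = fun i => bsg (x i) := ⟨_, rfl⟩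
  obtain ⟨sy, hsy⟩ : ∃ sy : Fin k → Fin M → SignType, sy = fun j i => bsg (y j i) := ⟨_, rfl⟩
  obtain ⟨ur, hur⟩ : ∃ ur : Row k M → ℝ, ur = fun r => match r with
      | (j, none) => if j = j0 then t else l j
      | (j, some i) => if sy j i = 0 then y j i else pfy gy dp c i x (y j) := ⟨_, rfl⟩
  obtain ⟨u, hu⟩ : ∃ u : Γ ⊕ Fin n → ℝ, u = Sum.elim
      (Function.extend f ur fun γ => c (.inl γ))
      (fun i => if sx i = 0 then x i else c (.inr i)) := ⟨_, rfl⟩
  have hu1 : ∀ r, u (.inl (f r)) = ur r := by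
    intro r
    rw [hu, Sum.elim_inl, hf.extend_apply]
  have hu2 : ∀ γ, (¬ ∃ r, f r = γ) → u (.inl γ) = c (.inl γ) := by
    intro γ hγ
    rw [hu, Sum.elim_inl, Function.extend_apply' _ _ _ hγ]
  have hu3 : ∀ i, u (.inr i) = if sx i = 0 then x i else c (.inr i) := by
    intro i; rw [hu, Sum.elim_inr]
  have hX : qX sx u = x := by
    funext i
    unfold qX
    split_ifs with h
    · rw [hu3, if_pos h]
    · rw [hsx] at h ⊢
      exact bsg_ne h
  have hY : qY f sy u = y := by
    funext j i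
    unfold qY
    split_ifs with h
    · rw [hu1, hur]
      dsimp only
      rw [if_pos h]
    · rw [hsy] at h ⊢
      exact bsg_ne h
  have hT : qT j0 f u = t := by
    unfold qT
    rw [hu1, hur]
    simp
  have hL : qL j0 f u = l := by
    funext j
    unfold qL
    split_ifs with h
    · have h1 : ∑ j' ∈ univ.erase j0, u (.inl (f (j', none))) = ∑ j' ∈ univ.erase j0, l j' := by
        refine Finset.sum_congr rfl fun j' hj' => ?_
        rw [hu1, hur]
        dsimp only
        rw [if_neg (Finset.ne_of_mem_erase hj')]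
      rw [h1, h]
      have h2 := Finset.add_sum_erase univ l (mem_univ j0)
      have h3 := hW.sum
      linarith
    · rw [hu1, hur]
      dsimp only
      rw [if_neg h]
  have hA : ∀ i, qA gx j0 f sx sy u i = c (.inr i) := by
    intro i
    unfold qA
    split_ifs with h
    · rw [hX, hL, hY]
      have h1 := hW.dx i
      have h2 : x i ≠ 1 ∧ x i ≠ -1 := bsg_eq (by rw [hsx] at h; exact h)
      have h3 := (h1.resolve_left h2.1).resolve_left h2.2
      simp only [pfx] at h3
      have h4 : ∑ j, l j * (gx i x (y j) + c (.inr i)) =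
          ∑ j, l j * gx i x (y j) + (∑ j, l j) * c (.inr i) := by
        rw [Finset.sum_mul, ← Finset.sum_add_distrib]
        exact Finset.sum_congr rfl fun j _ => by ring
      rw [h4, hW.sum, one_mul] at h3
      linarith
    · rw [hu3, if_neg h]
  have hMeq : ∀ r r', qM p dp f sy u r r' = jet p dp r.2 (f r') (y r.1) := by
    intro r r'
    unfold qM
    rw [hY]
  have hMdet : (qM p dp f sy u).det ≠ 0 := by
    have h1 : qM p dp f sy u = Matrix.submatrix (fun (r : Row k M) γ => jet p dp r.2 γ (y r.1))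
        id f := by
      ext r r'
      rw [hMeq]
      rfl
    rw [h1]
    exact hdet
  have hqC : ∀ γ, qC f u γ = if ∃ r, f r = γ then 0 else c (.inl γ) := by
    intro γ
    unfold qC
    split_ifs with h
    · rfl
    · exact hu2 γ h
  -- the linear system
  have hsys : (qM p dp f sy u).mulVec (fun r => c (.inl (f r))) =
      qR g gx gy p dp j0 f sx sy u := by
    funext r
    have h0 : (qM p dp f sy u).mulVec (fun r => c (.inl (f r))) r +
        ∑ γ, qC f u γ * jet p dp r.2 γ (y r.1) = ∑ γ, c (.inl γ) * jet p dp r.2 γ (y r.1) := by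
      rw [sum_split f hf fun γ => c (.inl γ) * jet p dp r.2 γ (y r.1), add_comm]
      congr 1
      · refine Finset.sum_congr rfl fun γ _ => ?_
        rw [hqC]
        split_ifs <;> simp
      · simp only [Matrix.mulVec, dotProduct]
        refine Finset.sum_congr rfl fun r' _ => ?_
        rw [hMeq]
        ring
    unfold qR
    rw [hY, hX, hT]
    rcases r with ⟨j, _ | i⟩
    · have h1 := hW.val j
      simp only [pf] at h1
      simp only [jet, Option.elim, hA] at h0 ⊢
      linarith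
    · simp only [jet, Option.elim] at h0 ⊢
      have h2 : (if sy j i = 0 then (0 : ℝ) else u (.inl (f (j, some i)))) =
          pfy gy dp c i x (y j) := by
        split_ifs with h
        · have h1 := hW.dy j i
          have h2 : y j i ≠ 1 ∧ y j i ≠ -1 := bsg_eq (by rw [hsy] at h; exact h)
          exact ((h1.resolve_left h2.1).resolve_left h2.2).symm
        · rw [hu1, hur]
          dsimp only
          rw [if_neg h]
      rw [h2]
      simp only [pfy]
      linarith
  refine ⟨f, sx, sy, u, hMdet, ?_, hX, hY, hT, hL⟩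
  rintro (γ | i)
  · unfold qN
    dsimp only
    split_ifs with h
    · obtain ⟨r, hr⟩ := h
      rw [Finset.sum_eq_single r]
      · rw [if_pos hr, ← hsys]
        have h1 : (qM p dp f sy u).adjugate.mulVec ((qM p dp f sy u).mulVec
            (fun r => c (.inl (f r)))) r = (qM p dp f sy u).det * c (.inl (f r)) := by
          rw [Matrix.mulVec_mulVec, Matrix.adjugate_mul]
          simp [Matrix.smul_mulVec]
        rw [hr] at h1
        rw [← h1]
        rfl
      · intro r' _ hr'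
        rw [if_neg]
        intro h2
        exact hr' (hf (h2.trans hr.symm))
      · intro h2; exact absurd (mem_univ r) h2
    · rw [hu2 γ h]
  · unfold qN
    dsimp only
    rw [hA]

end incidence

end Run7.h470.Iso
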