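import Pool.Agent.Run7.h470.Iso.Defs

/-!
# Polynomial functions with degree bounds; the counting lemma
-/

set_option autoImplicit false

namespace Run7.h470.Iso

open Finset

variable {ι : Type*}

theorem PolyLE.mono {d e : ℕ} {F : (ι → ℝ) → ℝ} (h : PolyLE d F) (hde : d ≤ e) : PolyLE e F := by
  obtain ⟨p, h1, h2⟩ := h
  exact ⟨p, h1.trans hde, h2⟩

theorem PolyLE.congr {d : ℕ} {F G : (ι → ℝ) → ℝ} (h : PolyLE d F) (hFG : ∀ u, G u = F u) :
    PolyLE d G := by
  obtain ⟨p, h1, h2⟩ := h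
  exact ⟨p, h1, fun u => (hFG u).trans (h2 u)⟩

theorem PolyLE.const (a : ℝ) : PolyLE 0 (fun _ : ι → ℝ => a) :=
  ⟨MvPolynomial.C a, by simp, fun u => by simp⟩

theorem PolyLE.coord (i : ι) : PolyLE 1 (fun u : ι → ℝ => u i) :=
  ⟨MvPolynomial.X i, by simp [MvPolynomial.totalDegree_X], fun u => by simp⟩

theorem PolyLE.add {d : ℕ} {F G : (ι → ℝ) → ℝ} (hF : PolyLE d F) (hG : PolyLE d G) :
    PolyLE d (fun u => F u + G u) := by
  obtain ⟨p, h1, h2⟩ := hF
  obtain ⟨q, h3, h4⟩ := hG
  exact ⟨p + q, (MvPolynomial.totalDegree_add p q).trans (max_le h1 h3),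
    fun u => by simp [h2, h4]⟩

theorem PolyLE.neg {d : ℕ} {F : (ι → ℝ) → ℝ} (hF : PolyLE d F) : PolyLE d (fun u => -F u) := by
  obtain ⟨p, h1, h2⟩ := hF
  exact ⟨-p, by rwa [MvPolynomial.totalDegree_neg], fun u => by simp [h2]⟩

theorem PolyLE.sub {d : ℕ} {F G : (ι → ℝ) → ℝ} (hF : PolyLE d F) (hG : PolyLE d G) :
    PolyLE d (fun u => F u - G u) :=
  (hF.add hG.neg).congr fun u => by ring

theorem PolyLE.mul {d e : ℕ} {F G : (ι → ℝ) → ℝ} (hF : PolyLE d F) (hG : PolyLE e G) :
    PolyLE (d + e) (fun u => F u * G u) := by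
  obtain ⟨p, h1, h2⟩ := hF
  obtain ⟨q, h3, h4⟩ := hG
  exact ⟨p * q, (MvPolynomial.totalDegree_mul p q).trans (Nat.add_le_add h1 h3),
    fun u => by simp [h2, h4]⟩

theorem PolyLE.sum {κ : Type*} {s : Finset κ} {d : ℕ} {F : κ → (ι → ℝ) → ℝ}
    (h : ∀ i ∈ s, PolyLE d (F i)) : PolyLE d (fun u => ∑ i ∈ s, F i u) := by
  classical
  induction s using Finset.induction_on with
  | empty => exact ((PolyLE.const 0).mono (Nat.zero_le d)).congr fun u => by simp
  | insert a s ha ih =>
    refine ((h a (mem_insert_self a s)).add (ih fun i hi => h i (mem_insert_of_mem hi))).congr ?_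
    intro u
    simp [Finset.sum_insert ha]

theorem PolyLE.prod {κ : Type*} {s : Finset κ} {d : κ → ℕ} {F : κ → (ι → ℝ) → ℝ}
    (h : ∀ i ∈ s, PolyLE (d i) (F i)) : PolyLE (∑ i ∈ s, d i) (fun u => ∏ i ∈ s, F i u) := by
  classical
  induction s using Finset.induction_on with
  | empty => exact ((PolyLE.const 1).mono (by simp)).congr fun u => by simp
  | insert a s ha ih =>
    rw [Finset.sum_insert ha]
    refine ((h a (mem_insert_self a s)).mul (ih fun i hi => h i (mem_insert_of_mem hi))).congr ?_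
    intro u
    simp [Finset.prod_insert ha]

theorem PolyLE.pow {d : ℕ} {F : (ι → ℝ) → ℝ} (hF : PolyLE d F) (k : ℕ) :
    PolyLE (k * d) (fun u => F u ^ k) := by
  induction k with
  | zero => exact ((PolyLE.const 1).mono (by simp)).congr fun u => by simp
  | succ k ih =>
    exact ((ih.mul hF).mono (by ring_nf; exact le_refl _)).congr fun u => by rw [pow_succ]

theorem PolyLE.comp {κ : Type*} {d e : ℕ} {F : (κ → ℝ) → ℝ} (hF : PolyLE d F)
    {G : κ → (ι → ℝ) → ℝ} (hG : ∀ k, PolyLE e (G k)) :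
    PolyLE (d * e) (fun u => F fun k => G k u) := by
  obtain ⟨p, h1, h2⟩ := hF
  have h3 : ∀ s ∈ p.support, PolyLE (d * e)
      (fun u => p.coeff s * ∏ k ∈ s.support, G k u ^ s k) := by
    intro s hs
    have h4 : PolyLE (∑ k ∈ s.support, s k * e) (fun u => ∏ k ∈ s.support, G k u ^ s k) :=
      PolyLE.prod fun k _ => (hG k).pow (s k)
    refine (((PolyLE.const (p.coeff s)).mul h4).mono ?_).congr fun u => rfl
    rw [zero_add, ← Finset.sum_mul]
    refine Nat.mul_le_mul_right _ (le_trans ?_ h1)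
    exact MvPolynomial.le_totalDegree hs
  refine (PolyLE.sum h3).congr fun u => ?_
  rw [h2, MvPolynomial.eval_eq]

theorem PolyLE.det {m : Type*} [Fintype m] [DecidableEq m] {d : ℕ}
    {A : (ι → ℝ) → Matrix m m ℝ} (hA : ∀ i j, PolyLE d (fun u => A u i j)) :
    PolyLE (Fintype.card m * d) (fun u => (A u).det) := by
  have h1 : ∀ σ ∈ (univ : Finset (Equiv.Perm m)), PolyLE (Fintype.card m * d)
      (fun u => ((Equiv.Perm.sign σ : ℤ) : ℝ) * ∏ i, A u (σ i) i) := by
    intro σ _
    have h2 : PolyLE (∑ i : m, d) (fun u => ∏ i, A u (σ i) i) :=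
      PolyLE.prod (s := (univ : Finset m)) (d := fun _ => d) fun i _ => hA (σ i) i
    refine (((PolyLE.const _).mul h2).mono ?_)
    simp
  refine (PolyLE.sum h1).congr fun u => ?_
  rw [Matrix.det_apply']

theorem PolyLE.adjugate {m : Type*} [Fintype m] [DecidableEq m] {d : ℕ}
    {A : (ι → ℝ) → Matrix m m ℝ} (hA : ∀ i j, PolyLE d (fun u => A u i j)) (i j : m) :
    PolyLE (Fintype.card m * d) (fun u => (A u).adjugate i j) := by
  have h1 : ∀ a b, PolyLE d (fun u => ((A u).updateRow j (Pi.single i 1)) a b) := by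
    intro a b
    by_cases h : a = j
    · subst h
      refine ((PolyLE.const ((Pi.single i (1 : ℝ) : m → ℝ) b)).mono (Nat.zero_le d)).congr ?_
      intro u
      rw [Matrix.updateRow_self]
    · refine (hA a b).congr fun u => ?_
      rw [Matrix.updateRow_ne h]
  refine (PolyLE.det h1).congr fun u => ?_
  rw [Matrix.adjugate_apply]

/-- A polynomial function vanishing on a large grid is zero. -/
theorem PolyLE.eq_zero {ι : Type} [Fintype ι] {d : ℕ} {F : (ι → ℝ) → ℝ} (hF : PolyLE d F)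
    (h : ∀ g : ι → Fin (d + 1), F (fun i => ((g i : ℕ) : ℝ)) = 0) (u : ι → ℝ) : F u = 0 := by
  classical
  obtain ⟨p, h1, h2⟩ := hF
  have h3 : p = 0 := by
    refine MvPolynomial.eq_zero_of_eval_zero_at_prod_finset p
      (fun _ => (Finset.range (d + 1)).image fun n : ℕ => (n : ℝ)) ?_ ?_
    · intro i
      rw [Finset.card_image_of_injective _ Nat.cast_injective, Finset.card_range]
      exact Nat.lt_succ_of_le ((MvPolynomial.degreeOf_le_totalDegree p i).trans h1)
    · intro x hx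
      choose g hg hg2 using fun i => Finset.mem_image.1 (hx i)
      have h4 := h fun i => ⟨g i, Finset.mem_range.1 (hg i)⟩
      rw [h2] at h4
      have h5 : (fun i => ((g i : ℕ) : ℝ)) = x := funext hg2
      simpa [h5] using h4
  rw [h2, h3, map_zero]

end Run7.h470.Iso
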