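import Pool.Agent.Run7.h470.Iso.Val
import Pool.Agent.Run7.h470.Iso.Deg

/-!
# The meaning of the formula of the reduction
-/

set_option autoImplicit false

namespace Pool.Agent.NPC.H470Iso

open Pool.Agent.NPC Pool.Agent.NPC.ER Pool.Agent.NPC.H612 Pool.Agent.NPC.R537HD
open Pool.Agent.R537.RN (pick qsum cerr cube)
open Run7.h470.Iso (kA kB kC lin gV gF gX gY gYU dqsum dcerr Wit pf pfx pfy GG)

section

variable (p : List ℕ × Fm)

/-- The conditions on an active point. -/
structure ActP (v : ℕ → ℝ) (j : ℕ) : Prop where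
  pos : 0 < v (o2 p + j)
  u0 : v (o4 p + (j * (qκ p + 1) + 0)) = 1
  us : ∀ s < qκ p, v (o4 p + (j * (qκ p + 1) + (s + 1))) =
    v (o4 p + (j * (qκ p + 1) + s)) ^ 2 * v (o3 p + (j * qM p + 0)) ^ 2
  val : (vaT p j).eval v = v (o1 p)
  dy : ∀ i < qM p, v (o3 p + (j * qM p + i)) ^ 2 = 1 ∨ (dyT p i j).eval v = 0

/-- The conditions on an inactive point. -/
structure OffP (v : ℕ → ℝ) (j : ℕ) : Prop where
  zero : v (o2 p + j) = 0
  y0 : ∀ i < qM p, v (o3 p + (j * qM p + i)) = 0
  u0 : ∀ s < qκ p + 1, v (o4 p + (j * (qκ p + 1) + s)) = 0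

/-- The conditions on the base coordinates. -/
structure BaseP (v : ℕ → ℝ) : Prop where
  s0 : v (o6 p) + v (o6 p) = 1
  sc : ∀ j < qΛ p, v (o6 p + j + 1) = v (o6 p + j) ^ 2
  N1 : v (o7 p) * v (o6 p + qB p) = 1
  bit : ∀ b < (qG p + qn p) * qL p, v (o5 p + b) ^ 2 = v (o5 p + b)
  xb : ∀ i < qn p, v i ^ 2 ≤ 1
  act : ∀ j < qK p, OffP p v j ∨ ActP p v j
  mono : ∀ j < qn p, v (o2 p + j) = 0 → v (o2 p + (j + 1)) = 0
  sum : ∑ j ∈ Finset.range (qK p), v (o2 p + j) = 1
  dx : ∀ i < qn p, v i ^ 2 = 1 ∨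
    ∑ j ∈ Finset.range (qK p), v (o2 p + j) * (dxT p i j).eval v = 0
  inj : ∀ j < qK p, ∀ j' < qK p, j ≠ j' → v (o2 p + j) = 0 ∨ v (o2 p + j') = 0 ∨
    (dsT p j j').eval v ≠ 0

/-- The conditions on the coordinates of the cone off the apex. -/
structure ConeP (v : ℕ → ℝ) : Prop where
  pos : 0 < v (o8 p)
  y : ∀ i < qM p, v (o9 p + i) ^ 2 ≤ v (o8 p) ^ 2
  u0 : v (o10 p) = v (o8 p)
  us : ∀ s < qκ p, v (o10 p + (s + 1)) * (v (o8 p) ^ 2 * v (o8 p)) =
    v (o10 p + s) ^ 2 * v (o9 p) ^ 2
  val : (cvT p).eval v ≤ 0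

theorem holds_actF (v : ℕ → ℝ) (j : ℕ) : (actF p j).Holds v ↔ OffP p v j ∨ ActP p v j := by
  unfold actF
  constructor
  · rintro (h | h)
    · left
      simp only [holds_conj, List.forall_mem_cons, List.mem_map, List.mem_range,
        forall_exists_index, and_imp, forall_apply_eq_imp_iff₂, List.not_mem_nil,
        false_implies, implies_true, and_true, Fm.Holds, Tm.eval, yV, uV] at h
      exact ⟨h.1, h.2.1, h.2.2⟩
    · right
      simp only [holds_conj, List.forall_mem_cons, List.mem_map, List.mem_range,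
        forall_exists_index, and_imp, forall_apply_eq_imp_iff₂, List.not_mem_nil,
        false_implies, implies_true, and_true, Fm.Holds, Tm.eval, yV, uV, eval_sqT] at h
      exact ⟨h.1, h.2.1, h.2.2.1, h.2.2.2.1, h.2.2.2.2⟩
  · rintro (h | h)
    · left
      simp only [holds_conj, List.forall_mem_cons, List.mem_map, List.mem_range,
        forall_exists_index, and_imp, forall_apply_eq_imp_iff₂, List.not_mem_nil,
        false_implies, implies_true, and_true, Fm.Holds, Tm.eval, yV, uV]
      exact ⟨h.zero, h.y0, h.u0⟩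
    · right
      simp only [holds_conj, List.forall_mem_cons, List.mem_map, List.mem_range,
        forall_exists_index, and_imp, forall_apply_eq_imp_iff₂, List.not_mem_nil,
        false_implies, implies_true, and_true, Fm.Holds, Tm.eval, yV, uV, eval_sqT]
      exact ⟨h.pos, h.u0, h.us, h.val, h.dy⟩

theorem holds_baF (v : ℕ → ℝ) : (baF p).Holds v ↔ BaseP p v := by
  unfold baF
  simp only [holds_conj, List.forall_mem_cons, List.mem_map, List.mem_range,
    forall_exists_index, and_imp, forall_apply_eq_imp_iff₂, List.not_mem_nil,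
    false_implies, implies_true, and_true, Fm.Holds, Tm.eval, NV, eval_sqT, holds_chain,
    holds_actF, eval_sumT_range]
  constructor
  · rintro ⟨h1, h2, h3, h4, h5, h6, h7, h8, h9, h10⟩
    refine ⟨h1, h2, h3, h4, h5, h6, ?_, h8, h9, ?_⟩
    · intro j hj h
      exact (h7 j hj).resolve_left (not_not.2 h)
    · intro j hj j' hj' hne
      have h := h10 j hj j' hj'
      rw [if_neg hne] at h
      exact h
  · rintro ⟨h1, h2, h3, h4, h5, h6, h7, h8, h9, h10⟩
    refine ⟨h1, h2, h3, h4, h5, h6, ?_, h8, h9, ?_⟩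
    · intro j hj
      by_cases h : v (o2 p + j) = 0
      · right; exact h7 j hj h
      · left; exact h
    · intro j hj j' hj'
      split_ifs with hne
      · exact holds_tt v
      · exact h10 j hj j' hj' hne

theorem holds_coF (v : ℕ → ℝ) : (coF p).Holds v ↔
    (∀ i < 1 + (qM p + (qκ p + 1)), v (o8 p + i) = 0) ∨ ConeP p v := by
  unfold coF
  constructor
  · rintro (h | h)
    · left
      simp only [holds_conj, List.mem_map, List.mem_range,
        forall_exists_index, and_imp, forall_apply_eq_imp_iff₂, Fm.Holds, Tm.eval] at h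
      exact h
    · right
      simp only [holds_conj, List.forall_mem_cons, List.mem_map, List.mem_range,
        forall_exists_index, and_imp, forall_apply_eq_imp_iff₂, List.not_mem_nil,
        false_implies, implies_true, and_true, Fm.Holds, Tm.eval, sV, eval_sqT] at h
      exact ⟨h.1, h.2.1, h.2.2.1, h.2.2.2.1, h.2.2.2.2⟩
  · rintro (h | h)
    · left
      simp only [holds_conj, List.mem_map, List.mem_range,
        forall_exists_index, and_imp, forall_apply_eq_imp_iff₂, Fm.Holds, Tm.eval]
      exact h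
    · right
      simp only [holds_conj, List.forall_mem_cons, List.mem_map, List.mem_range,
        forall_exists_index, and_imp, forall_apply_eq_imp_iff₂, List.not_mem_nil,
        false_implies, implies_true, and_true, Fm.Holds, Tm.eval, sV, eval_sqT]
      exact ⟨h.pos, h.y, h.u0, h.us, h.val⟩

end

end Pool.Agent.NPC.H470Iso
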