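import Pool.Agent.Run7.h470.Iso.Sem

/-!
# Consequences of the conditions
-/

set_option autoImplicit false

namespace Pool.Agent.NPC.H470Iso

open Pool.Agent.NPC Pool.Agent.NPC.ER Pool.Agent.NPC.H612 Pool.Agent.NPC.R537HD
open Pool.Agent.R537.RN (pick qsum cerr cube)
open Run7.h470.Iso (kA kB kC lin gV gF gX gY gYU dqsum dcerr Wit pf pfx pfy GG)

theorem two_dim_lt {a b A B : ℕ} (ha : a < A) (hb : b < B) : a * B + b < A * B := by
  calc a * B + b < a * B + B := by omega
    _ = (a + 1) * B := by ring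
    _ ≤ A * B := Nat.mul_le_mul_right _ ha

theorem or_of_sq {a : ℝ} {P : Prop} (h : a ^ 2 = 1 ∨ P) : a = 1 ∨ a = -1 ∨ P := by
  rcases h with h | h
  · have h1 : (a - 1) * (a + 1) = 0 := by linear_combination h
    rcases mul_eq_zero.1 h1 with h2 | h2
    · left; linarith
    · right; left; linarith
  · right; right; exact h

theorem sq_of_or {a : ℝ} {P : Prop} (h : a = 1 ∨ a = -1 ∨ P) : a ^ 2 = 1 ∨ P := by
  rcases h with h | h | h
  · left; rw [h]; norm_num
  · left; rw [h]; norm_num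
  · right; exact h

section

variable (p : List ℕ × Fm)

theorem ix_t : o1 p < o8 p := by unfold o8 o7 o6 o5 o4 o3 o2; omega
theorem ix_x {i : ℕ} (hi : i < qn p) : i < o8 p := by unfold o8 o7 o6 o5 o4 o3 o2 o1; omega
theorem ix_l {j : ℕ} (hj : j < qK p) : o2 p + j < o8 p := by
  unfold o8 o7 o6 o5 o4 o3; omega
theorem ix_y {j i : ℕ} (hj : j < qK p) (hi : i < qM p) : o3 p + (j * qM p + i) < o8 p := by
  have h := two_dim_lt hj hi
  unfold o8 o7 o6 o5 o4; omega
theorem ix_u {j s : ℕ} (hj : j < qK p) (hs : s < qκ p + 1) :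
    o4 p + (j * (qκ p + 1) + s) < o8 p := by
  have h := two_dim_lt hj hs
  unfold o8 o7 o6 o5; omega
theorem ix_b {b : ℕ} (hb : b < (qG p + qn p) * qL p) : o5 p + b < o8 p := by
  unfold o8 o7 o6; omega
theorem ix_s {i : ℕ} (hi : i ≤ qΛ p) : o6 p + i < o8 p := by
  unfold o8 o7; omega
theorem ix_N : o7 p < o8 p := by unfold o8; omega

theorem le_Λ_B : qB p ≤ qΛ p := by unfold qΛ; omega
theorem le_Λ_C : qC p ≤ qΛ p := by unfold qΛ; omega
theorem le_Λ_E : qE p ≤ qΛ p := by unfold qΛ; omega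

/-- The large number. -/
noncomputable def NN : ℝ := 2 ^ 2 ^ qB p
/-- The shift. -/
noncomputable def δδ : ℝ := (1 / 2) ^ 2 ^ qC p
/-- The small number. -/
noncomputable def ηη : ℝ := (1 / 2) ^ 2 ^ qE p

variable {p} {v : ℕ → ℝ}

theorem BaseP.chain (h : BaseP p v) {j : ℕ} (hj : j ≤ qΛ p) :
    v (o6 p + j) = (1 / 2) ^ 2 ^ j := by
  have h1 := chain_val v (o6 p) (qΛ p) h.sc j hj
  have h2 : v (o6 p) = 1 / 2 := by linarith [h.s0]
  rw [h1, h2]

theorem BaseP.N (h : BaseP p v) : v (o7 p) = NN p := by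
  have h1 := h.N1
  rw [h.chain (le_Λ_B p)] at h1
  unfold NN
  have h2 : (1 / 2 : ℝ) ^ 2 ^ qB p * 2 ^ 2 ^ qB p = 1 := by
    rw [← mul_pow]; norm_num
  have h3 : (0 : ℝ) < (1 / 2) ^ 2 ^ qB p := by positivity
  have h4 : (1 / 2 : ℝ) ^ 2 ^ qB p * v (o7 p) = (1 / 2 : ℝ) ^ 2 ^ qB p * 2 ^ 2 ^ qB p := by
    rw [h2, mul_comm]; exact h1
  exact mul_left_cancel₀ h3.ne' h4

theorem BaseP.δ (h : BaseP p v) : v (o6 p + qC p) = δδ p := h.chain (le_Λ_C p)

theorem BaseP.η (h : BaseP p v) : v (o6 p + qE p) = ηη p := h.chain (le_Λ_E p)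

theorem ActP.u {j : ℕ} (h : ActP p v j) : ∀ s ≤ qκ p,
    v (o4 p + (j * (qκ p + 1) + s)) = (yf p v j 0 ^ 2) ^ (2 ^ s - 1) := by
  intro s
  induction s with
  | zero => intro _; rw [h.u0]; simp
  | succ s ih =>
    intro hs
    rw [h.us s (by omega), ih (by omega)]
    have h1 : v (o3 p + (j * qM p + 0)) = yf p v j 0 := rfl
    rw [h1, ← pow_mul, ← pow_succ]
    congr 1
    have : 1 ≤ 2 ^ s := Nat.one_le_two_pow
    rw [pow_succ]
    omega

/-- The function. -/
noncomputable def gf (x : Fin (qn p) → ℝ) (y : Fin (qm p + 1) → ℝ) : ℝ :=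
  gF (locq p) (qS p) (NN p) (qκ p) (δδ p) x y

theorem pow_split (a : ℝ) (k : ℕ) : a * a ^ (2 ^ k - 1) = a ^ 2 ^ k := by
  rw [← pow_succ']
  congr 1
  have : 1 ≤ 2 ^ k := Nat.one_le_two_pow
  omega

theorem eval_va (h : BaseP p v) {j : ℕ} (ha : ActP p v j) : (vaT p j).eval v =
    pf (gF (locq p) (qS p) (NN p) (qκ p) (δδ p)) (pq p) (cf p v) (xf p v) (yf p v j) := by
  rw [eval_vaT, h.N, h.δ, ha.u _ le_rfl, pow_split]
  rfl

theorem eval_dy (h : BaseP p v) {j : ℕ} (ha : ActP p v j) (i : Fin (qm p + 1)) :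
    (dyT p i j).eval v =
    pfy (gY (locq p) (qS p) (NN p) (qκ p)) (dpq p) (cf p v) i (xf p v) (yf p v j) := by
  rw [eval_dyT, h.N, ha.u _ le_rfl]
  rfl

theorem eval_dx (h : BaseP p v) (j : ℕ) (i : Fin (qn p)) :
    (dxT p i j).eval v =
    pfx (gX (locq p) (qS p) (NN p)) (cf p v) i (xf p v) (yf p v j) := by
  rw [eval_dxT, h.N]
  rfl

/-- The number of the active points. -/
theorem BaseP.exists_k (h : BaseP p v) : ∃ k, 0 < k ∧ k ≤ qK p ∧ (∀ j < k, ActP p v j) ∧
    ∀ j < qK p, k ≤ j → OffP p v j := by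
  classical
  by_cases hall : ∀ j < qK p, v (o2 p + j) ≠ 0
  · refine ⟨qK p, Nat.succ_pos _, le_rfl, fun j hj => ?_, fun j hj hk => absurd hj (by omega)⟩
    exact (h.act j hj).resolve_left fun ho => hall j hj ho.zero
  · push Not at hall
    obtain ⟨k, hk⟩ : ∃ k, k = Nat.find hall := ⟨_, rfl⟩
    have hk1 : k < qK p ∧ v (o2 p + k) = 0 := by rw [hk]; exact Nat.find_spec hall
    have hk2 : ∀ j < k, ¬ (j < qK p ∧ v (o2 p + j) = 0) := by
      intro j hj
      rw [hk] at hj
      exact Nat.find_min hall hj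
    have hz : ∀ j, k ≤ j → j < qK p → v (o2 p + j) = 0 := by
      intro j hj
      induction j, hj using Nat.le_induction with
      | base => intro _; exact hk1.2
      | succ j hj ih =>
        intro hj2
        exact h.mono j (by unfold qK at hj2; omega) (ih (by omega))
    refine ⟨k, ?_, hk1.1.le, ?_, ?_⟩
    · by_contra h0
      have h1 : k = 0 := by omega
      have h2 := h.sum
      rw [Finset.sum_eq_zero] at h2
      · exact zero_ne_one h2
      · intro j hj
        exact hz j (by omega) (Finset.mem_range.1 hj)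
    · intro j hj
      exact (h.act j (by omega)).resolve_left fun ho => hk2 j hj ⟨by omega, ho.zero⟩
    · intro j hj hkj
      exact (h.act j hj).resolve_right fun ha => ha.pos.ne' (hz j hkj hj)

/-- The witness. -/
theorem BaseP.wit (h : BaseP p v) {k : ℕ} (hk : k ≤ qK p) (ha : ∀ j < k, ActP p v j)
    (ho : ∀ j < qK p, k ≤ j → OffP p v j) :
    Wit (pf (gF (locq p) (qS p) (NN p) (qκ p) (δδ p)) (pq p) (cf p v))
      (pfx (gX (locq p) (qS p) (NN p)) (cf p v))
      (pfy (gY (locq p) (qS p) (NN p) (qκ p)) (dpq p) (cf p v)) (xf p v) (v (o1 p))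
      (fun j : Fin k => v (o2 p + j)) (fun j : Fin k => yf p v j) := by
  have hsum : ∀ F : ℕ → ℝ, ∑ j ∈ Finset.range (qK p), v (o2 p + j) * F j =
      ∑ j : Fin k, v (o2 p + j) * F j := by
    intro F
    rw [← Finset.sum_subset (Finset.range_subset_range.2 hk), Finset.sum_range]
    intro j hj hj'
    rw [Finset.mem_range] at hj hj'
    rw [(ho j hj (by omega)).zero, zero_mul]
  refine ⟨?_, ?_, ?_, ?_, ?_⟩
  · intro j j' hjj
    by_contra hne
    have hne' : (j : ℕ) ≠ j' := fun h => hne (Fin.ext h)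
    rcases h.inj j (by have := j.2; omega) j' (by have := j'.2; omega) hne' with h1 | h1 | h1
    · exact (ha j j.2).pos.ne' h1
    · exact (ha j' j'.2).pos.ne' h1
    · apply h1
      rw [eval_dsT]
      have h2 : yf p v j = yf p v j' := hjj
      rw [h2]
      simp
  · have h1 := hsum fun _ => 1
    simp only [mul_one] at h1
    rw [← h1, h.sum]
  · intro j
    rw [← eval_va h (ha j j.2)]
    exact (ha j j.2).val
  · intro j i
    have h1 := (ha j j.2).dy i i.2
    rw [eval_dy h (ha j j.2)] at h1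
    exact or_of_sq h1
  · intro i
    have h1 := h.dx i i.2
    have h2 := hsum fun j => (dxT p i j).eval v
    rw [h2] at h1
    simp only [eval_dx h] at h1
    exact or_of_sq h1

end

end Pool.Agent.NPC.H470Iso
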