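import Pool.Agent.Run7.h470.Iso.Sem2

/-!
# The cone
-/

set_option autoImplicit false

namespace Pool.Agent.NPC.H470Iso

open Pool.Agent.NPC Pool.Agent.NPC.ER Pool.Agent.NPC.H612 Pool.Agent.NPC.R537HD
open Pool.Agent.R537.RN (pick qsum cerr cube pick_scale qsum_scale)
open Run7.h470.Iso (kA kB kC lin gV gF gX gY gYU dqsum dcerr Wit pf pfx pfy GG)

section congr

variable {p : List ℕ × Fm} {v w : ℕ → ℝ} (h : ∀ i < o8 p, w i = v i)

include h

theorem xf_congr : xf p w = xf p v := by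
  funext i
  exact h i (ix_x p i.2)

theorem yf_congr {j : ℕ} (hj : j < qK p) : yf p w j = yf p v j := by
  funext i
  exact h _ (ix_y p hj i.2)

theorem cfn_congr {q : ℕ} (hq : q < qG p + qn p) : cfn p w q = cfn p v q := by
  unfold cfn
  rw [h _ (ix_s p (le_Λ_E p))]
  congr 1
  refine Finset.sum_congr rfl fun b hb => ?_
  rw [h _ (ix_b p (two_dim_lt hq (Finset.mem_range.1 hb)))]

theorem cf_congr : cf p w = cf p v := by
  funext q
  rcases q with q | i
  · exact cfn_congr h (by have := q.2; omega)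
  · exact cfn_congr h (by have := i.2; omega)

theorem vaT_congr {j : ℕ} (hj : j < qK p) : (vaT p j).eval w = (vaT p j).eval v := by
  rw [eval_vaT, eval_vaT, xf_congr h, yf_congr h hj, cf_congr h, h _ (ix_N p),
    h _ (ix_u p hj (Nat.lt_succ_self _)), h _ (ix_s p (le_Λ_C p))]

theorem dyT_congr {i j : ℕ} (hi : i < qM p) (hj : j < qK p) :
    (dyT p i j).eval w = (dyT p i j).eval v := by
  have h1 := eval_dyT p w ⟨i, hi⟩ j
  have h2 := eval_dyT p v ⟨i, hi⟩ j
  rw [xf_congr h, yf_congr h hj, cf_congr h, h _ (ix_N p),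
    h _ (ix_u p hj (Nat.lt_succ_self _))] at h1
  exact h1.trans h2.symm

theorem dxT_congr {i j : ℕ} (hi : i < qn p) (hj : j < qK p) :
    (dxT p i j).eval w = (dxT p i j).eval v := by
  have h1 := eval_dxT p w ⟨i, hi⟩ j
  have h2 := eval_dxT p v ⟨i, hi⟩ j
  rw [xf_congr h, yf_congr h hj, cf_congr h, h _ (ix_N p)] at h1
  exact h1.trans h2.symm

theorem dsT_congr {j j' : ℕ} (hj : j < qK p) (hj' : j' < qK p) :
    (dsT p j j').eval w = (dsT p j j').eval v := by
  rw [eval_dsT, eval_dsT, yf_congr h hj, yf_congr h hj']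

theorem ActP.congr {j : ℕ} (hj : j < qK p) (ha : ActP p v j) : ActP p w j := by
  have hu : ∀ s < qκ p + 1, w (o4 p + (j * (qκ p + 1) + s)) =
      v (o4 p + (j * (qκ p + 1) + s)) := fun s hs => h _ (ix_u p hj hs)
  have hy : ∀ i < qM p, w (o3 p + (j * qM p + i)) = v (o3 p + (j * qM p + i)) :=
    fun i hi => h _ (ix_y p hj hi)
  refine ⟨?_, ?_, ?_, ?_, ?_⟩
  · rw [h _ (ix_l p hj)]; exact ha.pos
  · rw [hu 0 (by omega)]; exact ha.u0
  · intro s hs
    rw [hu _ (by omega), hu _ (by omega), hy 0 (Nat.succ_pos _)]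
    exact ha.us s hs
  · rw [vaT_congr h hj, h _ (ix_t p)]; exact ha.val
  · intro i hi
    rw [hy i hi, dyT_congr h hi hj]
    exact ha.dy i hi

theorem OffP.congr {j : ℕ} (hj : j < qK p) (ha : OffP p v j) : OffP p w j := by
  refine ⟨?_, ?_, ?_⟩
  · rw [h _ (ix_l p hj)]; exact ha.zero
  · intro i hi
    rw [h _ (ix_y p hj hi)]; exact ha.y0 i hi
  · intro s hs
    rw [h _ (ix_u p hj hs)]; exact ha.u0 s hs

theorem BaseP.congr (hb : BaseP p v) : BaseP p w := by
  refine ⟨?_, ?_, ?_, ?_, ?_, ?_, ?_, ?_, ?_, ?_⟩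
  · rw [show o6 p = o6 p + 0 by ring, h _ (ix_s p (Nat.zero_le _))]; exact hb.s0
  · intro j hj
    rw [add_assoc, h _ (ix_s p (by omega)), h _ (ix_s p (by omega))]
    exact hb.sc j hj
  · rw [h _ (ix_N p), h _ (ix_s p (le_Λ_B p))]; exact hb.N1
  · intro b hb'
    rw [h _ (ix_b p hb')]; exact hb.bit b hb'
  · intro i hi
    rw [h _ (ix_x p hi)]; exact hb.xb i hi
  · intro j hj
    rcases hb.act j hj with ha | ha
    · left; exact OffP.congr h hj ha
    · right; exact ActP.congr h hj ha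
  · intro j hj
    rw [h _ (ix_l p (by unfold qK; omega)), h _ (ix_l p (by unfold qK; omega))]
    exact hb.mono j hj
  · rw [← hb.sum]
    exact Finset.sum_congr rfl fun j hj => h _ (ix_l p (Finset.mem_range.1 hj))
  · intro i hi
    rw [h _ (ix_x p hi)]
    have h1 : ∑ j ∈ Finset.range (qK p), w (o2 p + j) * (dxT p i j).eval w =
        ∑ j ∈ Finset.range (qK p), v (o2 p + j) * (dxT p i j).eval v := by
      refine Finset.sum_congr rfl fun j hj => ?_
      rw [Finset.mem_range] at hj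
      rw [h _ (ix_l p hj), dxT_congr h hi hj]
    rw [h1]
    exact hb.dx i hi
  · intro j hj j' hj' hne
    rw [h _ (ix_l p hj), h _ (ix_l p hj'), dsT_congr h hj hj']
    exact hb.inj j hj j' hj' hne

end congr

section cone

variable {p : List ℕ × Fm} {v : ℕ → ℝ}

theorem ConeP.u (h : ConeP p v) : ∀ s ≤ qκ p,
    v (o10 p + s) = v (o8 p) * ((v (o9 p) / v (o8 p)) ^ 2) ^ (2 ^ s - 1) := by
  have hσ := h.pos
  intro s
  induction s with
  | zero => intro _; rw [add_zero, h.u0]; simp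
  | succ s ih =>
    intro hs
    have h1 := h.us s (by omega)
    rw [ih (by omega)] at h1
    have h3 : v (o8 p) ^ 2 * v (o8 p) ≠ 0 := by positivity
    apply mul_right_cancel₀ h3
    rw [h1]
    have h4 : 2 ^ (s + 1) - 1 = 2 * (2 ^ s - 1) + 1 := by
      have : 1 ≤ 2 ^ s := Nat.one_le_two_pow
      rw [pow_succ]
      omega
    rw [h4, pow_add, pow_mul, pow_one]
    have h5 : v (o9 p) = v (o8 p) * (v (o9 p) / v (o8 p)) := by field_simp
    generalize v (o9 p) / v (o8 p) = a at *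
    rw [h5]
    rw [← pow_mul (a ^ 2) 2, mul_comm 2 (2 ^ s - 1), pow_mul (a ^ 2)]
    ring

/-- The value on the cone. -/
theorem cone_val (hb : BaseP p v) (hσ : 0 < v (o8 p)) (y : Fin (qm p + 1) → ℝ)
    (hy : ∀ i : Fin (qm p + 1), v (o9 p + i) = v (o8 p) * y i)
    (hu : v (o10 p + qκ p) = v (o8 p) * (y 0 ^ 2) ^ (2 ^ qκ p - 1)) :
    (cvT p).eval v = v (o8 p) ^ 8 * gf (p := p) (xf p v) y := by
  rw [eval_cvT, hu, hb.N, hb.δ]
  have h0 : v (o9 p) = v (o8 p) * y 0 := by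
    have := hy 0
    simpa using this
  have h1 : (fun j : Fin (qm p) => v (o8 p) * v (o9 p + (j + 1))) =
      fun j => v (o8 p) ^ 2 * y j.succ := by
    funext j
    have := hy j.succ
    rw [Fin.val_succ] at this
    rw [this]
    ring
  have h2 : (fun j : Fin (qn p) => NN p * v (o9 p) ^ 2 * xf p v j) =
      fun j => v (o8 p) ^ 2 * (NN p * y 0 ^ 2 * xf p v j) := by
    funext j
    rw [h0]
    ring
  have h3 : v (o9 p) ^ 2 = v (o8 p) ^ 2 * y 0 ^ 2 := by rw [h0]; ring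
  have h4 : (Fin.elim0 : Fin 0 → ℝ) = fun j => v (o8 p) ^ 2 * Fin.elim0 j :=
    funext fun j => j.elim0
  rw [h2, h1, h3, h4]
  have h5 : pick (locq p) (fun j => v (o8 p) ^ 2 * (NN p * y 0 ^ 2 * xf p v j))
      (fun j => v (o8 p) ^ 2 * Fin.elim0 j) (fun j => v (o8 p) ^ 2 * y j.succ) =
      fun i => v (o8 p) ^ 2 * pick (locq p) (fun j => NN p * y 0 ^ 2 * xf p v j)
        Fin.elim0 (fun j => y j.succ) i := by
    funext i
    rw [pick_scale]
  rw [h5, qsum_scale]
  unfold gf gF GG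
  rw [← pow_split (y 0 ^ 2) (qκ p)]
  ring

/-- A point of the cone gives a point at which the function is not positive. -/
theorem ConeP.exists_y (hb : BaseP p v) (h : ConeP p v) :
    ∃ y ∈ cube (qm p + 1), gf (p := p) (xf p v) y ≤ 0 := by
  have hσ := h.pos
  refine ⟨fun i => v (o9 p + i) / v (o8 p), ?_, ?_⟩
  · intro i
    have h1 := h.y i i.2
    rw [abs_div, abs_of_pos hσ, div_le_one hσ]
    exact abs_le_of_sq_le_sq h1 hσ.le
  · have h1 := cone_val hb hσ (fun i => v (o9 p + i) / v (o8 p)) (fun i => by field_simp)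
      (by simpa using h.u _ le_rfl)
    have h2 := h.val
    rw [h1] at h2
    have h3 : 0 < v (o8 p) ^ 8 := by positivity
    exact nonpos_of_mul_nonpos_right h2 h3

/-- The coordinates of a point of the cone. -/
noncomputable def cpt (p : List ℕ × Fm) (v : ℕ → ℝ) (σ : ℝ) (y : Fin (qm p + 1) → ℝ)
    (i : ℕ) : ℝ :=
  if i < o8 p then v i
  else if i < o9 p then σ
  else if h : i - o9 p < qm p + 1 then σ * y ⟨i - o9 p, h⟩
  else if i < tot p then σ * (y 0 ^ 2) ^ (2 ^ (i - o10 p) - 1) else 0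

theorem cpt_lt {σ : ℝ} {y : Fin (qm p + 1) → ℝ} {i : ℕ} (hi : i < o8 p) :
    cpt p v σ y i = v i := if_pos hi

theorem cpt_σ {σ : ℝ} {y : Fin (qm p + 1) → ℝ} : cpt p v σ y (o8 p) = σ := by
  unfold cpt
  rw [if_neg (lt_irrefl _), if_pos (by unfold o9; omega)]

theorem cpt_y {σ : ℝ} {y : Fin (qm p + 1) → ℝ} (i : Fin (qm p + 1)) :
    cpt p v σ y (o9 p + i) = σ * y i := by
  unfold cpt
  rw [if_neg (by unfold o9; omega), if_neg (by omega), dif_pos (by have := i.2; omega)]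
  congr 2
  exact Fin.ext (by simp)

theorem cpt_u {σ : ℝ} {y : Fin (qm p + 1) → ℝ} {s : ℕ} (hs : s ≤ qκ p) :
    cpt p v σ y (o10 p + s) = σ * (y 0 ^ 2) ^ (2 ^ s - 1) := by
  unfold cpt
  rw [if_neg (by unfold o10 o9; omega), if_neg (by unfold o10; omega),
    dif_neg (by unfold o10 qM; omega), if_pos (by unfold tot; omega),
    show o10 p + s - o10 p = s by omega]

theorem cpt_base (hb : BaseP p v) (σ : ℝ) (y : Fin (qm p + 1) → ℝ) : BaseP p (cpt p v σ y) :=
  BaseP.congr (fun _ hi => cpt_lt hi) hb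

theorem cpt_cone (hb : BaseP p v) {σ : ℝ} (hσ : 0 < σ) {y : Fin (qm p + 1) → ℝ}
    (hy : y ∈ cube (qm p + 1)) (hg : gf (p := p) (xf p v) y ≤ 0) : ConeP p (cpt p v σ y) := by
  have h0 : cpt p v σ y (o9 p) = σ * y 0 := by simpa using cpt_y (p := p) (v := v) (σ := σ) 0
  refine ⟨?_, ?_, ?_, ?_, ?_⟩
  · rw [cpt_σ]; exact hσ
  · intro i hi
    rw [cpt_σ]
    have h1 := cpt_y (p := p) (v := v) (σ := σ) (y := y) ⟨i, hi⟩
    simp only at h1
    rw [h1, mul_pow]
    have h2 : y ⟨i, hi⟩ ^ 2 ≤ 1 := by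
      rw [← sq_abs]
      exact pow_le_one₀ (abs_nonneg _) (hy _)
    have h3 : 0 < σ ^ 2 := by positivity
    nlinarith
  · have h1 := cpt_u (p := p) (v := v) (σ := σ) (y := y) (s := 0) (Nat.zero_le _)
    rw [add_zero] at h1
    rw [h1, cpt_σ]
    simp
  · intro s hs
    rw [cpt_u (by omega), cpt_u (by omega), cpt_σ, h0]
    have h4 : 2 ^ (s + 1) - 1 = (2 ^ s - 1) * 2 + 1 := by
      have : 1 ≤ 2 ^ s := Nat.one_le_two_pow
      rw [pow_succ]
      omega
    rw [h4, pow_add, pow_mul, pow_one]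
    ring
  · have hb' := cpt_base hb σ y
    have h1 := cone_val hb' (by rw [cpt_σ]; exact hσ) y (fun i => by rw [cpt_y, cpt_σ])
      (by rw [cpt_u le_rfl, cpt_σ])
    rw [h1, xf_congr (p := p) (v := v) (w := cpt p v σ y) (fun _ hi => cpt_lt hi)]
    exact mul_nonpos_of_nonneg_of_nonpos (by rw [cpt_σ]; positivity) hg

end cone

end Pool.Agent.NPC.H470Iso
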