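import Pool.Agent.Run7.h470.Iso.Form
import Pool.Agent.Run7.h470.Iso.Fun

/-!
# The values of the terms of the reduction
-/

set_option autoImplicit false

namespace Pool.Agent.NPC.H470Iso

open Pool.Agent.NPC Pool.Agent.NPC.ER Pool.Agent.NPC.H612 Pool.Agent.NPC.R537HD
open Pool.Agent.R537.RN (pick qsum cerr)
open Run7.h470.Iso (kA kB kC lin gV gF gX gYU dqsum dcerr)

section

variable (p : List ℕ × Fm)

/-- The places of the variables. -/
def locq (i : ℕ) : Fin (qn p) ⊕ (Fin 0 ⊕ Fin (qm p)) :=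
  if h : i % 2 = 0 ∧ i / 2 ∈ p.1 then
    Sum.inl ⟨p.1.idxOf (i / 2), List.idxOf_lt_length_iff.2 h.2⟩
  else Sum.inr (Sum.inr ⟨(qv p).idxOf i, Nat.lt_succ_of_le List.idxOf_le_length⟩)

/-- The point `x`. -/
def xf (v : ℕ → ℝ) : Fin (qn p) → ℝ := fun i => v i
/-- The points `y`. -/
def yf (v : ℕ → ℝ) (j : ℕ) : Fin (qm p + 1) → ℝ := fun i => v (o3 p + (j * qM p + i))
/-- A coefficient. -/
noncomputable def cfn (v : ℕ → ℝ) (q : ℕ) : ℝ :=
  v (o6 p + qE p) * ∑ b ∈ Finset.range (qL p), 2 ^ b * v (o5 p + (q * qL p + b))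
/-- The coefficients. -/
noncomputable def cf (v : ℕ → ℝ) : Fin (qG p) ⊕ Fin (qn p) → ℝ
  | .inl q => cfn p v q
  | .inr i => cfn p v (qG p + i)
/-- `1` or a coordinate. -/
def hatn (o : ℕ) (y : Fin (qm p + 1) → ℝ) : ℝ :=
  if h : 0 < o ∧ o < qm p + 2 then y ⟨o - 1, by omega⟩ else 1
/-- The perturbations. -/
noncomputable def pq (q : Fin (qG p)) (y : Fin (qm p + 1) → ℝ) : ℝ :=
  hatn p ((q : ℕ) % (qM p + 1)) y * lin (rr p q) y ^ ee p q
/-- The derivatives of the perturbations. -/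
noncomputable def dpq (q : Fin (qG p)) (i : Fin (qm p + 1)) (y : Fin (qm p + 1) → ℝ) : ℝ :=
  (if (q : ℕ) % (qM p + 1) = (i : ℕ) + 1 then 1 else 0) * lin (rr p q) y ^ ee p q +
    hatn p ((q : ℕ) % (qM p + 1)) y *
      (((ee p q : ℕ) : ℝ) * lin (rr p q) y ^ (ee p q - 1) * ((rr p q : ℕ) : ℝ) ^ (i : ℕ))

theorem sum_range_map (k : ℕ) (f : ℕ → ℝ) :
    ((List.range k).map f).sum = ∑ i ∈ Finset.range k, f i := by
  induction k with
  | zero => simp
  | succ k ih => rw [List.range_succ, Finset.sum_range_succ, ← ih]; simp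

theorem eval_sumT_range (v : ℕ → ℝ) (k : ℕ) (f : ℕ → Tm) :
    (sumT ((List.range k).map f)).eval v = ∑ i ∈ Finset.range k, (f i).eval v := by
  rw [eval_sumT, List.map_map, ← sum_range_map]
  rfl

theorem eval_powT (v : ℕ → ℝ) (t : Tm) {k B : ℕ} (h : k ≤ B) :
    (powT t k B).eval v = t.eval v ^ k := by
  unfold powT
  rw [eval_prodT, List.map_map, Nat.min_eq_left h]
  have : (Tm.eval v ∘ fun _ => t) = fun _ : ℕ => t.eval v := rfl
  rw [this]
  simp

theorem eval_twoT (v : ℕ → ℝ) : twoT.eval v = 2 := by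
  simp only [twoT, Tm.eval]
  norm_num

theorem eval_coT (v : ℕ → ℝ) (q : ℕ) : (coT p q).eval v = cfn p v q := by
  unfold coT cfn
  simp only [Tm.eval, eval_sumT_range]
  congr 1
  refine Finset.sum_congr rfl fun b hb => ?_
  rw [eval_powT v _ (Finset.mem_range.1 hb).le, eval_twoT]

theorem ee_le (q : ℕ) : ee p q ≤ 2 * qK p :=
  (Nat.mod_lt _ (by unfold qK; omega)).le

theorem eval_liT (v : ℕ → ℝ) (q j : ℕ) : (liT p q j).eval v = lin (rr p q) (yf p v j) := by
  unfold liT lin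
  rw [eval_sumT_range, Finset.sum_range]
  refine Finset.sum_congr rfl fun i _ => ?_
  simp only [Tm.eval, yV]
  rw [eval_powT v _ i.2.le, eval_numT]
  rfl

theorem eval_haT (v : ℕ → ℝ) (q j : ℕ) :
    (haT p q j).eval v = hatn p (q % (qM p + 1)) (yf p v j) := by
  have hlt : q % (qM p + 1) < qm p + 2 := Nat.mod_lt _ (Nat.succ_pos _)
  unfold haT hatn
  by_cases h : q % (qM p + 1) = 0
  · rw [if_pos h, dif_neg (by omega)]
    rfl
  · rw [if_neg h, dif_pos ⟨by omega, hlt⟩]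
    rfl

theorem eval_peT (v : ℕ → ℝ) (j : ℕ) : (peT p j).eval v =
    ∑ q, cf p v (.inl q) * pq p q (yf p v j) := by
  unfold peT
  rw [eval_sumT_range, Finset.sum_range]
  refine Finset.sum_congr rfl fun q _ => ?_
  simp only [Tm.eval]
  rw [eval_coT, eval_haT, eval_powT v _ (ee_le p q), eval_liT]
  rfl

theorem eval_dpT (v : ℕ → ℝ) (i : Fin (qm p + 1)) (j : ℕ) : (dpT p i j).eval v =
    ∑ q, cf p v (.inl q) * dpq p q i (yf p v j) := by
  unfold dpT
  rw [eval_sumT_range, Finset.sum_range]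
  refine Finset.sum_congr rfl fun q _ => ?_
  simp only [Tm.eval]
  have h1 : (dhT p q i).eval v = if (q : ℕ) % (qM p + 1) = (i : ℕ) + 1 then 1 else 0 := by
    unfold dhT
    split_ifs <;> rfl
  rw [eval_coT, eval_haT, eval_powT v _ (ee_le p q), eval_liT,
    eval_powT v _ ((Nat.sub_le _ _).trans (ee_le p q)), eval_liT,
    eval_powT v _ (show (i : ℕ) ≤ qM p from i.2.le),
    eval_numT, eval_numT, h1]
  rfl

theorem eval_lpT (v : ℕ → ℝ) : (lpT p).eval v = ∑ i, cf p v (.inr i) * xf p v i := by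
  unfold lpT
  rw [eval_sumT_range, Finset.sum_range]
  refine Finset.sum_congr rfl fun i _ => ?_
  simp only [Tm.eval]
  rw [eval_coT]
  rfl

/-! ### The system -/

theorem eval_pk (v : ℕ → ℝ) (A B : Tm) (base i : ℕ) : (pk p A B base i).eval v =
    pick (locq p) (fun j => A.eval v * v j) Fin.elim0 (fun j => B.eval v * v (base + j)) i := by
  unfold pk pick locq
  by_cases h1 : i % 2 = 0 ∧ i / 2 ∈ p.1
  · rw [if_pos h1, dif_pos h1]
    rfl
  · rw [if_neg h1, dif_neg h1]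
    rfl

theorem eval_pkX (v : ℕ → ℝ) (A : Tm) (i0 : Fin (qn p)) (i : ℕ) : (pkX p A i0 i).eval v =
    pick (locq p) (fun j => if j = i0 then A.eval v else 0) Fin.elim0 (fun _ => 0) i := by
  unfold pkX pick locq
  by_cases h1 : i % 2 = 0 ∧ i / 2 ∈ p.1
  · rw [if_pos h1, dif_pos h1]
    simp only [Sum.elim_inl, Fin.ext_iff]
    split_ifs <;> rfl
  · rw [if_neg h1, dif_neg h1]
    rfl

theorem eval_pkZ (v : ℕ → ℝ) (k0 : Fin (qm p)) (i : ℕ) : (pkZ p k0 i).eval v =
    pick (locq p) (fun _ => 0) Fin.elim0 (fun j => if j = k0 then 1 else 0) i := by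
  unfold pkZ pick locq
  by_cases h1 : i % 2 = 0 ∧ i / 2 ∈ p.1
  · rw [if_pos h1, dif_pos h1]
    rfl
  · rw [if_neg h1, dif_neg h1]
    simp only [Sum.elim_inr, Fin.ext_iff]
    split_ifs <;> rfl

theorem eval_ceT (v : ℕ → ℝ) (V : ℕ → Tm) (w : Tm) (c : ER.Con) : (ceT V w c).eval v =
    cerr (fun i => (V i).eval v) (w.eval v) c := by
  cases c <;> simp [ceT, Con.code, cerr, Tm.eval]

theorem eval_dcT (v : ℕ → ℝ) (V V' : ℕ → Tm) (w w' : Tm) (c : ER.Con) :
    (dcT V V' w w' c).eval v =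
    dcerr (fun i => (V i).eval v) (fun i => (V' i).eval v) (w.eval v) (w'.eval v) c := by
  cases c <;> simp [dcT, Con.code, dcerr, Tm.eval]

theorem eval_qT (v : ℕ → ℝ) (V : ℕ → Tm) (w : Tm) : (qT p V w).eval v =
    qsum (fun i => (V i).eval v) (w.eval v) (qS p) := by
  unfold qT qsum
  rw [eval_sumT, List.map_map]
  congr 1
  refine List.map_congr_left fun c _ => ?_
  simp [eval_ceT]

theorem eval_dqT (v : ℕ → ℝ) (V V' : ℕ → Tm) (w w' : Tm) : (dqT p V V' w w').eval v =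
    dqsum (fun i => (V i).eval v) (fun i => (V' i).eval v) (w.eval v) (w'.eval v) (qS p) := by
  unfold dqT dqsum
  rw [eval_sumT, List.map_map]
  congr 1
  refine List.map_congr_left fun c _ => ?_
  simp only [Function.comp, Tm.eval, eval_twoT, eval_ceT, eval_dcT]

theorem eval_pV (v : ℕ → ℝ) (j : ℕ) : (fun i => (pV p j i).eval v) =
    gV (locq p) (v (o7 p)) (xf p v) (yf p v j) := by
  funext i
  unfold pV gV
  rw [eval_pk]
  congr 1
  · funext k
    simp only [Tm.eval, eval_sqT, NV, yV]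
    rfl
  · funext k
    simp only [Tm.eval, one_mul]
    unfold yf
    congr 1
    rw [Fin.val_succ]
    ring

theorem eval_vaT (v : ℕ → ℝ) (j : ℕ) : (vaT p j).eval v =
    v (o7 p) * qsum (gV (locq p) (v (o7 p)) (xf p v) (yf p v j)) (yf p v j 0 ^ 2) (qS p) -
      yf p v j 0 ^ 2 * v (o4 p + (j * (qκ p + 1) + qκ p)) + v (o6 p + qC p) +
      ∑ q, cf p v (.inl q) * pq p q (yf p v j) + ∑ i, cf p v (.inr i) * xf p v i := by
  unfold vaT
  simp only [Tm.eval, eval_subT, eval_qT, eval_pV, eval_sqT, eval_peT, eval_lpT, NV, yV, uV]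
  rfl

theorem eval_dyT (v : ℕ → ℝ) (i : Fin (qm p + 1)) (j : ℕ) : (dyT p i j).eval v =
    gYU (locq p) (qS p) (v (o7 p)) (qκ p) (v (o4 p + (j * (qκ p + 1) + qκ p))) i (xf p v)
      (yf p v j) + ∑ q, cf p v (.inl q) * dpq p q i (yf p v j) := by
  unfold dyT
  rw [← eval_dpT]
  simp only [Tm.eval, eval_subT, eval_dqT, eval_pV, eval_sqT]
  congr 1
  have hy0 : v (o3 p + (j * qM p + 0)) = yf p v j 0 := rfl
  refine Fin.cases ?_ (fun k => ?_) i
  · simp only [gYU, Fin.cases_zero, Fin.val_zero, if_true, pV', NV, yV, uV, Tm.eval,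
      eval_powT v _ (le_refl _), eval_twoT, hy0, eval_pk]
    congr 2
    congr 1
    funext a
    congr 1
    · funext b
      simp only [zero_mul]
  · have h0 : ¬ ((k.succ : Fin (qm p + 1)) : ℕ) = 0 := by rw [Fin.val_succ]; omega
    simp only [gYU, Fin.cases_succ, if_neg h0, pV', NV, yV, Tm.eval, hy0, sub_zero]
    congr 2
    funext a
    have h1 : ((k.succ : Fin (qm p + 1)) : ℕ) - 1 = (k : ℕ) := by rw [Fin.val_succ]; omega
    rw [h1, eval_pkZ]

theorem eval_dxT (v : ℕ → ℝ) (i : Fin (qn p)) (j : ℕ) : (dxT p i j).eval v =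
    gX (locq p) (qS p) (v (o7 p)) i (xf p v) (yf p v j) + cf p v (.inr i) := by
  unfold dxT gX
  have hy0 : v (o3 p + (j * qM p + 0)) = yf p v j 0 := rfl
  simp only [Tm.eval, eval_dqT, eval_pV, eval_sqT, eval_coT, eval_pkX, NV, yV, hy0]
  rfl

theorem eval_dsT (v : ℕ → ℝ) (j j' : ℕ) : (dsT p j j').eval v =
    ∑ i, (yf p v j i - yf p v j' i) ^ 2 := by
  unfold dsT
  rw [eval_sumT_range, Finset.sum_range]
  refine Finset.sum_congr rfl fun i _ => ?_
  simp only [eval_sqT, eval_subT, yV, Tm.eval]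
  rfl

/-- The value on the cone. -/
theorem eval_cvT (v : ℕ → ℝ) : (cvT p).eval v =
    v (o7 p) * qsum (pick (locq p) (fun j => v (o7 p) * v (o9 p) ^ 2 * xf p v j) Fin.elim0
      fun j => v (o8 p) * v (o9 p + (j + 1))) (v (o9 p) ^ 2) (qS p) -
      v (o8 p) ^ 5 * v (o9 p) ^ 2 * v (o10 p + qκ p) + v (o6 p + qC p) * v (o8 p) ^ 8 := by
  unfold cvT
  simp only [Tm.eval, eval_subT, eval_qT, eval_sqT, NV, sV]
  have h1 : (fun i => (pk p (Tm.mul (Tm.var (o7 p)) (sqT (Tm.var (o9 p)))) (Tm.var (o8 p))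
      (o9 p + 1) i).eval v) = pick (locq p) (fun j => v (o7 p) * v (o9 p) ^ 2 * xf p v j)
      Fin.elim0 fun j => v (o8 p) * v (o9 p + (j + 1)) := by
    funext i
    rw [eval_pk]
    congr 1
    · funext k
      simp only [Tm.eval, eval_sqT]
      rfl
    · funext k
      simp only [Tm.eval]
      congr 2
      ring
  rw [h1]
  ring

end

end Pool.Agent.NPC.H470Iso
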